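import Pool.Agent.VGH.Defs

/-! Module Ls: the line sections through `(0,0,0,1)`. -/

set_option autoImplicit false

open scoped LinearAlgebra.Projectivization
open MvPolynomial

namespace Pool.Agent.VGS.H

open Pool.Agent.LowDeg (surf IsSmoothForm)
open Pool.Agent.Chow0 (linForm chowForm IsLink IsChowForm)

variable {F : MvPolynomial (Fin 4) ℂ} {d e : ℕ}

/-! ### the restriction of the form to the line through `z` and `(0,0,0,1)` -/

/-- the restriction of `F` to the line through `z` and `(0,0,0,1)` -/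
noncomputable def LP (F : MvPolynomial (Fin 4) ℂ) (z : Fin 4 → ℂ) : Polynomial ℂ :=
  aeval ![Polynomial.C (z 0), Polynomial.C (z 1), Polynomial.C (z 2), Polynomial.X] F

theorem Ls_def (F : MvPolynomial (Fin 4) ℂ) (z : Fin 4 → ℂ) :
    Ls F z = (LP F z).roots.map fun w => mkP ![z 0, z 1, z 2, w] := rfl

theorem LP_eval (F : MvPolynomial (Fin 4) ℂ) (z : Fin 4 → ℂ) (w : ℂ) :
    (LP F z).eval w = aeval ![z 0, z 1, z 2, w] F := by
  unfold LP
  rw [aeval_def, aeval_def, eval₂_eq', eval₂_eq', Polynomial.eval_finsetSum]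
  refine Finset.sum_congr rfl fun m _ => ?_
  rw [Fin.prod_univ_four, Fin.prod_univ_four, Polynomial.algebraMap_eq]
  simp

theorem LP_sum (F : MvPolynomial (Fin 4) ℂ) (z : Fin 4 → ℂ) :
    LP F z = ∑ m ∈ F.support,
      Polynomial.monomial (m 3) (coeff m F * (z 0 ^ m 0 * z 1 ^ m 1 * z 2 ^ m 2)) := by
  unfold LP
  rw [aeval_def, eval₂_eq']
  refine Finset.sum_congr rfl fun m _ => ?_
  rw [Fin.prod_univ_four, Polynomial.algebraMap_eq, ← Polynomial.C_mul_X_pow_eq_monomial]
  simp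
  ring

theorem LP_coeff (F : MvPolynomial (Fin 4) ℂ) (z : Fin 4 → ℂ) (n : ℕ) :
    (LP F z).coeff n = ∑ m ∈ F.support,
      if m 3 = n then coeff m F * (z 0 ^ m 0 * z 1 ^ m 1 * z 2 ^ m 2) else 0 := by
  rw [LP_sum, Polynomial.finsetSum_coeff]
  refine Finset.sum_congr rfl fun m _ => ?_
  rw [Polynomial.coeff_monomial]

theorem ls_eq_single {m : Fin 4 →₀ ℕ} {d : ℕ} (h : m.degree = d) (h3 : m 3 = d) :
    m = Finsupp.single 3 d := by
  rw [Finsupp.degree_eq_sum, Fin.sum_univ_four] at h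
  ext i
  fin_cases i
  · simp; omega
  · simp; omega
  · simp; omega
  · simp; omega

theorem LP_coeff_top (hF : F.IsHomogeneous d) (z : Fin 4 → ℂ) :
    (LP F z).coeff d = coeff (Finsupp.single 3 d) F := by
  classical
  rw [LP_coeff]
  have h : ∀ m ∈ F.support,
      (if m 3 = d then coeff m F * (z 0 ^ m 0 * z 1 ^ m 1 * z 2 ^ m 2) else 0) =
      if m = Finsupp.single 3 d then coeff (Finsupp.single 3 d) F else 0 := by
    intro m hm
    have hd : m.degree = d := by
      by_contra hc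
      exact (mem_support_iff.mp hm) (hF.coeff_eq_zero hc)
    by_cases h3 : m 3 = d
    · have h4 := ls_eq_single hd h3
      rw [if_pos h3, if_pos h4, h4]
      simp
    · rw [if_neg h3, if_neg]
      rintro rfl
      apply h3
      simp
  rw [Finset.sum_congr rfl h, Finset.sum_ite_eq']
  split_ifs with h5
  · rfl
  · exact (notMem_support_iff.mp h5).symm

theorem LP_natDegree_le (hF : F.IsHomogeneous d) (z : Fin 4 → ℂ) : (LP F z).natDegree ≤ d := by
  rw [LP_sum]
  refine Polynomial.natDegree_sum_le_of_forall_le _ _ fun m hm => ?_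
  have hd : m.degree = d := by
    by_contra hc
    exact (mem_support_iff.mp hm) (hF.coeff_eq_zero hc)
  rw [Finsupp.degree_eq_sum, Fin.sum_univ_four] at hd
  exact (Polynomial.natDegree_monomial_le _).trans (by omega)

theorem LP_ne_zero (hF : F.IsHomogeneous d) (h3 : coeff (Finsupp.single 3 d) F ≠ 0)
    (z : Fin 4 → ℂ) : LP F z ≠ 0 := by
  intro h
  have h1 := LP_coeff_top hF z
  rw [h, Polynomial.coeff_zero] at h1
  exact h3 h1.symm

theorem LP_natDegree (hF : F.IsHomogeneous d) (h3 : coeff (Finsupp.single 3 d) F ≠ 0)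
    (z : Fin 4 → ℂ) : (LP F z).natDegree = d :=
  le_antisymm (LP_natDegree_le hF z)
    (Polynomial.le_natDegree_of_ne_zero (by rw [LP_coeff_top hF]; exact h3))

theorem LP_card (hF : F.IsHomogeneous d) (h3 : coeff (Finsupp.single 3 d) F ≠ 0)
    (z : Fin 4 → ℂ) : Multiset.card (LP F z).roots = d := by
  rw [Polynomial.splits_iff_card_roots.mp (IsAlgClosed.splits (LP F z)), LP_natDegree hF h3]

theorem LP_prod (hF : F.IsHomogeneous d) (h3 : coeff (Finsupp.single 3 d) F ≠ 0)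
    (z : Fin 4 → ℂ) : LP F z = Polynomial.C (coeff (Finsupp.single 3 d) F) *
      ((LP F z).roots.map fun w => Polynomial.X - Polynomial.C w).prod := by
  have h1 : (LP F z).leadingCoeff = coeff (Finsupp.single 3 d) F := by
    rw [Polynomial.leadingCoeff, LP_natDegree hF h3, LP_coeff_top hF]
  rw [← h1]
  exact (Polynomial.C_leadingCoeff_mul_prod_multiset_X_sub_C
    (by rw [LP_card hF h3, LP_natDegree hF h3])).symm

theorem mem_Ls (hF : F.IsHomogeneous d) (h3 : coeff (Finsupp.single 3 d) F ≠ 0)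
    {z : Fin 4 → ℂ} {q : PP} :
    q ∈ Ls F z ↔ ∃ w : ℂ, aeval ![z 0, z 1, z 2, w] F = 0 ∧ q = mkP ![z 0, z 1, z 2, w] := by
  rw [Ls_def, Multiset.mem_map]
  constructor
  · rintro ⟨w, hw, rfl⟩
    refine ⟨w, ?_, rfl⟩
    rw [← LP_eval]
    exact (Polynomial.mem_roots'.1 hw).2
  · rintro ⟨w, hw, rfl⟩
    refine ⟨w, ?_, rfl⟩
    rw [Polynomial.mem_roots (LP_ne_zero hF h3 z), Polynomial.IsRoot, LP_eval]
    exact hw

theorem ls_vec_ne {z : Fin 4 → ℂ} (hz : ¬ (z 0 = 0 ∧ z 1 = 0 ∧ z 2 = 0)) (w : ℂ) :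
    (![z 0, z 1, z 2, w] : Fin 4 → ℂ) ≠ 0 := by
  intro h
  apply hz
  exact ⟨congrFun h 0, congrFun h 1, congrFun h 2⟩

theorem act_Ls_gen {K : Fl} (hFK : Coef K F) {σ : ℂ ≃+* ℂ} (hσ : σ ∈ Fix K) {z : Fin 4 → ℂ}
    (hz : ¬ (z 0 = 0 ∧ z 1 = 0 ∧ z 2 = 0)) :
    (Ls F z).map (act σ) = Ls F fun i => σ (z i) := by
  have h1 : LP F (fun i => σ (z i)) = (LP F z).map (σ : ℂ →+* ℂ) := by
    rw [LP_sum, LP_sum, Polynomial.map_sum]
    refine Finset.sum_congr rfl fun m _ => ?_
    rw [Polynomial.map_monomial]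
    congr 1
    rw [RingHom.map_mul, RingHom.map_mul, RingHom.map_mul, RingHom.map_pow, RingHom.map_pow,
      RingHom.map_pow]
    congr 1
    exact (hσ _ (hFK m)).symm
  have h2 : (LP F (fun i => σ (z i))).roots = (LP F z).roots.map σ := by
    rw [h1]
    exact (Polynomial.Splits.roots_map_of_injective (IsAlgClosed.splits _) σ.injective)
  rw [Ls_def, Ls_def, h2, Multiset.map_map, Multiset.map_map]
  refine Multiset.map_congr rfl fun w _ => ?_
  change act σ (mkP ![z 0, z 1, z 2, w]) = mkP ![(fun i => σ (z i)) 0, (fun i => σ (z i)) 1,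
    (fun i => σ (z i)) 2, σ w]
  have h3 : (fun i => σ ((![z 0, z 1, z 2, w] : Fin 4 → ℂ) i)) =
      ![(fun i => σ (z i)) 0, (fun i => σ (z i)) 1, (fun i => σ (z i)) 2, σ w] := by
    funext i
    fin_cases i <;> rfl
  have h4 := map_ne_zero' σ (ls_vec_ne hz w)
  rw [mkP_eq (ls_vec_ne hz w), act_mk σ _ _ h4, ← mkP_eq h4, h3]

theorem act_Ls {K : Fl} (hFK : Coef K F) {σ : ℂ ≃+* ℂ} (hσ : σ ∈ Fix K) {z : Fin 4 → ℂ}
    (h1 : z 0 = 1) : (Ls F z).map (act σ) = Ls F fun i => σ (z i) :=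
  act_Ls_gen hFK hσ (by rw [h1]; simp)

/-! ### the Chow form -/

/-- a homogeneous polynomial at a scaled point of an algebra -/
theorem ls_aeval_scale {R : Type} [CommRing R] [Algebra ℂ R] {G : MvPolynomial (Fin 4) ℂ} {e : ℕ}
    (hG : G.IsHomogeneous e) (a : R) (w : Fin 4 → R) :
    aeval (fun i => a * w i) G = a ^ e * aeval w G := by
  rw [aeval_def, aeval_def, eval₂_eq', eval₂_eq', Finset.mul_sum]
  refine Finset.sum_congr rfl fun t ht => ?_
  have h3 : t.degree = e := by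
    by_contra h
    exact (mem_support_iff.mp ht) (hG.coeff_eq_zero h)
  have h2 : ∏ i, (a * w i) ^ t i = a ^ e * ∏ i, w i ^ t i := by
    simp only [mul_pow, Finset.prod_mul_distrib, Finset.prod_pow_eq_pow_sum]
    congr 2
    rw [← h3, Finsupp.degree_eq_sum]
  rw [h2]
  ring

/-- the restriction of `F` to the line at a point of an algebra -/
theorem ls_aeval_LP {R : Type} [CommRing R] [Algebra ℂ R] (F : MvPolynomial (Fin 4) ℂ)
    (z : Fin 4 → ℂ) (x : R) :
    aeval ![algebraMap ℂ R (z 0), algebraMap ℂ R (z 1), algebraMap ℂ R (z 2), x] F =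
      Polynomial.aeval x (LP F z) := by
  unfold LP
  rw [aeval_def, aeval_def, eval₂_eq', eval₂_eq', map_sum]
  refine Finset.sum_congr rfl fun m _ => ?_
  rw [Fin.prod_univ_four, Fin.prod_univ_four, Polynomial.algebraMap_eq]
  simp

/-- the vector `(λ₃ z₀, λ₃ z₁, λ₃ z₂, - (z₀ λ₀ + z₁ λ₁ + z₂ λ₂))` -/
noncomputable def ls_chv (z : Fin 4 → ℂ) : Fin 4 → MvPolynomial (Fin 4) ℂ :=
  ![X 3 * C (z 0), X 3 * C (z 1), X 3 * C (z 2),
    -(C (z 0) * X 0 + C (z 1) * X 1 + C (z 2) * X 2)]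

theorem ls_prod_scale {K : Type} [Field K] (s : Multiset ℂ) (u L : K) (hu : u ≠ 0)
    (f : ℂ → K) : u ^ Multiset.card s * (s.map fun w => L / u - f w).prod =
      (s.map fun w => L - f w * u).prod := by
  induction s using Multiset.induction_on with
  | empty => simp
  | cons a s ih =>
    rw [Multiset.card_cons, Multiset.map_cons, Multiset.map_cons, Multiset.prod_cons,
      Multiset.prod_cons, ← ih, pow_succ]
    have : u * (L / u - f a) = L - f a * u := by
      rw [mul_sub, mul_div_cancel₀ _ hu]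
      ring
    rw [← this]
    ring

theorem ls_aeval_chv_aux {K : Type} [Field K] [Algebra (MvPolynomial (Fin 4) ℂ) K] [Algebra ℂ K]
    [IsScalarTower ℂ (MvPolynomial (Fin 4) ℂ) K]
    (hinj : Function.Injective (algebraMap (MvPolynomial (Fin 4) ℂ) K))
    (hF : F.IsHomogeneous d) (h3 : coeff (Finsupp.single 3 d) F ≠ 0)
    (z : Fin 4 → ℂ) :
    algebraMap (MvPolynomial (Fin 4) ℂ) K (aeval (ls_chv z) F) =
      algebraMap (MvPolynomial (Fin 4) ℂ) K (C ((-1) ^ d * coeff (Finsupp.single 3 d) F) *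
      ((LP F z).roots.map fun w => linForm ![z 0, z 1, z 2, w]).prod) := by
  have hu : algebraMap (MvPolynomial (Fin 4) ℂ) K (X 3) ≠ 0 := fun h =>
    X_ne_zero (3 : Fin 4) (hinj (by rw [h, map_zero]))
  have hc : ∀ c : ℂ, algebraMap (MvPolynomial (Fin 4) ℂ) K (C c) = algebraMap ℂ K c := fun c =>
    (IsScalarTower.algebraMap_apply ℂ (MvPolynomial (Fin 4) ℂ) K c).symm
  generalize hL : algebraMap (MvPolynomial (Fin 4) ℂ) K (ls_chv z 3) = L
  have e1 : algebraMap (MvPolynomial (Fin 4) ℂ) K (aeval (ls_chv z) F) =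
      aeval (fun i => algebraMap (MvPolynomial (Fin 4) ℂ) K (X 3) *
      (![algebraMap ℂ K (z 0), algebraMap ℂ K (z 1), algebraMap ℂ K (z 2),
        L / algebraMap (MvPolynomial (Fin 4) ℂ) K (X 3)] : Fin 4 → K) i) F := by
    rw [← aeval_algebraMap_apply]
    congr 2
    funext i
    fin_cases i
    · change algebraMap (MvPolynomial (Fin 4) ℂ) K (X 3 * C (z 0)) = _ * algebraMap ℂ K (z 0)
      rw [map_mul, hc]
    · change algebraMap (MvPolynomial (Fin 4) ℂ) K (X 3 * C (z 1)) = _ * algebraMap ℂ K (z 1)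
      rw [map_mul, hc]
    · change algebraMap (MvPolynomial (Fin 4) ℂ) K (X 3 * C (z 2)) = _ * algebraMap ℂ K (z 2)
      rw [map_mul, hc]
    · change algebraMap (MvPolynomial (Fin 4) ℂ) K (ls_chv z 3) =
        algebraMap (MvPolynomial (Fin 4) ℂ) K (X 3) *
          (L / algebraMap (MvPolynomial (Fin 4) ℂ) K (X 3))
      rw [mul_div_cancel₀ _ hu, hL]
  have e5 : Polynomial.aeval (L / algebraMap (MvPolynomial (Fin 4) ℂ) K (X 3)) (LP F z) =
      algebraMap ℂ K (coeff (Finsupp.single 3 d) F) *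
      ((LP F z).roots.map fun w =>
        L / algebraMap (MvPolynomial (Fin 4) ℂ) K (X 3) - algebraMap ℂ K w).prod := by
    conv_lhs => rw [LP_prod hF h3 z]
    rw [map_mul, Polynomial.aeval_C, map_multiset_prod, Multiset.map_map]
    congr 2
    refine Multiset.map_congr rfl fun w _ => ?_
    simp
  have e3 := ls_prod_scale (LP F z).roots (algebraMap (MvPolynomial (Fin 4) ℂ) K (X 3)) L hu
    fun w => algebraMap ℂ K w
  rw [LP_card hF h3 z] at e3
  have e4 : ((LP F z).roots.map fun w =>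
      L - algebraMap ℂ K w * algebraMap (MvPolynomial (Fin 4) ℂ) K (X 3)) =
      (LP F z).roots.map fun w => (-1 : K) *
        algebraMap (MvPolynomial (Fin 4) ℂ) K (linForm ![z 0, z 1, z 2, w]) := by
    refine Multiset.map_congr rfl fun w _ => ?_
    have e6 : linForm ![z 0, z 1, z 2, w] = -ls_chv z 3 + C w * X 3 := by
      rw [linForm, Fin.sum_univ_four]
      change C (z 0) * X 0 + C (z 1) * X 1 + C (z 2) * X 2 + C w * X 3 =
        -(-(C (z 0) * X 0 + C (z 1) * X 1 + C (z 2) * X 2)) + C w * X 3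
      ring
    rw [e6, map_add, map_neg, hL, map_mul, hc]
    ring
  rw [e4, Multiset.prod_map_mul, Multiset.map_const', Multiset.prod_replicate,
    LP_card hF h3 z] at e3
  rw [e1, ls_aeval_scale hF, ls_aeval_LP, e5, map_mul, hc, map_mul, map_pow, map_multiset_prod,
    Multiset.map_map, map_neg, map_one]
  have e7 : ((LP F z).roots.map ((algebraMap (MvPolynomial (Fin 4) ℂ) K) ∘
      fun w => linForm ![z 0, z 1, z 2, w])) = (LP F z).roots.map fun w =>
      algebraMap (MvPolynomial (Fin 4) ℂ) K (linForm ![z 0, z 1, z 2, w]) := rfl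
  rw [e7]
  linear_combination (algebraMap ℂ K (coeff (Finsupp.single 3 d) F)) * e3

theorem ls_aeval_chv (hF : F.IsHomogeneous d) (h3 : coeff (Finsupp.single 3 d) F ≠ 0)
    (z : Fin 4 → ℂ) :
    aeval (ls_chv z) F = C ((-1) ^ d * coeff (Finsupp.single 3 d) F) *
      ((LP F z).roots.map fun w => linForm ![z 0, z 1, z 2, w]).prod :=
  IsFractionRing.injective (MvPolynomial (Fin 4) ℂ) (FractionRing (MvPolynomial (Fin 4) ℂ))
    (ls_aeval_chv_aux (IsFractionRing.injective (MvPolynomial (Fin 4) ℂ)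
      (FractionRing (MvPolynomial (Fin 4) ℂ))) hF h3 z)

theorem ls_prod_linForm (s : Multiset ℂ) (v : ℂ → Fin 4 → ℂ) (hv : ∀ w, v w ≠ 0) :
    IsCh (s.map fun w => linForm (v w)).prod (s.map fun w => mkP (v w)) := by
  induction s using Multiset.induction_on with
  | empty => exact ⟨1, one_ne_zero, by simp [chowForm]⟩
  | cons w s ih =>
    obtain ⟨c, hc, hc'⟩ := ih
    obtain ⟨r, hr, hr'⟩ := ch_linForm_mk (hv w)
    refine ⟨r * c, mul_ne_zero hr hc, ?_⟩
    rw [Multiset.map_cons, Multiset.prod_cons, Multiset.map_cons, chowForm_cons', hc', hr',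
      mkP_eq (hv w), MvPolynomial.C_mul]
    ring

/-- the Chow form of the line section -/
theorem ls_isCh (hF : F.IsHomogeneous d) (h3 : coeff (Finsupp.single 3 d) F ≠ 0)
    {z : Fin 4 → ℂ} (hz : ¬ (z 0 = 0 ∧ z 1 = 0 ∧ z 2 = 0)) :
    IsCh (aeval (ls_chv z) F) (Ls F z) := by
  rw [ls_aeval_chv hF h3, Ls_def]
  exact (ls_prod_linForm _ _ fun w => ls_vec_ne hz w).C_mul
    (mul_ne_zero (pow_ne_zero _ (by norm_num)) h3)

theorem Ls_mem_surf (hF : F.IsHomogeneous d) (h3 : coeff (Finsupp.single 3 d) F ≠ 0)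
    {z : Fin 4 → ℂ} (hz : ¬ (z 0 = 0 ∧ z 1 = 0 ∧ z 2 = 0)) :
    ∀ q ∈ Ls F z, q ∈ surf F := by
  intro q hq
  obtain ⟨w, hw, rfl⟩ := (mem_Ls hF h3).1 hq
  rw [mkP_eq (ls_vec_ne hz w), mem_surf_mk hF]
  exact hw

/-- a multiset of points of the surface is the image of a multiset of the subtype -/
theorem ls_exists_sub {s : Multiset PP} (h : ∀ q ∈ s, q ∈ surf F) :
    ∃ t : Multiset (surf F), t.map Subtype.val = s := by
  induction s using Multiset.induction_on with
  | empty => exact ⟨0, Multiset.map_zero _⟩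
  | cons a s ih =>
    obtain ⟨t, ht⟩ := ih fun q hq => h q (Multiset.mem_cons_of_mem hq)
    refine ⟨⟨a, h a (Multiset.mem_cons_self a s)⟩ ::ₘ t, ?_⟩
    rw [Multiset.map_cons, ht]

theorem Ls_sub_mem_gen (hF : F.IsHomogeneous d) (h3 : coeff (Finsupp.single 3 d) F ≠ 0)
    {z z' : Fin 4 → ℂ} (hz : ¬ (z 0 = 0 ∧ z 1 = 0 ∧ z 2 = 0))
    (hz' : ¬ (z' 0 = 0 ∧ z' 1 = 0 ∧ z' 2 = 0)) :
    cycQ (Ls F z) - cycQ (Ls F z') ∈ ratQ F := by
  obtain ⟨s, hs⟩ := ls_exists_sub (Ls_mem_surf hF h3 hz)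
  obtain ⟨s', hs'⟩ := ls_exists_sub (Ls_mem_surf hF h3 hz')
  refine Submodule.subset_span ⟨s, s', ?_, by rw [hs, hs']⟩
  -- the family
  let zt : ℂ → Fin 4 → ℂ := fun t i => z i + t * (z' i - z i)
  let g : Fin 4 → Polynomial (MvPolynomial (Fin 4) ℂ) := fun i =>
    Polynomial.C (C (z i)) + Polynomial.X * Polynomial.C (C (z' i - z i))
  let v : Fin 4 → Polynomial (MvPolynomial (Fin 4) ℂ) :=
    ![Polynomial.C (X 3) * g 0, Polynomial.C (X 3) * g 1, Polynomial.C (X 3) * g 2,
      -(g 0 * Polynomial.C (X 0) + g 1 * Polynomial.C (X 1) + g 2 * Polynomial.C (X 2))]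
  have hev : ∀ t : ℂ, (aeval v F).eval (C t) = aeval (ls_chv (zt t)) F := by
    intro t
    have h1 : (aeval v F).eval (C t) = aeval (fun i => (v i).eval (C t)) F := by
      rw [aeval_def, aeval_def, eval₂_eq', eval₂_eq', Polynomial.eval_finsetSum]
      refine Finset.sum_congr rfl fun m _ => ?_
      rw [Polynomial.eval_mul, Polynomial.eval_prod]
      congr 1
      · rw [IsScalarTower.algebraMap_apply ℂ (MvPolynomial (Fin 4) ℂ)
          (Polynomial (MvPolynomial (Fin 4) ℂ)), Polynomial.algebraMap_eq, Polynomial.eval_C]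
      · exact Finset.prod_congr rfl fun i _ => Polynomial.eval_pow _
    have hg : ∀ i, (g i).eval (C t) = C (zt t i) := by
      intro i
      simp only [g, zt, Polynomial.eval_add, Polynomial.eval_mul, Polynomial.eval_C,
        Polynomial.eval_X, C_add, C_mul]
    rw [h1]
    congr 2
    funext i
    fin_cases i
    · change (Polynomial.C (X 3) * g 0).eval (C t) = X 3 * C (zt t 0)
      rw [Polynomial.eval_mul, hg, Polynomial.eval_C]
    · change (Polynomial.C (X 3) * g 1).eval (C t) = X 3 * C (zt t 1)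
      rw [Polynomial.eval_mul, hg, Polynomial.eval_C]
    · change (Polynomial.C (X 3) * g 2).eval (C t) = X 3 * C (zt t 2)
      rw [Polynomial.eval_mul, hg, Polynomial.eval_C]
    · change (-(g 0 * Polynomial.C (X 0) + g 1 * Polynomial.C (X 1) +
        g 2 * Polynomial.C (X 2))).eval (C t) =
        -(C (zt t 0) * X 0 + C (zt t 1) * X 1 + C (zt t 2) * X 2)
      rw [Polynomial.eval_neg, Polynomial.eval_add, Polynomial.eval_add, Polynomial.eval_mul,
        Polynomial.eval_mul, Polynomial.eval_mul, hg, hg, hg, Polynomial.eval_C,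
        Polynomial.eval_C, Polynomial.eval_C]
  have hchow : ∀ (w : Fin 4 → ℂ), ¬ (w 0 = 0 ∧ w 1 = 0 ∧ w 2 = 0) → ∀ u : Multiset (surf F),
      u.map Subtype.val = Ls F w → IsChowForm (surf F) (aeval (ls_chv w) F) u := by
    intro w hw u hu
    obtain ⟨c, hc, hc'⟩ := ls_isCh hF h3 hw
    exact ⟨c, hc, by rw [hu]; exact hc'⟩
  refine ⟨aeval v F, ?_, ?_, ?_⟩
  · -- all but finitely many values
    have hfin : {t : ℂ | zt t 0 = 0 ∧ zt t 1 = 0 ∧ zt t 2 = 0}.Finite := by
      by_contra hinf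
      have hinf' : {t : ℂ | zt t 0 = 0 ∧ zt t 1 = 0 ∧ zt t 2 = 0}.Infinite := hinf
      obtain ⟨t₁, ht₁⟩ := hinf'.nonempty
      obtain ⟨t₂, ht₂, hne⟩ := (hinf'.sdiff (Set.finite_singleton t₁)).nonempty
      apply hz
      have key : ∀ a b : ℂ, a + t₁ * (b - a) = 0 → a + t₂ * (b - a) = 0 → a = 0 := by
        intro a b h1 h2
        have h4 : (t₁ - t₂) * (b - a) = 0 := by linear_combination h1 - h2
        rcases mul_eq_zero.1 h4 with h5 | h5
        · exact absurd (sub_eq_zero.1 h5).symm hne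
        · rw [h5, mul_zero, add_zero] at h1
          exact h1
      exact ⟨key _ _ ht₁.1 ht₂.1, key _ _ ht₁.2.1 ht₂.2.1, key _ _ ht₁.2.2 ht₂.2.2⟩
    filter_upwards [hfin.compl_mem_cofinite] with t ht
    obtain ⟨u, hu⟩ := ls_exists_sub (Ls_mem_surf hF h3 (z := zt t) ht)
    exact ⟨u, by rw [hev]; exact hchow _ ht _ hu⟩
  · rw [hev]
    have h0 : zt 0 = z := by
      funext i
      simp [zt]
    rw [h0]
    exact hchow _ hz _ hs
  · rw [hev]
    have h0 : zt 1 = z' := by
      funext i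
      simp [zt]
    rw [h0]
    exact hchow _ hz' _ hs'

/-- the Chow form of the section by the line through `z` and `(0,0,0,1)` is
`F (λ₃ z₀, λ₃ z₁, λ₃ z₂, - (λ₀ z₀ + λ₁ z₁ + λ₂ z₂))`, up to a constant; let `z` move on the line
through `z` and `z'` -/
theorem Ls_sub_mem (hF : F.IsHomogeneous d) (h3 : coeff (Finsupp.single 3 d) F ≠ 0)
    {z z' : Fin 4 → ℂ} (h1 : z 0 = 1) (h1' : z' 0 = 1) :
    cycQ (Ls F z) - cycQ (Ls F z') ∈ ratQ F :=
  Ls_sub_mem_gen hF h3 (by rw [h1]; simp) (by rw [h1']; simp)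

/-- if `e = d` the line section is the fibre -/
theorem Ls_eq (hd : 1 ≤ d) (hF : F.IsHomogeneous d) (hs : IsSym d F)
    (h3 : coeff (Finsupp.single 3 d) F ≠ 0) {z : Fin 4 → ℂ} (hz : aeval z F = 0) (hz3 : z 3 ≠ 0)
    {ω : ℂ} (hω : IsPrimitiveRoot ω d) :
    Ls F z = (Multiset.range d).map fun i => mkP (scv (ω ^ i) z) := by
  have hco : ∀ n, n ≠ 0 → n ≠ d → (LP F z).coeff n = 0 := by
    intro n hn hnd
    rw [LP_coeff]
    refine Finset.sum_eq_zero fun m hm => ?_
    rw [if_neg]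
    intro hmn
    have hdm : m.degree = d := by
      by_contra hc
      exact (mem_support_iff.mp hm) (hF.coeff_eq_zero hc)
    rw [Finsupp.degree_eq_sum, Fin.sum_univ_four] at hdm
    have h4 := hs m (mem_support_iff.mp hm)
    have h5 := Nat.le_of_dvd (by omega) h4
    omega
  have hlin : LP F z = Polynomial.C (coeff (Finsupp.single 3 d) F) * Polynomial.X ^ d +
      Polynomial.C ((LP F z).coeff 0) := by
    ext n
    rw [Polynomial.coeff_add, Polynomial.coeff_C_mul, Polynomial.coeff_X_pow, Polynomial.coeff_C]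
    by_cases hn : n = 0
    · subst hn
      rw [if_neg (by omega), if_pos rfl]
      simp
    · by_cases hnd : n = d
      · rw [hnd, if_pos rfl, if_neg (by omega), LP_coeff_top hF]
        simp
      · rw [hco n hn hnd, if_neg hnd, if_neg hn]
        simp
  have h0 : (LP F z).eval (z 3) = 0 := by
    rw [LP_eval]
    have : (![z 0, z 1, z 2, z 3] : Fin 4 → ℂ) = z := by
      funext i
      fin_cases i <;> rfl
    rw [this]
    exact hz
  rw [hlin] at h0
  simp only [Polynomial.eval_add, Polynomial.eval_mul, Polynomial.eval_C, Polynomial.eval_pow,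
    Polynomial.eval_X] at h0
  have h1 : LP F z = Polynomial.C (coeff (Finsupp.single 3 d) F) *
      (Polynomial.X ^ d - Polynomial.C (z 3 ^ d)) := by
    rw [hlin, eq_neg_of_add_eq_zero_right h0]
    rw [mul_sub, Polynomial.C_neg, Polynomial.C_mul]
    ring
  have h2 : (LP F z).roots = (Multiset.range d).map fun i => ω ^ i * z 3 := by
    rw [h1, Polynomial.roots_C_mul _ h3]
    exact hω.nthRoots_eq rfl
  rw [Ls_def, h2, Multiset.map_map]
  rfl

end Pool.Agent.VGS.H
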