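import Pool.Agent.VGH.Line
import Pool.Agent.VGH.Ls

/-! Module AsmH: invariant cycles. -/

set_option autoImplicit false

open scoped LinearAlgebra.Projectivization
open MvPolynomial

namespace Pool.Agent.VGS.H

open Pool.Agent.LowDeg (surf IsSmoothForm)

variable {F : MvPolynomial (Fin 4) ℂ} {d e : ℕ} {z₀ : Fin 4 → ℂ}

private theorem ah_scv {k : Fl} {M : Matrix (Fin 4) (Fin 4) ℂ} (hM : FrameH k F d e z₀ M)
    (w : ℂ) : M.mulVec ![0, 0, 1, w] = scv w z₀ := by
  rw [hM.line, one_mul, one_mul, one_mul]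
  rfl

private theorem ah_ne (w : ℂ) : (![0, 0, 1, w] : Fin 4 → ℂ) ≠ 0 := by
  intro h
  have := congrFun h 2
  simp at this

private theorem ah_act {k : Fl} {M : Matrix (Fin 4) (Fin 4) ℂ} (hM : FrameH k F d e z₀ M)
    {σ : ℂ ≃+* ℂ} (hσ : σ ∈ Fix (frE k F M)) (w : ℂ) :
    act σ (mkP (M.mulVec ![0, 0, 1, w])) = mkP (M.mulVec ![0, 0, 1, σ w]) := by
  rw [as2_act hM.det hσ (ah_ne w)]
  congr 2
  funext i
  fin_cases i <;> simp

/-- (port of `VGS.asm1`) -/
theorem asmH (hd : 4 ≤ d) (he : e ∣ d) (hF : IsSmoothForm F d)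
    (h3 : coeff (Finsupp.single 3 d) F ≠ 0) (k : Fl) [Countable k]
    {M : Matrix (Fin 4) (Fin 4) ℂ} (hM : FrameH k F d e z₀ M) {ω : ℂ} (hω : IsPrimitiveRoot ω e)
    {y : Cy} (hy : ∀ q ∈ y.support, q ∈ surf F ∧ Over (clo (frE k F M)) q)
    (hst : ∀ σ ∈ Fix (frE k F M), actC σ y = y) :
    ∃ (m : ℕ → ℚ) (a : ℚ), y - ∑ i ∈ Finset.range e, m i • Finsupp.single (mkP (scv (ω ^ i) z₀)) 1
      - a • cycQ (Ls F z₀) ∈ ratQ F := by
  classical
  have he0 : e ≠ 0 := by
    rintro rfl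
    have := Nat.eq_zero_of_zero_dvd he
    omega
  have : NeZero e := ⟨he0⟩
  have hhom : F.IsHomogeneous d := hF.1
  -- the submodule
  let fib : Fin e → Cy := fun i => Finsupp.single (mkP (scv (ω ^ (i : ℕ)) z₀)) 1
  let W : Submodule ℚ Cy := ratQ F ⊔
    (Submodule.span ℚ (Set.range fib) ⊔ Submodule.span ℚ {cycQ (Ls F z₀)})
  have hN : ratQ F ≤ W := le_sup_left
  have hLW : cycQ (Ls F z₀) ∈ W :=
    (le_sup_right : _ ≤ W) ((le_sup_right : Submodule.span ℚ {cycQ (Ls F z₀)} ≤ _)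
      (Submodule.subset_span rfl))
  have hfib : ∀ w : ℂ, w ^ e = 1 →
      (Finsupp.single (mkP (M.mulVec ![0, 0, 1, w])) 1 : Cy) ∈ W := by
    intro w hw
    obtain ⟨i, hi, rfl⟩ := hω.eq_pow_of_pow_eq_one hw
    refine (le_sup_right : _ ≤ W) ((le_sup_left : Submodule.span ℚ (Set.range fib) ≤ _)
      (Submodule.subset_span ⟨⟨i, hi⟩, ?_⟩))
    show Finsupp.single (mkP (scv (ω ^ i) z₀)) 1 = _
    rw [ah_scv hM]
  -- the line section is invariant
  have hLs : ∀ σ ∈ Fix (frE k F M), (Ls F z₀).map (act σ) = Ls F z₀ := by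
    intro σ hσ
    rw [act_Ls (as2_coef k F) (Fix_mono hM.le hσ) hM.one]
    congr 1
    funext i
    exact hσ _ (hM.mem i)
  -- the points of the line
  have hline : ∀ z : Fin 4 → ℂ, z ≠ 0 → z 0 = 0 → z 1 = 0 → mkP (M.mulVec z) ∈ surf F →
      Over (clo (frE k F M)) (mkP (M.mulVec z)) → Orb (frE k F M) (mkP (M.mulVec z)) ∈ W := by
    intro z hz h0 h1 hzF hzE
    obtain ⟨w, hw, hq⟩ := line_coord hd he hF hM hz h0 h1 hzF
    rw [hq] at hzE ⊢
    by_cases hwe : w ^ e = 1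
    · unfold Orb
      rw [as2_sumSet (finite_orbit_pt (frE k F M) hzE)]
      refine W.sum_mem fun q' hq' => ?_
      rw [Set.Finite.mem_toFinset] at hq'
      obtain ⟨σ, hσ, rfl⟩ := hq'
      rw [ah_act hM hσ]
      exact hfib _ (by rw [← map_pow, hwe, map_one])
    · have hmem : mkP (M.mulVec ![0, 0, 1, w]) ∈ Ls F z₀ := by
        rw [mem_Ls hhom h3]
        refine ⟨w * z₀ 3, ?_, ?_⟩
        · rw [as2_aeval_frG, ah_scv hM] at hw
          exact hw
        · rw [ah_scv hM]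
          rfl
      set q := mkP (M.mulVec ![0, 0, 1, w]) with hqdef
      have hc : ((Ls F z₀).count q : ℚ) ≠ 0 := by
        have := Multiset.count_pos.2 hmem
        exact_mod_cast this.ne'
      set y' : Cy := cycQ (Ls F z₀) - ((Ls F z₀).count q : ℚ) • Orb (frE k F M) q with hy'
      have hy'W : y' ∈ W := by
        rw [← Finsupp.sum_single y']
        refine W.sum_mem fun q' hq' => ?_
        rw [← Finsupp.smul_single_one]
        refine W.smul_mem _ ?_
        have hne := Finsupp.mem_support_iff.1 hq'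
        rw [hy', Finsupp.sub_apply, Finsupp.smul_apply, smul_eq_mul, cycQ_apply,
          as2_Orb_apply hzE] at hne
        by_cases hO : ∃ σ ∈ Fix (frE k F M), act σ q = q'
        · exfalso
          apply hne
          rw [if_pos hO, mul_one]
          obtain ⟨σ, hσ, rfl⟩ := hO
          have h4 : (Ls F z₀).count (act σ q) = (Ls F z₀).count q := by
            conv_lhs => rw [← hLs σ hσ]
            exact Multiset.count_map_eq_count' _ _ (act_injective σ) _
          rw [h4, sub_self]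
        · rw [if_neg hO, mul_zero, sub_zero] at hne
          have hq'L : q' ∈ Ls F z₀ := by
            by_contra hcon
            exact hne (by rw [Multiset.count_eq_zero_of_notMem hcon, Nat.cast_zero])
          obtain ⟨w', hw', rfl⟩ := (mem_Ls hhom h3).1 hq'L
          have hz3 := hM.ne
          have h5 : (![z₀ 0, z₀ 1, z₀ 2, w'] : Fin 4 → ℂ) = M.mulVec ![0, 0, 1, w' / z₀ 3] := by
            rw [ah_scv hM]
            unfold scv
            rw [div_mul_cancel₀ _ hz3]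
          rw [h5] at hw' hO ⊢
          rw [← as2_aeval_frG] at hw'
          by_cases hwe' : (w' / z₀ 3) ^ e = 1
          · exact hfib _ hwe'
          · exfalso
            obtain ⟨σ, hσ, hσw⟩ := line_conjH hd he hF hM hw hw' hwe hwe'
            exact hO ⟨σ, hσ, by rw [hqdef, ah_act hM hσ, hσw]⟩
      have h6 : Orb (frE k F M) q = ((Ls F z₀).count q : ℚ)⁻¹ • (cycQ (Ls F z₀) - y') := by
        rw [hy', sub_sub_cancel, smul_smul, inv_mul_cancel₀ hc, one_smul]
      rw [h6]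
      exact W.smul_mem _ (W.sub_mem hLW hy'W)
  -- from one step to the next
  have hstep : ∀ (q : PP) (n : ℕ) (y' : Cy), 0 < n →
      (n : ℚ) • Orb (frE k F M) q + y' ∈ ratQ F → y' ∈ W →
      Orb (frE k F M) q ∈ W := by
    intro q n y' hn h1 h2
    have h3 : (n : ℚ) • Orb (frE k F M) q ∈ W := by
      have := W.sub_mem (hN h1) h2
      rwa [add_sub_cancel_right] at this
    have h4 := W.smul_mem ((n : ℚ)⁻¹) h3
    rwa [smul_smul, inv_mul_cancel₀ (by exact_mod_cast hn.ne'), one_smul] at h4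
  have hspan : ∀ y' : Cy, (∀ σ ∈ Fix (frE k F M), actC σ y' = y') →
      (∀ q ∈ y'.support, Over (clo (frE k F M)) q) →
      (∀ q ∈ y'.support, Orb (frE k F M) q ∈ W) → y' ∈ W := by
    intro y' h1 h2 h3
    refine (Submodule.span_le.2 ?_) (mem_span_orb _ y' h1 h2)
    rintro w ⟨q, hq, rfl⟩
    exact h3 q hq
  have hnorm : ∀ (z : Fin 4 → ℂ) (j : Fin 4), z j ≠ 0 →
      ((z j)⁻¹ • z) j = 1 ∧ mkP (M.mulVec ((z j)⁻¹ • z)) = mkP (M.mulVec z) := by
    intro z j hj
    have hz : z ≠ 0 := by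
      rintro rfl
      exact hj rfl
    refine ⟨?_, as2_mkP_smul hM.det hz (inv_ne_zero hj)⟩
    rw [Pi.smul_apply, smul_eq_mul, inv_mul_cancel₀ hj]
  -- the points of the plane
  have hplane : ∀ z : Fin 4 → ℂ, z ≠ 0 → z 0 = 0 → mkP (M.mulVec z) ∈ surf F →
      Over (clo (frE k F M)) (mkP (M.mulVec z)) → Orb (frE k F M) (mkP (M.mulVec z)) ∈ W := by
    intro z hz h0 hzF hzE
    by_cases h1 : z 1 = 0
    · exact hline z hz h0 h1 hzF hzE
    · obtain ⟨h2, h3⟩ := hnorm z 1 h1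
      rw [← h3] at hzF hzE ⊢
      obtain ⟨n, y', hn, hy1, hy2, hy3⟩ := stepH hd he hF k hM 1 (by simp) (z := (z 1)⁻¹ • z)
        (by
          intro i hi
          have : i = 0 := by
            apply Fin.ext
            have : (i : ℕ) < 1 := hi
            simpa using this
          subst this
          rw [Pi.smul_apply, h0, smul_zero]) h2 hzF hzE
      refine hstep _ n y' hn hy3 (hspan y' hy1 (fun q hq => (hy2 q hq).2.1) ?_)
      intro q hq
      obtain ⟨h6, h7, w, hw, hw0, rfl⟩ := hy2 q hq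
      exact hline w hw (hw0 0 (by decide)) (hw0 1 (by decide)) h6 h7
  -- all points
  have hgen : ∀ q ∈ y.support, Orb (frE k F M) q ∈ W := by
    intro q hq
    obtain ⟨hqG, hqE⟩ := hy q hq
    obtain ⟨z, hz, rfl⟩ := as2_exists hM.det q
    by_cases h0 : z 0 = 0
    · exact hplane z hz h0 hqG hqE
    · obtain ⟨h2, h3⟩ := hnorm z 0 h0
      rw [← h3] at hqG hqE ⊢
      obtain ⟨n, y', hn, hy1, hy2, hy3⟩ := stepH hd he hF k hM 0 (by simp) (z := (z 0)⁻¹ • z)
        (by
          intro i hi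
          exact absurd hi (Fin.not_lt_zero i)) h2 hqG hqE
      refine hstep _ n y' hn hy3 (hspan y' hy1 (fun q hq => (hy2 q hq).2.1) ?_)
      intro q hq
      obtain ⟨h6, h7, w, hw, hw0, rfl⟩ := hy2 q hq
      exact hplane w hw (hw0 0 le_rfl) h6 h7
  have hyW : y ∈ W := hspan y hst (fun q hq => (hy q hq).2) hgen
  obtain ⟨n, hn, v, hv, hnv⟩ := Submodule.mem_sup.1 hyW
  obtain ⟨v₁, hv₁, v₂, hv₂, hvv⟩ := Submodule.mem_sup.1 hv
  obtain ⟨c, hc⟩ := (Submodule.mem_span_range_iff_exists_fun ℚ).1 hv₁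
  obtain ⟨a, ha⟩ := Submodule.mem_span_singleton.1 hv₂
  refine ⟨fun i => if h : i < e then c ⟨i, h⟩ else 0, a, ?_⟩
  have h1 : (∑ i ∈ Finset.range e, (if h : i < e then c ⟨i, h⟩ else 0) •
      (Finsupp.single (mkP (scv (ω ^ i) z₀)) 1 : Cy)) = v₁ := by
    rw [Finset.sum_range, ← hc]
    refine Finset.sum_congr rfl fun i _ => ?_
    rw [dif_pos i.2]
  have h2 : y - v₁ - a • cycQ (Ls F z₀) = n := by
    rw [← hnv, ← hvv, ha]
    abel
  have h7 : y - ∑ i ∈ Finset.range e, (if h : i < e then c ⟨i, h⟩ else 0) •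
      (Finsupp.single (mkP (scv (ω ^ i) z₀)) 1 : Cy) - a • cycQ (Ls F z₀) = n := by
    rw [h1, h2]
  exact h7 ▸ hn

end Pool.Agent.VGS.H
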