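import Pool.Agent.VGS2.S1T

/-! Surfaces in `ℙ³` with a homology of order `e`: definitions. -/

set_option autoImplicit false

open scoped LinearAlgebra.Projectivization
open MvPolynomial

namespace Pool.Agent.VGS.H

open Pool.Agent.LowDeg (surf IsSmoothForm)

/-- The monomials of degree `d` in which the exponent of `X₃` is divisible by `e`. -/
abbrev MonE (d e : ℕ) : Type := {m : Fin 4 →₀ ℕ // m.degree = d ∧ e ∣ m 3}

/-- Only monomials in which the exponent of `X₃` is divisible by `e` occur in `F`. -/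
def IsSym (e : ℕ) (F : MvPolynomial (Fin 4) ℂ) : Prop := ∀ m, coeff m F ≠ 0 → e ∣ m 3

/-- The multiplication of the last coordinate by `c`. -/
def scv (c : ℂ) (z : Fin 4 → ℂ) : Fin 4 → ℂ := ![z 0, z 1, z 2, c * z 3]

/-- The points of the surface `F = 0` on the line through `z` and `(0,0,0,1)`, with
multiplicities. -/
noncomputable def Ls (F : MvPolynomial (Fin 4) ℂ) (z : Fin 4 → ℂ) : Multiset PP :=
  (aeval ![Polynomial.C (z 0), Polynomial.C (z 1), Polynomial.C (z 2), Polynomial.X] F :
    Polynomial ℂ).roots.map fun w => mkP ![z 0, z 1, z 2, w]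

/-- A frame at the point `z`, `z₀ = 1`: coordinates `Z`, `x = M Z`, with `z = M (0,0,1,1)`, which
respect the homology, otherwise general. -/
structure FrameH (k : Fl) (F : MvPolynomial (Fin 4) ℂ) (d e : ℕ) (z : Fin 4 → ℂ)
    (M : Matrix (Fin 4) (Fin 4) ℂ) : Prop where
  det : M.det ≠ 0
  one : z 0 = 1
  ne : z 3 ≠ 0
  zero : aeval z F = 0
  line : ∀ a b : ℂ, M.mulVec ![0, 0, a, b] = ![a * z 0, a * z 1, a * z 2, b * z 3]
  mem : ∀ i, z i ∈ frE k F M
  sym : IsSym e (frG F M)
  ind : AlgebraicIndependent (frk k M)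
    (fun m : {m : MonE d e // m.1 ≠ Finsupp.single 2 d} => coeff m.1.1 (frG F M))
  le : cof k F ≤ frE k F M

end Pool.Agent.VGS.H
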