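import Pool.Agent.VGH.Ls
import Pool.Agent.Hartshorne.Zero

/-! Module Dp: for `d = 4` the quotient by the involution is a del Pezzo surface. -/

set_option autoImplicit false

open scoped LinearAlgebra.Projectivization
open MvPolynomial

namespace Pool.Agent.VGS.H

open Pool.Agent.LowDeg (surf IsSmoothForm)
open Pool.Agent.Chow0 (IsLink IsChowForm chowForm linForm)

/-! ### the coefficients of the powers of `X₃` -/

/-- the coefficient of `X₃ ^ i`, a polynomial without `X₃` -/
private noncomputable def prt (F : MvPolynomial (Fin 4) ℂ) (i : ℕ) : MvPolynomial (Fin 4) ℂ :=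
  ∑ m ∈ F.support.filter (fun m => m 3 = i), monomial (m.erase 3) (coeff m F)

private theorem erase_degree (m : Fin 4 →₀ ℕ) : (m.erase 3).degree + m 3 = m.degree := by
  rw [Finsupp.degree_eq_sum, Finsupp.degree_eq_sum, Fin.sum_univ_four, Fin.sum_univ_four,
    Finsupp.erase_same, Finsupp.erase_ne (by decide), Finsupp.erase_ne (by decide),
    Finsupp.erase_ne (by decide)]
  ring

private theorem deg_of_mem {F : MvPolynomial (Fin 4) ℂ} (hF : F.IsHomogeneous 4) {m : Fin 4 →₀ ℕ}
    (hm : m ∈ F.support) : m.degree = 4 := by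
  by_contra h
  exact mem_support_iff.1 hm (hF.coeff_eq_zero h)

private theorem prt_hom {F : MvPolynomial (Fin 4) ℂ} (hF : F.IsHomogeneous 4) {i : ℕ}
    (n : ℕ) (hn : n + i = 4) : (prt F i).IsHomogeneous n := by
  refine IsHomogeneous.sum _ _ _ fun m hm => isHomogeneous_monomial _ ?_
  have h1 := (Finset.mem_filter.1 hm).2
  have h2 := deg_of_mem hF (Finset.mem_filter.1 hm).1
  have h3 := erase_degree m
  omega

private theorem aeval_prt {A : Type} [CommRing A] [Algebra ℂ A] (F : MvPolynomial (Fin 4) ℂ)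
    (i : ℕ) (v : Fin 4 → A) : aeval v (prt F i) =
      ∑ m ∈ F.support.filter (fun m => m 3 = i),
        algebraMap ℂ A (coeff m F) * (v 0 ^ m 0 * v 1 ^ m 1 * v 2 ^ m 2) := by
  unfold prt
  rw [map_sum]
  refine Finset.sum_congr rfl fun m _ => ?_
  rw [aeval_monomial, Finsupp.prod_fintype _ _ (fun _ => pow_zero _), Fin.prod_univ_four,
    Finsupp.erase_same, Finsupp.erase_ne (by decide), Finsupp.erase_ne (by decide),
    Finsupp.erase_ne (by decide), pow_zero, mul_one]

private theorem aeval_parts {A : Type} [CommRing A] [Algebra ℂ A] {F : MvPolynomial (Fin 4) ℂ}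
    (hF : F.IsHomogeneous 4) (v : Fin 4 → A) :
    aeval v F = ∑ i ∈ Finset.range 5, aeval v (prt F i) * v 3 ^ i := by
  have h1 : ∀ m ∈ F.support, m 3 ∈ Finset.range 5 := by
    intro m hm
    have h2 := deg_of_mem hF hm
    have h3 := erase_degree m
    rw [Finset.mem_range]
    omega
  rw [aeval_def, eval₂_eq', ← Finset.sum_fiberwise_of_maps_to h1]
  refine Finset.sum_congr rfl fun i _ => ?_
  rw [aeval_prt, Finset.sum_mul]
  refine Finset.sum_congr rfl fun m hm => ?_
  rw [Fin.prod_univ_four, (Finset.mem_filter.1 hm).2]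
  ring

private theorem prt_odd {F : MvPolynomial (Fin 4) ℂ} (hs : IsSym 2 F) {i : ℕ} (hi : ¬ 2 ∣ i) :
    prt F i = 0 := by
  unfold prt
  rw [Finset.filter_eq_empty_iff.2, Finset.sum_empty]
  intro m hm h
  exact hi (h ▸ hs m (mem_support_iff.1 hm))

private theorem prt_top {F : MvPolynomial (Fin 4) ℂ} (hF : F.IsHomogeneous 4)
    (h3 : coeff (Finsupp.single 3 4) F ≠ 0) :
    prt F 4 = C (coeff (Finsupp.single 3 4) F) := by
  classical
  have h1 : F.support.filter (fun m => m 3 = 4) = {Finsupp.single 3 4} := by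
    ext m
    rw [Finset.mem_filter, Finset.mem_singleton]
    constructor
    · rintro ⟨hm, h4⟩
      have h2 := deg_of_mem hF hm
      rw [Finsupp.degree_eq_sum, Fin.sum_univ_four, h4] at h2
      ext i
      fin_cases i
      · simp; omega
      · simp; omega
      · simp; omega
      · simpa using h4
    · rintro rfl
      exact ⟨mem_support_iff.2 h3, by simp⟩
  unfold prt
  rw [h1, Finset.sum_singleton]
  have h2 : (Finsupp.single 3 4 : Fin 4 →₀ ℕ).erase 3 = 0 := by simp
  rw [h2]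
  rfl

/-- `F = a X₃ ^ 4 + Q X₃ ^ 2 + R` -/
private theorem aeval_quart {A : Type} [CommRing A] [Algebra ℂ A] {F : MvPolynomial (Fin 4) ℂ}
    (hF : F.IsHomogeneous 4) (hs : IsSym 2 F) (h3 : coeff (Finsupp.single 3 4) F ≠ 0)
    (v : Fin 4 → A) :
    aeval v F = algebraMap ℂ A (coeff (Finsupp.single 3 4) F) * v 3 ^ 4 +
      aeval v (prt F 2) * v 3 ^ 2 + aeval v (prt F 0) := by
  rw [aeval_parts hF, Finset.sum_range_succ, Finset.sum_range_succ, Finset.sum_range_succ,
    Finset.sum_range_succ, Finset.sum_range_succ, Finset.sum_range_zero, prt_odd hs (i := 1)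
    (by decide), prt_odd hs (i := 3) (by decide), prt_top hF h3, aeval_C, map_zero]
  ring

private theorem aeval_prt_congr {A : Type} [CommRing A] [Algebra ℂ A]
    (F : MvPolynomial (Fin 4) ℂ) (i : ℕ) {v v' : Fin 4 → A} (h0 : v 0 = v' 0) (h1 : v 1 = v' 1)
    (h2 : v 2 = v' 2) : aeval v (prt F i) = aeval v' (prt F i) := by
  rw [aeval_prt, aeval_prt, h0, h1, h2]

/-! ### the discriminant -/

/-- the equation of the branch curve -/
private noncomputable def disc (F : MvPolynomial (Fin 4) ℂ) : MvPolynomial (Fin 4) ℂ :=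
  prt F 2 ^ 2 - C (4 * coeff (Finsupp.single 3 4) F) * prt F 0

private theorem disc_hom {F : MvPolynomial (Fin 4) ℂ} (hF : F.IsHomogeneous 4) :
    (disc F).IsHomogeneous 4 := by
  have h1 := (prt_hom hF (i := 2) 2 rfl).pow 2
  have h2 := (prt_hom hF (i := 0) 4 rfl).C_mul (4 * coeff (Finsupp.single 3 4) F)
  exact h1.sub h2

private theorem aeval_disc {A : Type} [CommRing A] [Algebra ℂ A] (F : MvPolynomial (Fin 4) ℂ)
    (v : Fin 4 → A) : aeval v (disc F) = aeval v (prt F 2) ^ 2 -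
      algebraMap ℂ A (4 * coeff (Finsupp.single 3 4) F) * aeval v (prt F 0) := by
  unfold disc
  rw [map_sub, map_pow, map_mul, aeval_C]

private theorem aeval_disc_congr {A : Type} [CommRing A] [Algebra ℂ A]
    (F : MvPolynomial (Fin 4) ℂ) {v v' : Fin 4 → A} (h0 : v 0 = v' 0) (h1 : v 1 = v' 1)
    (h2 : v 2 = v' 2) : aeval v (disc F) = aeval v' (disc F) := by
  rw [aeval_disc, aeval_disc, aeval_prt_congr F 2 h0 h1 h2, aeval_prt_congr F 0 h0 h1 h2]

/-! ### the section by a tangent line -/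

private theorem roots_dbl {F : MvPolynomial (Fin 4) ℂ} (hF : F.IsHomogeneous 4) (hs : IsSym 2 F)
    (h3 : coeff (Finsupp.single 3 4) F ≠ 0) {z : Fin 4 → ℂ} (hz : aeval z F = 0)
    (hh : 2 * coeff (Finsupp.single 3 4) F * z 3 ^ 2 + aeval z (prt F 2) = 0) :
    cycQ (Ls F z) = (2 : ℚ) • (Finsupp.single (mkP (scv 1 z)) 1 +
      Finsupp.single (mkP (scv (-1) z)) 1) := by
  have hz' := aeval_quart hF hs h3 z
  rw [hz, Algebra.algebraMap_self_apply] at hz'
  have hp : (aeval ![Polynomial.C (z 0), Polynomial.C (z 1), Polynomial.C (z 2), Polynomial.X] F :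
      Polynomial ℂ) = Polynomial.C (coeff (Finsupp.single 3 4) F) *
        ((Polynomial.X - Polynomial.C (z 3)) ^ 2 * (Polynomial.X + Polynomial.C (z 3)) ^ 2) := by
    have hQ : ∀ i, (aeval ![Polynomial.C (z 0), Polynomial.C (z 1), Polynomial.C (z 2),
        Polynomial.X] (prt F i) : Polynomial ℂ) = Polynomial.C (aeval z (prt F i)) := by
      intro i
      rw [aeval_prt, aeval_prt, map_sum]
      refine Finset.sum_congr rfl fun m _ => ?_
      simp [Polynomial.algebraMap_eq]
    rw [aeval_quart hF hs h3, hQ, hQ]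
    have h1 : aeval z (prt F 2) = - (2 * coeff (Finsupp.single 3 4) F * z 3 ^ 2) :=
      eq_neg_of_add_eq_zero_right hh
    have h2 : aeval z (prt F 0) = coeff (Finsupp.single 3 4) F * z 3 ^ 4 := by
      rw [h1] at hz'
      linear_combination -hz'
    rw [h1, h2]
    simp only [Polynomial.algebraMap_eq, map_neg, map_mul, map_pow, map_ofNat,
      Matrix.cons_val_three, Matrix.tail_cons, Matrix.head_cons]
    ring
  have h0 : (Polynomial.X - Polynomial.C (z 3)) ^ 2 * (Polynomial.X + Polynomial.C (z 3)) ^ 2 ≠ 0 :=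
    mul_ne_zero (pow_ne_zero _ (Polynomial.X_sub_C_ne_zero _))
      (pow_ne_zero _ (Polynomial.X_add_C_ne_zero _))
  unfold Ls
  rw [hp, Polynomial.roots_C_mul _ h3, Polynomial.roots_mul h0, Polynomial.roots_pow,
    Polynomial.roots_pow, Polynomial.roots_X_sub_C, Polynomial.roots_X_add_C]
  have e1 : (![z 0, z 1, z 2, z 3] : Fin 4 → ℂ) = scv 1 z := by
    unfold scv
    rw [one_mul]
  have e2 : (![z 0, z 1, z 2, -z 3] : Fin 4 → ℂ) = scv (-1) z := by
    unfold scv
    rw [neg_one_mul]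
  rw [Multiset.map_add, cycQ_add, two_nsmul, two_nsmul, Multiset.map_add, Multiset.map_add,
    cycQ_add, cycQ_add, Multiset.map_singleton, Multiset.map_singleton, e1, e2]
  simp only [cycQ, Multiset.map_singleton, Multiset.sum_singleton]
  rw [two_smul]
  abel

/-! ### families of pairs -/

/-- the pair of the points `(z₀, z₁, z₂, ± z₃)` -/
private noncomputable def pr (z : Fin 4 → ℂ) : Cy :=
  Finsupp.single (mkP (scv 1 z)) 1 + Finsupp.single (mkP (scv (-1) z)) 1

private theorem pr_eq (z : Fin 4 → ℂ) : pr z = cycQ {mkP (scv 1 z), mkP (scv (-1) z)} := by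
  unfold pr
  rw [Multiset.insert_eq_cons, cycQ_cons]
  simp [cycQ]

private theorem scv_ne {c : ℂ} (hc : c ≠ 0) {z : Fin 4 → ℂ} (hz : z ≠ 0) : scv c z ≠ 0 := by
  intro h
  apply hz
  have h0 := congrFun h 0
  have h1 := congrFun h 1
  have h2 := congrFun h 2
  have h3 := congrFun h 3
  simp [scv] at h0 h1 h2 h3
  funext i
  fin_cases i
  · exact h0
  · exact h1
  · exact h2
  · exact h3.resolve_left hc

private theorem mkP_smul' {c : ℂ} (hc : c ≠ 0) {z : Fin 4 → ℂ} (hz : z ≠ 0) :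
    mkP (c • z) = mkP z := by
  rw [mkP_eq hz, mkP_eq (smul_ne_zero hc hz)]
  exact (Projectivization.mk_eq_mk_iff' ℂ _ _ _ _).2 ⟨c, rfl⟩

private theorem scv_smul (c b : ℂ) (z : Fin 4 → ℂ) : scv c (b • z) = b • scv c z := by
  funext i
  fin_cases i
  · rfl
  · rfl
  · rfl
  · change c * (b * z 3) = b * (c * z 3)
    ring

private theorem pr_smul {c : ℂ} (hc : c ≠ 0) {z : Fin 4 → ℂ} (hz : z ≠ 0) : pr (c • z) = pr z := by
  unfold pr
  rw [scv_smul, scv_smul, mkP_smul' hc (scv_ne one_ne_zero hz),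
    mkP_smul' hc (scv_ne (neg_ne_zero.2 one_ne_zero) hz)]

private theorem linForm_scv (c : ℂ) (z : Fin 4 → ℂ) : linForm (scv c z) =
    C (z 0) * X 0 + C (z 1) * X 1 + C (z 2) * X 2 + C (c * z 3) * X 3 := by
  unfold linForm
  rw [Fin.sum_univ_four]
  rfl

/-- the Chow form of a pair -/
private theorem chow_pr {F : MvPolynomial (Fin 4) ℂ} {z : Fin 4 → ℂ} (hz : z ≠ 0)
    (h1 : mkP (scv 1 z) ∈ surf F) (h2 : mkP (scv (-1) z) ∈ surf F) :
    IsChowForm (surf F) ((C (z 0) * X 0 + C (z 1) * X 1 + C (z 2) * X 2) ^ 2 -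
      C (z 3 ^ 2) * X 3 ^ 2) {⟨_, h1⟩, ⟨_, h2⟩} := by
  obtain ⟨c, hc, hc'⟩ := linForm_mk (scv_ne one_ne_zero hz)
  obtain ⟨b, hb, hb'⟩ := linForm_mk (scv_ne (neg_ne_zero.2 one_ne_zero) hz)
  refine ⟨c * b, mul_ne_zero hc hb, ?_⟩
  rw [chowForm, Multiset.map_map, Multiset.insert_eq_cons, Multiset.map_cons, Multiset.prod_cons,
    Multiset.map_singleton, Multiset.prod_singleton]
  change _ = C _ * (linForm (mkP (scv 1 z)).rep * linForm (mkP (scv (-1) z)).rep)
  rw [mkP_eq (scv_ne one_ne_zero hz), mkP_eq (scv_ne (neg_ne_zero.2 one_ne_zero) hz), C_mul,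
    mul_mul_mul_comm, ← hc', ← hb', linForm_scv, linForm_scv]
  simp only [one_mul, neg_mul, C_neg, C_pow]
  ring

private theorem mem_surf_scv {F : MvPolynomial (Fin 4) ℂ} (hF : F.IsHomogeneous 4)
    {z : Fin 4 → ℂ} (hz : z ≠ 0) {c : ℂ} (hc : c ≠ 0) (h : aeval (scv c z) F = 0) :
    mkP (scv c z) ∈ surf F := by
  rw [mkP_eq (scv_ne hc hz)]
  exact (mem_surf_mk hF _).2 h

/-- a family of pairs over the line -/
private theorem pair_link {F : MvPolynomial (Fin 4) ℂ} (hF : F.IsHomogeneous 4)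
    (x : Fin 4 → Polynomial ℂ) (V : Polynomial ℂ)
    (hV : ∀ t w : ℂ, w ^ 2 = V.eval t →
      aeval ![(x 0).eval t, (x 1).eval t, (x 2).eval t, w] F = 0)
    {y₀ y₁ : Fin 4 → ℂ} (h₀ : y₀ ≠ 0) (h₁ : y₁ ≠ 0)
    (hx₀ : ∀ i : Fin 4, i ≠ 3 → (x i).eval 0 = y₀ i) (hx₁ : ∀ i : Fin 4, i ≠ 3 → (x i).eval 1 = y₁ i)
    (hV₀ : V.eval 0 = y₀ 3 ^ 2) (hV₁ : V.eval 1 = y₁ 3 ^ 2) :
    pr y₀ - pr y₁ ∈ ratQ F := by
  -- the members of the family
  have key : ∀ (t : ℂ) (y : Fin 4 → ℂ), y ≠ 0 → (∀ i : Fin 4, i ≠ 3 → (x i).eval t = y i) →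
      V.eval t = y 3 ^ 2 → mkP (scv 1 y) ∈ surf F ∧ mkP (scv (-1) y) ∈ surf F := by
    intro t y hy hx hVt
    have h1 : ∀ c : ℂ, c ^ 2 = 1 → aeval (scv c y) F = 0 := by
      intro c hc
      have h2 := hV t (c * y 3) (by rw [hVt, mul_pow, hc, one_mul])
      rw [hx 0 (by decide), hx 1 (by decide), hx 2 (by decide)] at h2
      exact h2
    exact ⟨mem_surf_scv hF hy one_ne_zero (h1 1 (by norm_num)),
      mem_surf_scv hF hy (neg_ne_zero.2 one_ne_zero) (h1 (-1) (by norm_num))⟩
  let Φ : Polynomial (MvPolynomial (Fin 4) ℂ) :=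
    ((x 0).map C * Polynomial.C (X 0) + (x 1).map C * Polynomial.C (X 1) +
      (x 2).map C * Polynomial.C (X 2)) ^ 2 - V.map C * Polynomial.C (X 3 ^ 2)
  have hΦ : ∀ t : ℂ, Φ.eval (C t) = (C ((x 0).eval t) * X 0 + C ((x 1).eval t) * X 1 +
      C ((x 2).eval t) * X 2) ^ 2 - C (V.eval t) * X 3 ^ 2 := by
    intro t
    have h : ∀ p : Polynomial ℂ, (p.map (C : ℂ →+* MvPolynomial (Fin 4) ℂ)).eval (C t) =
        C (p.eval t) := fun p => by rw [Polynomial.eval_map, Polynomial.eval₂_hom]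
    simp only [Φ, Polynomial.eval_sub, Polynomial.eval_pow, Polynomial.eval_add,
      Polynomial.eval_mul, Polynomial.eval_C, h]
  have hch : ∀ (t : ℂ) (y : Fin 4 → ℂ) (hy : y ≠ 0)
      (hx : ∀ i : Fin 4, i ≠ 3 → (x i).eval t = y i) (hVt : V.eval t = y 3 ^ 2),
      IsChowForm (surf F) (Φ.eval (C t)) {⟨_, (key t y hy hx hVt).1⟩, ⟨_, (key t y hy hx hVt).2⟩} := by
    intro t y hy hx hVt
    have h1 := chow_pr hy (key t y hy hx hVt).1 (key t y hy hx hVt).2
    rwa [← hx 0 (by decide), ← hx 1 (by decide), ← hx 2 (by decide), ← hVt, ← hΦ t] at h1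
  refine Submodule.subset_span ⟨_, _, ⟨Φ, ?_, hch 0 y₀ h₀ hx₀ hV₀, hch 1 y₁ h₁ hx₁ hV₁⟩, ?_⟩
  · -- almost all members
    have hex : ∃ p : Polynomial ℂ, p ≠ 0 ∧ ∀ t, p.eval t ≠ 0 → ∀ w : ℂ, w ^ 2 = V.eval t →
        (![(x 0).eval t, (x 1).eval t, (x 2).eval t, w] : Fin 4 → ℂ) ≠ 0 := by
      obtain ⟨i, hi⟩ := Function.ne_iff.1 h₀
      rcases eq_or_ne i 3 with rfl | hi3
      · refine ⟨V, ?_, fun t ht w hw h => ht ?_⟩
        · rintro rfl
          rw [Polynomial.eval_zero] at hV₀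
          exact hi (pow_eq_zero_iff (two_ne_zero)|>.1 hV₀.symm)
        · have h3 := congrFun h 3
          change w = 0 at h3
          rw [← hw, h3]
          ring
      · refine ⟨x i, ?_, fun t ht w hw h => ht ?_⟩
        · intro h
          have h2 := hx₀ i hi3
          rw [h, Polynomial.eval_zero] at h2
          exact hi h2.symm
        · have h3 := congrFun h i
          fin_cases i
          · exact h3
          · exact h3
          · exact h3
          · exact absurd rfl hi3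
    obtain ⟨p, hp, hpt⟩ := hex
    have hfin : {t : ℂ | p.eval t = 0}.Finite := by
      refine (p.roots.toFinset.finite_toSet).subset fun t ht => ?_
      exact Finset.mem_coe.2 (Multiset.mem_toFinset.2 ((Polynomial.mem_roots hp).2 ht))
    filter_upwards [hfin.compl_mem_cofinite] with t ht
    obtain ⟨w, hw⟩ := IsAlgClosed.exists_pow_nat_eq (V.eval t) (n := 2) two_pos
    exact ⟨_, hch t _ (hpt t ht w hw) (fun i hi => by
      fin_cases i
      · rfl
      · rfl
      · rfl
      · exact absurd rfl hi) hw.symm⟩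
  · rw [pr_eq, pr_eq]
    rfl

/-! ### the branch curve on a line -/

/-- the restriction of a form to a line -/
private theorem restrict {G : MvPolynomial (Fin 4) ℂ} (hG : G.IsHomogeneous 4) (x s : Fin 4 → ℂ) :
    ∃ p : Fin 5 → ℂ, (∀ α β : ℂ, aeval (fun i => α * x i + β * s i) G =
      p 0 * β ^ 4 + p 1 * α * β ^ 3 + p 2 * α ^ 2 * β ^ 2 + p 3 * α ^ 3 * β + p 4 * α ^ 4) ∧
      p 1 = (aeval (fun i => Polynomial.C (x i) * Polynomial.X + Polynomial.C (s i)) G :
        Polynomial ℂ).coeff 1 := by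
  obtain ⟨P, hP⟩ : ∃ P : Polynomial ℂ, P = aeval (fun i => Polynomial.C (x i) * Polynomial.X +
      Polynomial.C (s i)) G := ⟨_, rfl⟩
  have hdeg : P.natDegree < 5 := by
    have h1 := aeval_natDegree_le (m := 4) (n := 1) G hG.totalDegree_le
      (fun i => Polynomial.C (x i) * Polynomial.X + Polynomial.C (s i)) (fun i => by
        compute_degree)
    rw [← hP] at h1
    omega
  have hPe : ∀ α : ℂ, aeval (fun i => α * x i + s i) G = P.eval α := by
    intro α
    rw [hP, ← Polynomial.coe_aeval_eq_eval]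
    rw [← AlgHom.comp_apply, comp_aeval]
    congr 2
    funext i
    simp
    ring
  have hPs : ∀ α : ℂ, P.eval α = P.coeff 0 + P.coeff 1 * α + P.coeff 2 * α ^ 2 +
      P.coeff 3 * α ^ 3 + P.coeff 4 * α ^ 4 := by
    intro α
    rw [Polynomial.eval_eq_sum_range' hdeg]
    simp [Finset.sum_range_succ]
  refine ⟨fun i => P.coeff i, fun α β => ?_, by rw [hP]; rfl⟩
  -- for `β ≠ 0`
  have h1 : ∀ β : ℂ, β ≠ 0 → aeval (fun i => α * x i + β * s i) G =
      P.coeff 0 * β ^ 4 + P.coeff 1 * α * β ^ 3 + P.coeff 2 * α ^ 2 * β ^ 2 +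
        P.coeff 3 * α ^ 3 * β + P.coeff 4 * α ^ 4 := by
    intro β hβ
    have h2 : ∀ i, α * x i + β * s i = β * (α / β * x i + s i) := by
      intro i
      field_simp
    rw [aeval_scale hG h2, hPe, hPs]
    field_simp
  -- both sides are polynomials in `β`
  have h3 : (aeval (fun i => Polynomial.C (s i) * Polynomial.X + Polynomial.C (α * x i)) G :
      Polynomial ℂ) = Polynomial.C (P.coeff 0) * Polynomial.X ^ 4 +
        Polynomial.C (P.coeff 1 * α) * Polynomial.X ^ 3 +
        Polynomial.C (P.coeff 2 * α ^ 2) * Polynomial.X ^ 2 +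
        Polynomial.C (P.coeff 3 * α ^ 3) * Polynomial.X + Polynomial.C (P.coeff 4 * α ^ 4) := by
    refine Polynomial.eq_of_infinite_eval_eq _ _ ((Set.infinite_univ.sdiff
      (Set.finite_singleton (0 : ℂ))).mono fun β hβ => ?_)
    have h4 := h1 β hβ.2
    rw [Set.mem_ofPred_eq, ← Polynomial.coe_aeval_eq_eval, ← AlgHom.comp_apply, comp_aeval]
    simp only [map_add, map_mul, Polynomial.aeval_C, Polynomial.aeval_X, map_pow,
      Algebra.algebraMap_self_apply]
    rw [← h4]
    congr 2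
    funext i
    ring
  have h5 := congrArg (Polynomial.eval β) h3
  rw [← Polynomial.coe_aeval_eq_eval, ← AlgHom.comp_apply, comp_aeval] at h5
  simp only [map_add, map_mul, Polynomial.aeval_C, Polynomial.aeval_X, map_pow,
    Algebra.algebraMap_self_apply] at h5
  refine Eq.trans ?_ h5
  congr 2
  funext i
  ring

/-- a tangent line of the curve `G = 0` through the point `x` -/
private theorem tangent {G : MvPolynomial (Fin 4) ℂ} (hG : G.IsHomogeneous 4) (x : Fin 4 → ℂ) :
    ∃ s : Fin 4 → ℂ, s ≠ 0 ∧ s 3 = 0 ∧ aeval s G = 0 ∧ ∃ q₀ q₁ q₂ : ℂ, ∀ α β : ℂ,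
      aeval (fun i => α * x i + β * s i) G =
        α ^ 2 * (q₀ * α ^ 2 + q₁ * α * β + q₂ * β ^ 2) := by
  -- the polar
  obtain ⟨T, hT⟩ : ∃ T : MvPolynomial (Fin 4) ℂ, T = (aeval (fun i => Polynomial.C (C (x i)) *
      Polynomial.X + Polynomial.C (X i)) G : Polynomial (MvPolynomial (Fin 4) ℂ)).coeff 1 :=
    ⟨_, rfl⟩
  have hTs : ∀ s : Fin 4 → ℂ, aeval s T = (aeval (fun i => Polynomial.C (x i) * Polynomial.X +
      Polynomial.C (s i)) G : Polynomial ℂ).coeff 1 := by
    intro s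
    have h1 : (Polynomial.mapAlgHom (aeval s : MvPolynomial (Fin 4) ℂ →ₐ[ℂ] ℂ))
        (aeval (fun i => Polynomial.C (C (x i)) * Polynomial.X + Polynomial.C (X i)) G) =
        (aeval (fun i => Polynomial.C (x i) * Polynomial.X + Polynomial.C (s i)) G :
          Polynomial ℂ) := by
      rw [← AlgHom.comp_apply, comp_aeval]
      congr 2
      funext i
      simp
    rw [← h1, hT]
    simp
  have h0 : ∀ k : Fin 3, eval 0 ((![G, T, X 3] : Fin 3 → MvPolynomial (Fin 4) ℂ) k) = 0 := by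
    intro k
    fin_cases k
    · change eval 0 G = 0
      have h1 := aeval_scale hG (z := (0 : Fin 4 → ℂ)) (w := 0) (a := 0) (fun i => by simp)
      rw [← coe_aeval_eq_eval, RingHom.coe_coe, h1]
      simp
    · change eval 0 T = 0
      have h1 := hTs 0
      rw [← coe_aeval_eq_eval, RingHom.coe_coe, h1]
      obtain ⟨p, hp, hp1⟩ := restrict hG x 0
      rw [← hp1]
      have h2 := hp 1 1
      have h3 := hp 1 (-1)
      have h4 := hp 1 2
      have h5 := hp 1 (-2)
      have h6 := hp 1 0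
      simp only [Pi.zero_apply, mul_zero] at h2 h3 h4 h5 h6
      rw [h6] at h2 h3 h4 h5
      linear_combination (1/6 : ℂ) * h2 - (1/6 : ℂ) * h3 - (1/12 : ℂ) * h4 + (1/12 : ℂ) * h5
    · simp
  obtain ⟨s, hs, hs0⟩ := Pool.Agent.Hartshorne.exists_common_zero
    (![G, T, X 3] : Fin 3 → MvPolynomial (Fin 4) ℂ) h0 (by simp)
  have hs1 : aeval s G = 0 := by
    have := hs0 0
    rwa [← coe_aeval_eq_eval] at this
  have hs2 : aeval s T = 0 := by
    have := hs0 1
    rwa [← coe_aeval_eq_eval] at this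
  have hs3 : s 3 = 0 := by
    have := hs0 2
    simpa using this
  obtain ⟨p, hp, hp1⟩ := restrict hG x s
  rw [← hTs s, hs2] at hp1
  have hp0 : p 0 = 0 := by
    have h1 := hp 0 1
    simp only [zero_mul, zero_add, one_mul] at h1
    rw [show (fun i => s i) = s from rfl, hs1] at h1
    linear_combination -h1
  refine ⟨s, hs, hs3, hs1, p 4, p 3, p 2, fun α β => ?_⟩
  rw [hp, hp0, hp1]
  ring

/-! ### the families -/

/-- a point of the family is on the surface -/
private theorem on_surf {F : MvPolynomial (Fin 4) ℂ} (hF : F.IsHomogeneous 4) (hs : IsSym 2 F)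
    (h3 : coeff (Finsupp.single 3 4) F ≠ 0) {v : Fin 4 → ℂ} {g : ℂ}
    (hg : g ^ 2 = aeval v (disc F))
    (h : 2 * coeff (Finsupp.single 3 4) F * v 3 ^ 2 + aeval v (prt F 2) = g) : aeval v F = 0 := by
  rw [aeval_quart hF hs h3, Algebra.algebraMap_self_apply]
  rw [aeval_disc, Algebra.algebraMap_self_apply, ← h] at hg
  have h4 : (4 * coeff (Finsupp.single 3 4) F) * (coeff (Finsupp.single 3 4) F * v 3 ^ 4 +
      aeval v (prt F 2) * v 3 ^ 2 + aeval v (prt F 0)) = 0 := by
    linear_combination hg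
  exact (mul_eq_zero.1 h4).resolve_left (mul_ne_zero (by norm_num) h3)

/-- a family of pairs over the line through `x` and `s`, given by `α x + β s` and the square root
`g` of the discriminant -/
private theorem fam_link {F : MvPolynomial (Fin 4) ℂ} (hF : F.IsHomogeneous 4) (hs : IsSym 2 F)
    (h3 : coeff (Finsupp.single 3 4) F ≠ 0) (x s : Fin 4 → ℂ) (α β g : Polynomial ℂ)
    (hg : ∀ t : ℂ, g.eval t ^ 2 = aeval (fun i => α.eval t * x i + β.eval t * s i) (disc F))
    {y₀ y₁ : Fin 4 → ℂ} (h₀ : y₀ ≠ 0) (h₁ : y₁ ≠ 0)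
    (hx₀ : ∀ i : Fin 4, i ≠ 3 → α.eval 0 * x i + β.eval 0 * s i = y₀ i)
    (hx₁ : ∀ i : Fin 4, i ≠ 3 → α.eval 1 * x i + β.eval 1 * s i = y₁ i)
    (hV₀ : 2 * coeff (Finsupp.single 3 4) F * y₀ 3 ^ 2 + aeval y₀ (prt F 2) = g.eval 0)
    (hV₁ : 2 * coeff (Finsupp.single 3 4) F * y₁ 3 ^ 2 + aeval y₁ (prt F 2) = g.eval 1) :
    pr y₀ - pr y₁ ∈ ratQ F := by
  have h2a : 2 * coeff (Finsupp.single 3 4) F ≠ 0 := mul_ne_zero two_ne_zero h3
  have hV : ∀ t : ℂ, (Polynomial.C (2 * coeff (Finsupp.single 3 4) F)⁻¹ * (g -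
      aeval (fun i => α * Polynomial.C (x i) + β * Polynomial.C (s i)) (prt F 2))).eval t =
      (2 * coeff (Finsupp.single 3 4) F)⁻¹ * (g.eval t -
        aeval (fun i => α.eval t * x i + β.eval t * s i) (prt F 2)) := by
    intro t
    rw [Polynomial.eval_mul, Polynomial.eval_C, Polynomial.eval_sub]
    congr 2
    rw [← Polynomial.coe_aeval_eq_eval, ← AlgHom.comp_apply, comp_aeval]
    congr 2
    funext i
    simp
  refine pair_link hF (fun i => α * Polynomial.C (x i) + β * Polynomial.C (s i))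
    (Polynomial.C (2 * coeff (Finsupp.single 3 4) F)⁻¹ * (g -
      aeval (fun i => α * Polynomial.C (x i) + β * Polynomial.C (s i)) (prt F 2))) ?_ h₀ h₁ ?_ ?_
      ?_ ?_
  · intro t w hw
    rw [hV] at hw
    have hc : ∀ G : MvPolynomial (Fin 4) ℂ, G = disc F ∨ G = prt F 2 →
        aeval ![(α * Polynomial.C (x 0) + β * Polynomial.C (s 0)).eval t,
        (α * Polynomial.C (x 1) + β * Polynomial.C (s 1)).eval t,
        (α * Polynomial.C (x 2) + β * Polynomial.C (s 2)).eval t, w] G =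
        aeval (fun i => α.eval t * x i + β.eval t * s i) G := by
      rintro G (rfl | rfl)
      · exact aeval_disc_congr F (by simp) (by simp) (by simp)
      · exact aeval_prt_congr F 2 (by simp) (by simp) (by simp)
    refine on_surf hF hs h3 (g := g.eval t) ?_ ?_
    · rw [hg t, hc _ (Or.inl rfl)]
    · rw [hc _ (Or.inr rfl)]
      change 2 * coeff (Finsupp.single 3 4) F * w ^ 2 + _ = _
      rw [hw, mul_inv_cancel_left₀ h2a]
      ring
  · intro i hi
    rw [← hx₀ i hi]
    simp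
  · intro i hi
    rw [← hx₁ i hi]
    simp
  · rw [hV, aeval_prt_congr F 2 (hx₀ 0 (by decide)) (hx₀ 1 (by decide)) (hx₀ 2 (by decide)), ← hV₀,
      add_sub_cancel_right, inv_mul_cancel_left₀ h2a]
  · rw [hV, aeval_prt_congr F 2 (hx₁ 0 (by decide)) (hx₁ 1 (by decide)) (hx₁ 2 (by decide)), ← hV₁,
      add_sub_cancel_right, inv_mul_cancel_left₀ h2a]

/-! ### line sections -/

/-- `F` on the line through `z` and `(0,0,0,1)` -/
private noncomputable def fz (F : MvPolynomial (Fin 4) ℂ) (z : Fin 4 → ℂ) : Polynomial ℂ :=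
  aeval ![Polynomial.C (z 0), Polynomial.C (z 1), Polynomial.C (z 2), Polynomial.X] F

private theorem eval_fz (F : MvPolynomial (Fin 4) ℂ) (z : Fin 4 → ℂ) (w : ℂ) :
    (fz F z).eval w = aeval ![z 0, z 1, z 2, w] F := by
  unfold fz
  rw [← Polynomial.coe_aeval_eq_eval, ← AlgHom.comp_apply, comp_aeval]
  congr 2
  funext i
  fin_cases i <;> simp

private theorem fz_natDegree {F : MvPolynomial (Fin 4) ℂ} {d : ℕ} (hF : F.IsHomogeneous d)
    (z : Fin 4 → ℂ) : (fz F z).natDegree ≤ d := by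
  have h1 := aeval_natDegree_le (m := d) (n := 1) F hF.totalDegree_le
    ![Polynomial.C (z 0), Polynomial.C (z 1), Polynomial.C (z 2), Polynomial.X] (fun i => by
      fin_cases i <;> simp)
  rwa [mul_one] at h1

private theorem fz_coeff {F : MvPolynomial (Fin 4) ℂ} {d : ℕ} (hF : F.IsHomogeneous d)
    (z : Fin 4 → ℂ) : (fz F z).coeff d = coeff (Finsupp.single 3 d) F := by
  classical
  unfold fz
  rw [aeval_def, eval₂_eq', Polynomial.finsetSum_coeff]
  have h1 : ∀ m ∈ F.support, ((algebraMap ℂ (Polynomial ℂ)) (coeff m F) *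
      ∏ i, (![Polynomial.C (z 0), Polynomial.C (z 1), Polynomial.C (z 2), Polynomial.X] :
        Fin 4 → Polynomial ℂ) i ^ m i).coeff d =
      if m = Finsupp.single 3 d then coeff m F else 0 := by
    intro m hm
    have hdeg : m.degree = d := by
      by_contra h
      exact mem_support_iff.1 hm (hF.coeff_eq_zero h)
    rw [Finsupp.degree_eq_sum, Fin.sum_univ_four] at hdeg
    have h2 : ((algebraMap ℂ (Polynomial ℂ)) (coeff m F) *
      ∏ i, (![Polynomial.C (z 0), Polynomial.C (z 1), Polynomial.C (z 2), Polynomial.X] :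
        Fin 4 → Polynomial ℂ) i ^ m i) = Polynomial.C (coeff m F * (z 0 ^ m 0 * z 1 ^ m 1 *
          z 2 ^ m 2)) * Polynomial.X ^ m 3 := by
      rw [Fin.prod_univ_four]
      simp [Polynomial.algebraMap_eq]
      ring
    rw [h2, Polynomial.coeff_C_mul, Polynomial.coeff_X_pow]
    by_cases h3 : m 3 = d
    · have h4 : m = Finsupp.single 3 d := by
        ext i
        fin_cases i
        · simp; omega
        · simp; omega
        · simp; omega
        · simpa using h3
      have h0 : m 0 = 0 := by omega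
      have h01 : m 1 = 0 := by omega
      have h02 : m 2 = 0 := by omega
      rw [if_pos h3.symm, if_pos h4, h0, h01, h02]
      ring
    · rw [if_neg (Ne.symm h3), if_neg, mul_zero]
      rintro rfl
      exact h3 (by simp)
  rw [Finset.sum_congr rfl h1, Finset.sum_ite_eq']
  split_ifs with h
  · rfl
  · exact (notMem_support_iff.1 h).symm

/-- the Chow form of a line section -/
private theorem chow_ls {F : MvPolynomial (Fin 4) ℂ} {d : ℕ} (hF : F.IsHomogeneous d)
    (h3 : coeff (Finsupp.single 3 d) F ≠ 0) {z : Fin 4 → ℂ} (hz : ∃ i : Fin 4, i ≠ 3 ∧ z i ≠ 0) :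
    ∃ s : Multiset (surf F), s.map Subtype.val = Ls F z ∧ IsChowForm (surf F)
      (aeval ![C (z 0) * X 3, C (z 1) * X 3, C (z 2) * X 3,
        -(C (z 0) * X 0 + C (z 1) * X 1 + C (z 2) * X 2)] F) s := by
  classical
  have hne : ∀ w : ℂ, (![z 0, z 1, z 2, w] : Fin 4 → ℂ) ≠ 0 := by
    intro w h
    obtain ⟨i, hi, hi'⟩ := hz
    apply hi'
    have := congrFun h i
    fin_cases i
    · exact this
    · exact this
    · exact this
    · exact absurd rfl hi
  have hfz0 : fz F z ≠ 0 := by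
    intro h
    rw [← fz_coeff hF z, h, Polynomial.coeff_zero] at h3
    exact h3 rfl
  have hdeg : (fz F z).natDegree = d := by
    refine le_antisymm (fz_natDegree hF z) (Polynomial.le_natDegree_of_ne_zero ?_)
    rw [fz_coeff hF z]
    exact h3
  have hmem : ∀ q ∈ Ls F z, q ∈ surf F := by
    intro q hq
    obtain ⟨w, hw, rfl⟩ := Multiset.mem_map.1 hq
    rw [mkP_eq (hne w)]
    refine (mem_surf_mk hF _).2 ?_
    rw [← eval_fz]
    exact (Polynomial.mem_roots'.1 hw).2
  obtain ⟨s, hs⟩ : ∃ s : Multiset (surf F), s.map Subtype.val = Ls F z :=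
    ⟨(Ls F z).attach.map fun q => ⟨q.1, hmem _ q.2⟩, by
      rw [Multiset.map_map]
      exact Multiset.attach_map_val _⟩
  refine ⟨s, hs, ?_⟩
  unfold IsChowForm
  rw [hs]
  -- the product of the linear forms
  have hlin : ∀ w : ℂ, ∃ c : ℂ, c ≠ 0 ∧ linForm (![z 0, z 1, z 2, w] : Fin 4 → ℂ) =
      C c * linForm (mkP ![z 0, z 1, z 2, w]).rep := by
    intro w
    obtain ⟨c, hc, h⟩ := linForm_mk (hne w)
    exact ⟨c, hc, by rw [mkP_eq (hne w)]; exact h⟩
  choose c hc hc' using hlin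
  have hprod : ∀ R : Multiset ℂ, (R.map fun w => linForm (![z 0, z 1, z 2, w] : Fin 4 → ℂ)).prod =
      C (R.map c).prod * chowForm (R.map fun w => mkP ![z 0, z 1, z 2, w]) := by
    intro R
    induction R using Multiset.induction_on with
    | empty => simp [chowForm]
    | cons w R ih =>
      rw [Multiset.map_cons, Multiset.prod_cons, ih, hc' w, Multiset.map_cons, Multiset.prod_cons,
        Multiset.map_cons, chowForm_cons', C_mul]
      ring
  have hcp : ∀ R : Multiset ℂ, (R.map c).prod ≠ 0 := by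
    intro R
    refine Multiset.prod_ne_zero fun h => ?_
    obtain ⟨w, -, hw⟩ := Multiset.mem_map.1 h
    exact hc w hw
  refine ⟨(-1) ^ d * coeff (Finsupp.single 3 d) F * ((fz F z).roots.map c).prod,
    mul_ne_zero (mul_ne_zero (pow_ne_zero _ (neg_ne_zero.2 one_ne_zero)) h3) (hcp _), ?_⟩
  have hLs : Ls F z = (fz F z).roots.map fun w => mkP ![z 0, z 1, z 2, w] := rfl
  rw [hLs, C_mul, mul_assoc, ← hprod]
  have hsplit : (fz F z) = Polynomial.C (coeff (Finsupp.single 3 d) F) *
      ((fz F z).roots.map fun w => Polynomial.X - Polynomial.C w).prod := by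
    have h1 := (IsAlgClosed.splits (fz F z)).eq_prod_roots
    rw [Polynomial.leadingCoeff, hdeg, fz_coeff hF z] at h1
    exact h1
  have hcard : Multiset.card (fz F z).roots = d := by
    rw [← hdeg]
    exact (IsAlgClosed.splits (fz F z)).natDegree_eq_card_roots.symm
  -- compare the values
  refine MvPolynomial.funext fun l => ?_
  rw [map_mul, eval_C, map_multiset_prod, Multiset.map_map]
  have hL : eval l (aeval ![C (z 0) * X 3, C (z 1) * X 3, C (z 2) * X 3,
      -(C (z 0) * X 0 + C (z 1) * X 1 + C (z 2) * X 2)] F) =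
      aeval ![z 0 * l 3, z 1 * l 3, z 2 * l 3, -(z 0 * l 0 + z 1 * l 1 + z 2 * l 2)] F := by
    rw [← coe_aeval_eq_eval, RingHom.coe_coe, ← AlgHom.comp_apply, comp_aeval]
    congr 2
    funext i
    fin_cases i <;> simp
  have hR : ((fz F z).roots.map ((eval l) ∘ fun w =>
      linForm (![z 0, z 1, z 2, w] : Fin 4 → ℂ))) =
      (fz F z).roots.map fun w => z 0 * l 0 + z 1 * l 1 + z 2 * l 2 + w * l 3 := by
    refine Multiset.map_congr rfl fun w _ => ?_
    simp [linForm, Fin.sum_univ_four]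
  rw [hL, hR]
  by_cases hl : l 3 = 0
  · have h4 : ((fz F z).roots.map fun w => z 0 * l 0 + z 1 * l 1 + z 2 * l 2 + w * l 3).prod =
        (z 0 * l 0 + z 1 * l 1 + z 2 * l 2) ^ d := by
      simp only [hl, mul_zero, add_zero]
      rw [Multiset.map_const', Multiset.prod_replicate, hcard]
    rw [h4]
    have h5 := aeval_scale hF (z := ![z 0 * l 3, z 1 * l 3, z 2 * l 3,
      -(z 0 * l 0 + z 1 * l 1 + z 2 * l 2)]) (w := ![0, 0, 0, 1])
      (a := -(z 0 * l 0 + z 1 * l 1 + z 2 * l 2)) (fun i => by fin_cases i <;> simp [hl])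
    rw [h5]
    have h6 : aeval (![0, 0, 0, 1] : Fin 4 → ℂ) F = coeff (Finsupp.single 3 d) F := by
      have h7 := as2_aeval_single hF 3
      rw [← h7]
      congr 2
      funext i
      fin_cases i <;> simp
    rw [h6, neg_pow]
    ring
  · have h5 := aeval_scale hF (z := ![z 0 * l 3, z 1 * l 3, z 2 * l 3,
      -(z 0 * l 0 + z 1 * l 1 + z 2 * l 2)]) (w := ![z 0, z 1, z 2,
      -(z 0 * l 0 + z 1 * l 1 + z 2 * l 2) / l 3]) (a := l 3) (fun i => by
        fin_cases i
        · simp; ring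
        · simp; ring
        · simp; ring
        · simp; field_simp)
    rw [h5, ← eval_fz]
    have h6 := congrArg (Polynomial.eval (-(z 0 * l 0 + z 1 * l 1 + z 2 * l 2) / l 3)) hsplit
    rw [h6, Polynomial.eval_mul, Polynomial.eval_C, Polynomial.eval_multiset_prod,
      Multiset.map_map]
    have h7 : ∀ R : Multiset ℂ, l 3 ^ Multiset.card R * (R.map ((Polynomial.eval
        (-(z 0 * l 0 + z 1 * l 1 + z 2 * l 2) / l 3)) ∘ fun w =>
          Polynomial.X - Polynomial.C w)).prod = (-1) ^ Multiset.card R *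
        (R.map fun w => z 0 * l 0 + z 1 * l 1 + z 2 * l 2 + w * l 3).prod := by
      intro R
      induction R using Multiset.induction_on with
      | empty => simp
      | cons w R ih =>
        rw [Multiset.card_cons, Multiset.map_cons, Multiset.prod_cons, Multiset.map_cons,
          Multiset.prod_cons, pow_succ, pow_succ]
        have h8 : l 3 * ((Polynomial.eval (-(z 0 * l 0 + z 1 * l 1 + z 2 * l 2) / l 3)) ∘ fun w =>
          Polynomial.X - Polynomial.C w) w = -(z 0 * l 0 + z 1 * l 1 + z 2 * l 2 + w * l 3) := by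
          simp
          field_simp
          ring
        linear_combination (l 3 * ((Polynomial.eval (-(z 0 * l 0 + z 1 * l 1 + z 2 * l 2) / l 3)) ∘
          fun w => Polynomial.X - Polynomial.C w) w) * ih + ((-1) ^ Multiset.card R *
          (R.map fun w => z 0 * l 0 + z 1 * l 1 + z 2 * l 2 + w * l 3).prod) * h8
    have h9 := h7 (fz F z).roots
    rw [hcard] at h9
    linear_combination (coeff (Finsupp.single 3 d) F) * h9

/-- line sections through two different points of the plane -/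
theorem Ls_sub_mem_gen' {F : MvPolynomial (Fin 4) ℂ} {d : ℕ} (hF : F.IsHomogeneous d)
    (h3 : coeff (Finsupp.single 3 d) F ≠ 0) {z z' : Fin 4 → ℂ}
    (h : ∀ t : ℂ, ∃ i : Fin 4, i ≠ 3 ∧ (1 - t) * z i + t * z' i ≠ 0) :
    cycQ (Ls F z) - cycQ (Ls F z') ∈ ratQ F := by
  let x : ℂ → Fin 4 → ℂ := fun t i => (1 - t) * z i + t * z' i
  let p : Fin 4 → Polynomial (MvPolynomial (Fin 4) ℂ) := fun i =>
    Polynomial.C (C (z i)) * (1 - Polynomial.X) + Polynomial.C (C (z' i)) * Polynomial.X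
  let Φ : Polynomial (MvPolynomial (Fin 4) ℂ) := aeval ![p 0 * Polynomial.C (X 3),
    p 1 * Polynomial.C (X 3), p 2 * Polynomial.C (X 3), -(p 0 * Polynomial.C (X 0) +
      p 1 * Polynomial.C (X 1) + p 2 * Polynomial.C (X 2))] F
  have hp : ∀ (t : ℂ) (i : Fin 4), (p i).eval (C t) = C (x t i) := by
    intro t i
    simp [p, x]
    ring
  have hΦ : ∀ t : ℂ, Φ.eval (C t) = aeval ![C (x t 0) * X 3, C (x t 1) * X 3, C (x t 2) * X 3,
        -(C (x t 0) * X 0 + C (x t 1) * X 1 + C (x t 2) * X 2)] F := by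
    intro t
    simp only [Φ]
    rw [aeval_def, eval₂_eq', Polynomial.eval_finsetSum, aeval_def, eval₂_eq']
    refine Finset.sum_congr rfl fun m _ => ?_
    rw [Polynomial.eval_mul, Polynomial.eval_prod]
    congr 1
    · exact Polynomial.eval_C
    · refine Finset.prod_congr rfl fun i _ => ?_
      rw [Polynomial.eval_pow]
      congr 1
      fin_cases i
      · simp [hp]
      · simp [hp]
      · simp [hp]
      · simp [hp]
  obtain ⟨s₀, hs₀, hc₀⟩ := chow_ls hF h3 (z := x 0) (h 0)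
  obtain ⟨s₁, hs₁, hc₁⟩ := chow_ls hF h3 (z := x 1) (h 1)
  have hx0 : x 0 = z := by
    funext i
    simp [x]
  have hx1 : x 1 = z' := by
    funext i
    simp [x]
  rw [hx0] at hs₀
  rw [hx1] at hs₁
  refine Submodule.subset_span ⟨s₀, s₁, ⟨Φ, Filter.Eventually.of_forall fun t => ?_, ?_, ?_⟩, ?_⟩
  · obtain ⟨s, -, hc⟩ := chow_ls hF h3 (z := x t) (h t)
    exact ⟨s, by rw [hΦ]; exact hc⟩
  · rw [hΦ]
    exact hc₀
  · rw [hΦ]
    exact hc₁
  · rw [hs₀, hs₁]

/-- a pair on a quartic is half of a line section -/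
private theorem pair_half {F : MvPolynomial (Fin 4) ℂ} (hF : F.IsHomogeneous 4) (hs : IsSym 2 F)
    (h3 : coeff (Finsupp.single 3 4) F ≠ 0) {z : Fin 4 → ℂ} (hz : aeval z F = 0)
    (hz0 : ∃ i : Fin 4, i ≠ 3 ∧ z i ≠ 0) :
    (2 : ℚ) • pr z - cycQ (Ls F z) ∈ ratQ F := by
  obtain ⟨a, ha⟩ : ∃ a : ℂ, a = coeff (Finsupp.single 3 4) F := ⟨_, rfl⟩
  obtain ⟨h₀, hh₀⟩ : ∃ h₀ : ℂ, h₀ = 2 * a * z 3 ^ 2 + aeval z (prt F 2) := ⟨_, rfl⟩
  by_cases hh : h₀ = 0
  · rw [roots_dbl hF hs h3 hz (by rw [← ha, ← hh₀, hh])]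
    unfold pr
    rw [sub_self]
    exact zero_mem _
  have hzne : z ≠ 0 := by
    rintro rfl
    obtain ⟨i, -, hi⟩ := hz0
    exact hi rfl
  have hq := aeval_quart hF hs h3 z
  rw [hz, Algebra.algebraMap_self_apply, ← ha] at hq
  have hD : aeval z (disc F) = h₀ ^ 2 := by
    rw [aeval_disc, Algebra.algebraMap_self_apply, ← ha, hh₀]
    linear_combination (4 * a) * hq
  obtain ⟨s, hs0, hs3, hsD, q₀, q₁, q₂, hq'⟩ := tangent (disc_hom hF) z
  have hq0 : q₀ = h₀ ^ 2 := by
    have h1 := hq' 1 0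
    simp only [one_mul, zero_mul, add_zero] at h1
    rw [show (fun i => z i) = z from rfl, hD] at h1
    linear_combination -h1
  -- the point over `s`
  have h2a : 2 * a ≠ 0 := mul_ne_zero two_ne_zero (by rw [ha]; exact h3)
  obtain ⟨w, hw⟩ := IsAlgClosed.exists_pow_nat_eq (-(aeval s (prt F 2)) / (2 * a)) (n := 2) two_pos
  obtain ⟨y, hy⟩ : ∃ y : Fin 4 → ℂ, y = ![s 0, s 1, s 2, w] := ⟨_, rfl⟩
  have hyi : ∀ i : Fin 4, i ≠ 3 → y i = s i := by
    intro i hi
    rw [hy]
    fin_cases i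
    · rfl
    · rfl
    · rfl
    · exact absurd rfl hi
  have hy3 : y 3 = w := by
    rw [hy]
    rfl
  have hyQ : aeval y (prt F 2) = aeval s (prt F 2) := aeval_prt_congr F 2 (hyi 0 (by decide))
    (hyi 1 (by decide)) (hyi 2 (by decide))
  have hyD : aeval y (disc F) = 0 := by
    rw [aeval_disc_congr F (hyi 0 (by decide)) (hyi 1 (by decide)) (hyi 2 (by decide)), hsD]
  have hyh : 2 * a * y 3 ^ 2 + aeval y (prt F 2) = 0 := by
    rw [hyQ, hy3, hw, mul_div_cancel₀ _ h2a]
    ring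
  have hyne : y ≠ 0 := by
    intro h
    apply hs0
    funext i
    by_cases hi : i = 3
    · rw [hi, hs3]
      rfl
    · rw [← hyi i hi, h]
  have hyF : aeval y F = 0 := on_surf hF hs h3 (g := 0) (by rw [hyD]; ring) (by rw [← ha]; exact hyh)
  have hLy := roots_dbl hF hs h3 hyF (by rw [← ha]; exact hyh)
  have hlin : ∀ c : ℂ, (∀ i : Fin 4, i ≠ 3 → s i = c * z i) → False := by
    intro c hc
    have h1 : aeval s (disc F) = aeval (fun i => c * z i) (disc F) :=
      aeval_disc_congr F (hc 0 (by decide)) (hc 1 (by decide)) (hc 2 (by decide))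
    rw [aeval_scale (disc_hom hF) (w := z) (a := c) (fun _ => rfl), hsD, hD] at h1
    have h2 : c = 0 := by
      by_contra h
      exact mul_ne_zero (pow_ne_zero 4 h) (pow_ne_zero 2 hh) h1.symm
    apply hs0
    funext i
    by_cases hi : i = 3
    · rw [hi, hs3]
      rfl
    · rw [hc i hi, h2, zero_mul]
      rfl
  -- the link
  have hQs : ∀ (c : ℂ) (v : Fin 4 → ℂ), aeval (c • v) (prt F 2) = c ^ 2 * aeval v (prt F 2) :=
    fun c v => aeval_scale (prt_hom hF 2 rfl) (fun _ => rfl)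
  have hlink : pr z - pr y ∈ ratQ F := by
    by_cases hdis : q₁ ^ 2 = 4 * h₀ ^ 2 * q₂
    · -- the conic splits
      obtain ⟨μ, hμ⟩ : ∃ μ : ℂ, μ = q₁ / (2 * h₀) := ⟨_, rfl⟩
      have hμ1 : 2 * h₀ * μ = q₁ := by
        rw [hμ]
        field_simp
      have hμ2 : μ ^ 2 = q₂ := by
        rw [hμ, div_pow, hdis]
        field_simp
        ring
      refine fam_link hF hs h3 z s (1 - Polynomial.X) Polynomial.X ((1 - Polynomial.X) *
        (Polynomial.C h₀ * (1 - Polynomial.X) + Polynomial.C μ * Polynomial.X)) ?_ hzne hyne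
        ?_ ?_ ?_ ?_
      · intro t
        rw [hq', hq0, ← hμ1, ← hμ2]
        simp
        ring
      · intro i _
        simp
      · intro i hi
        rw [hyi i hi]
        simp
      · rw [← ha, ← hh₀]
        simp
      · rw [← ha, hyh]
        simp
    · obtain ⟨l₁, hl₁⟩ := IsAlgClosed.exists_pow_nat_eq q₂ (n := 2) two_pos
      obtain ⟨l₀, hl₀⟩ : ∃ l₀ : ℂ, l₀ = q₁ / (2 * h₀) := ⟨_, rfl⟩
      have hl0' : 2 * h₀ * l₀ = q₁ := by
        rw [hl₀]
        field_simp
      obtain ⟨l, hl⟩ : ∃ l : Polynomial ℂ, l = Polynomial.C l₀ + Polynomial.C (l₁ - l₀) *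
        Polynomial.X := ⟨_, rfl⟩
      have hle : ∀ t, l.eval t = l₀ + (l₁ - l₀) * t := by
        intro t
        rw [hl]
        simp
      have hα0 : q₂ - l₀ ^ 2 ≠ 0 := by
        intro h
        apply hdis
        rw [← hl0']
        linear_combination (-4 * h₀ ^ 2) * h
      have hβ1 : 2 * h₀ * l₁ - q₁ ≠ 0 := by
        intro h
        apply hdis
        rw [← hl₁]
        linear_combination (-(2 * h₀ * l₁ + q₁)) * h
      have h7 := fam_link hF hs h3 z s (Polynomial.C q₂ - l ^ 2)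
        (Polynomial.C (2 * h₀) * l - Polynomial.C q₁) ((Polynomial.C q₂ - l ^ 2) *
        (Polynomial.C h₀ * l ^ 2 - Polynomial.C q₁ * l + Polynomial.C (h₀ * q₂)))
        (y₀ := (q₂ - l₀ ^ 2) • z) (y₁ := (2 * h₀ * l₁ - q₁) • y) ?_ (smul_ne_zero hα0 hzne)
        (smul_ne_zero hβ1 hyne) ?_ ?_ ?_ ?_
      · rwa [pr_smul hα0 hzne, pr_smul hβ1 hyne] at h7
      · intro t
        rw [hq', hq0]
        simp only [Polynomial.eval_mul, Polynomial.eval_sub, Polynomial.eval_add,
          Polynomial.eval_pow, Polynomial.eval_C]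
        ring
      · intro i _
        simp only [Polynomial.eval_mul, Polynomial.eval_sub,
          Polynomial.eval_pow, Polynomial.eval_C, hle, mul_zero, add_zero, hl0', sub_self,
          zero_mul]
        rfl
      · intro i hi
        have h8 : l.eval 1 = l₁ := by
          rw [hle]
          ring
        simp only [Polynomial.eval_mul, Polynomial.eval_sub,
          Polynomial.eval_pow, Polynomial.eval_C, h8, hl₁, sub_self, zero_mul, zero_add]
        rw [Pi.smul_apply, smul_eq_mul, hyi i hi]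
      · rw [hQs, Pi.smul_apply, smul_eq_mul, ← ha]
        simp only [Polynomial.eval_mul, Polynomial.eval_sub, Polynomial.eval_add,
          Polynomial.eval_pow, Polynomial.eval_C, hle, mul_zero, add_zero]
        have h8 : 2 * a * z 3 ^ 2 + aeval z (prt F 2) = h₀ := hh₀.symm
        rw [← hl0']
        linear_combination (q₂ - l₀ ^ 2) ^ 2 * h8
      · have h8 : l.eval 1 = l₁ := by
          rw [hle]
          ring
        rw [hQs, Pi.smul_apply, smul_eq_mul, ← ha]
        simp only [Polynomial.eval_mul, Polynomial.eval_sub, Polynomial.eval_add,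
          Polynomial.eval_pow, Polynomial.eval_C, h8, hl₁, sub_self, zero_mul]
        linear_combination (2 * h₀ * l₁ - q₁) ^ 2 * hyh
  have h5 : cycQ (Ls F z) - cycQ (Ls F y) ∈ ratQ F := by
    refine Ls_sub_mem_gen' hF h3 fun t => ?_
    by_contra hcon
    push Not at hcon
    rcases eq_or_ne t 0 with rfl | ht
    · obtain ⟨i, hi, hi'⟩ := hz0
      apply hi'
      have := hcon i hi
      linear_combination this
    · refine hlin (-(1 - t) / t) fun i hi => ?_
      have := hcon i hi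
      rw [hyi i hi] at this
      field_simp
      linear_combination this
  have h6 : (2 : ℚ) • pr z - cycQ (Ls F z) = (2 : ℚ) • (pr z - pr y) -
      (cycQ (Ls F z) - cycQ (Ls F y)) := by
    rw [hLy, smul_sub]
    unfold pr
    abel
  rw [h6]
  exact sub_mem (Submodule.smul_mem _ _ hlink) h5

theorem dp_pair {F : MvPolynomial (Fin 4) ℂ} (hF : IsSmoothForm F 4) (hs : IsSym 2 F)
    (h3 : coeff (Finsupp.single 3 4) F ≠ 0) {K : Fl} [Countable K] (_hFK : Coef K F)
    {z : Fin 4 → ℂ} (h1 : z 0 = 1) (hzF : aeval z F = 0)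
    (_hz : AlgebraicIndependent K ![z 1, z 2]) :
    (2 : ℚ) • (Finsupp.single (mkP (scv 1 z)) 1 + Finsupp.single (mkP (scv (-1) z)) 1) -
      cycQ (Ls F z) ∈ ratQ F :=
  pair_half hF.hom hs h3 hzF ⟨0, by decide, by rw [h1]; exact one_ne_zero⟩

end Pool.Agent.VGS.H
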