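import Pool.Agent.VGH.S1H
import Pool.Agent.VGS2.Fin2

/-! Module Fin: the system and the main theorem. -/

set_option autoImplicit false

open scoped LinearAlgebra.Projectivization
open MvPolynomial

namespace Pool.Agent.VGS.H

open Pool.Agent.Chow0 (IsChowForm IsLink cyc Z0 ratTriv CH0)
open Pool.Agent.LowDeg (surf IsSmoothForm EffCorr IsGenericPoint ActsByScalar)

/-- `φ` is an endomorphism of the Chow group which maps the classes of the points `p` of `V` to
the class of `Γ_p - Γ'_p`. -/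
def Induces {Ω : Type} [Field Ω] [Algebra ℂ Ω] {F : MvPolynomial (Fin 4) ℂ} {ξ : Fin 4 → Ω}
    {w w' : ℕ} (Γ : EffCorr F ξ w) (Γ' : EffCorr F ξ w') (V : Set (surf F))
    (φ : AddMonoid.End (CH0 (surf F))) : Prop :=
  ∀ p ∈ V, ∀ s s' : Multiset (surf F), IsChowForm (surf F) (Γ.at p.1.rep) s →
    IsChowForm (surf F) (Γ'.at p.1.rep) s' →
      φ (QuotientAddGroup.mk (FreeAbelianGroup.of p)) =
        QuotientAddGroup.mk (cyc s) - QuotientAddGroup.mk (cyc s')

/-- The system of the surface `F = 0`, where `F` is symmetric and has independent coefficients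
over `k`. -/
noncomputable def sysH {F : MvPolynomial (Fin 4) ℂ} {d e : ℕ} (hd : 4 ≤ d) (he : e ∣ d)
    (hF : IsSmoothForm F d) (hs : IsSym e F) (k : Fl) [Countable k]
    (hind : AlgebraicIndependent k (fun m : MonE d e => coeff m.1 F)) : Sys where
  P := PP
  act := act
  act_one := act_one
  act_mul := act_mul
  X := surf F
  K := cof k F
  cK := inferInstance
  Gen := fun L => Gen L F
  rat := ratQ F
  TZ := fun L => TZ L F d
  act_X := fun σ hσ p hp => (act_mem_surf hF.hom (coef_cof k F) hσ).2 hp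
  gen_X := fun L p hp => hp.1
  gen_anti := fun L L' h => Gen_anti h F
  act_gen := fun L hL σ hσ p hp => (act_mem_Gen hF.hom ((coef_cof k F).mono hL) hσ).2 hp
  conj := fun p hp q hq => by
    have h := gen_clo hd hF (cof k F) (coef_cof k F)
    exact gen_conj hd hF (clo (cof k F)) ((coef_cof k F).mono (le_clo _)) (by rwa [h])
      (by rwa [h])
  rat_act := fun σ hσ z hz => actC_ratQ hF.hom (coef_cof k F) hσ hz
  rat_deg := fun z hz => degQ_ratQ hz
  move := fun L _ hL x hx => moveQ hd hF L ((coef_cof k F).mono hL) hx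
  tz_X := fun L z hz => hz.1
  tz_mono := fun L L' _ h => tz_mono h
  tz_act := fun L hL σ hσ z hz => tz_act hd hF ((coef_cof k F).mono hL) hσ hz
  s1t := fun n t ht α hα ha => s1tH hd he hF hs k hind t ht α hα ha
  mu := fun L _ hL => mu_inst hd hF (cof k F) (coef_cof k F) L hL

/-- nilpotence for the Chow group with rational coefficients -/
theorem nilH {F : MvPolynomial (Fin 4) ℂ} {d e : ℕ} (hd : 4 ≤ d) (he : e ∣ d)
    (hF : IsSmoothForm F d) (hs : IsSym e F) (k : Fl) [Countable k]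
    (hind : AlgebraicIndependent k (fun m : MonE d e => coeff m.1 F))
    (T : Finset ℂ) (hT : ∀ x ∈ T, x ∈ clo (cof k F)) :
    ∃ N : ℕ, 0 < N ∧ ∀ x : Fin N → Module.End ℚ (Cy ⧸ ratQ F),
      (∀ i, ∃ α : PP → Cy, (∀ p ∈ Gen (cof k F) F, α p ∈ TZ (cof k F) F d) ∧
        (∀ σ ∈ Fix (adj (cof k F) T), ∀ p ∈ Gen (cof k F) F, α (act σ p) = actC σ (α p)) ∧
        ∀ p ∈ Gen (cof k F) F,
          x i ((ratQ F).mkQ (Finsupp.single p (1 : ℚ))) = (ratQ F).mkQ (α p)) →
      ∀ p ∈ surf F, ∀ q ∈ surf F, (List.ofFn x).prod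
        ((ratQ F).mkQ (Finsupp.single p (1 : ℚ)) - (ratQ F).mkQ (Finsupp.single q (1 : ℚ))) = 0 := by
  obtain ⟨N, hN0, hN⟩ := Sys.nil_fin (sysH hd he hF hs k hind) T hT
  exact ⟨N, hN0, fun x hx p hp q hq => hN x hx _ (Submodule.subset_span ⟨p, hp, q, hq, rfl⟩)⟩

/-- The main theorem, for pairs of points. -/
theorem mainH' (F : MvPolynomial (Fin 4) ℂ) (d e : ℕ) (hd : 4 ≤ d) (he : e ∣ d)
    (hF : F.IsHomogeneous d) (hs : IsSym e F)
    (hind : AlgebraicIndependent ℚ (fun m : MonE d e => coeff m.1 F))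
    (Ω : Type) [Field Ω] [Algebra ℂ Ω] [IsAlgClosed Ω] (ξ : Fin 4 → Ω)
    (hξ : IsGenericPoint F ξ) (n : ℕ) (w w' : Fin n → ℕ) (Γ : ∀ i, EffCorr F ξ (w i))
    (Γ' : ∀ i, EffCorr F ξ (w' i)) (hm : ∀ i, ActsByScalar F (d - 4) (Γ i) (Γ' i) 0) :
    ∃ (K : Fl) (_ : Countable K) (_ : Coef K F) (N M : ℕ)
      (D : ℕ → MvPolynomial (Fin 4) ℂ), (∀ p : surf F, p ∈ veryGen F D ↔ p.1 ∈ Gen K F) ∧
      0 < M ∧
      (∀ j, (∃ e, (D j).IsHomogeneous e) ∧ ¬ F ∣ D j) ∧
      (∀ i, ∀ p ∈ veryGen F D, ∃ s s' : Multiset (surf F),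
        IsChowForm (surf F) ((Γ i).at p.1.rep) s ∧ IsChowForm (surf F) ((Γ' i).at p.1.rep) s') ∧
      ∀ φ : Fin n → AddMonoid.End (CH0 (surf F)),
        (∀ i, ActsOnCH (Γ i) (Γ' i) (veryGen F D) 0 1 (φ i)) →
        ∀ word : Fin N → Fin n, ∀ p ∈ veryGen F D, ∀ q ∈ veryGen F D,
          M • (List.ofFn fun j => φ (word j)).prod
            (mkC F (FreeAbelianGroup.of p - FreeAbelianGroup.of q)) = 0 := by
  classical
  have hsm : IsSmoothForm F d := smooth_of_indE (by omega) he hF hs hind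
  obtain ⟨m, hm0⟩ : ∃ m : Fin n → ℂ, m = fun _ => 0 := ⟨_, rfl⟩
  -- the ground field
  set S : Finset ℂ := Finset.univ.biUnion fun i => cfs (Γ i) ∪ cfs (Γ' i) with hS
  obtain ⟨k, hk, hkc, hindk, hSk⟩ := exists_groundE hind S
  have hKc : Countable (cof k F) := countable_cof_fin k F
  have hFK : Coef (cof k F) F := coef_cof_fin k F
  have hFK' : Coef (clo (cof k F)) F := hFK.mono (le_clo _)
  have hSK : ∀ x ∈ S, x ∈ clo (cof k F) := hSk
  have hKK' : cof k F ≤ adj (cof k F) S := le_adj _ _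
  have hK'c : adj (cof k F) S ≤ clo (cof k F) := adj_le (le_clo _) fun x hx => hSK x hx
  have hcf : ∀ i, ∀ x ∈ cfs (Γ i), x ∈ S := fun i x hx =>
    Finset.mem_biUnion.2 ⟨i, Finset.mem_univ i, Finset.mem_union_left _ hx⟩
  have hcf' : ∀ i, ∀ x ∈ cfs (Γ' i), x ∈ S := fun i x hx =>
    Finset.mem_biUnion.2 ⟨i, Finset.mem_univ i, Finset.mem_union_right _ hx⟩
  have hcK : ∀ i, CoefE (adj (cof k F) S) (Γ i) := fun i =>
    coefE_of _ fun x hx => subset_adj _ _ (hcf i x hx)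
  have hcK' : ∀ i, CoefE (adj (cof k F) S) (Γ' i) := fun i =>
    coefE_of _ fun x hx => subset_adj _ _ (hcf' i x hx)
  have hT := fun i => effT_isT2 hd hsm hξ (cof k F) (adj (cof k F) S) hFK hKK' hK'c (Γ i) (hcK i)
  have hT' := fun i => effT_isT2 hd hsm hξ (cof k F) (adj (cof k F) S) hFK hKK' hK'c (Γ' i)
    (hcK' i)
  have htau : ∀ i, ∀ y ∈ Gen (cof k F) F, ∀ D₁ D₂ : Derivation ℤ ℂ ℂ, Kills (cof k F) D₁ →
      Kills (cof k F) D₂ → ∀ f : MvPolynomial (Fin 4) ℂ, f.IsHomogeneous (d - 4) →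
        tauC F D₁ D₂ f (effT (Γ i) y - effT (Γ' i) y) = m i * tau F D₁ D₂ f y := fun i =>
    effT_tau hd hsm hξ (cof k F) hFK (Γ i) (Γ' i) (fun m' => (hcK i m').mono hK'c)
      (fun m' => (hcK' i m').mono hK'c) (by rw [hm0]; exact hm i)
  -- the scalars
  obtain ⟨a, ha⟩ : ∃ a : Fin n → ℤ, a = fun _ => 0 := ⟨_, rfl⟩
  obtain ⟨b, hb⟩ : ∃ b : Fin n → ℤ, b = fun _ => 1 := ⟨_, rfl⟩
  have hbm : ∀ i, (b i : ℂ) * m i = a i := fun i => by
    rw [ha, hb, hm0]
    simp
  obtain ⟨D, hD, hDG⟩ := exists_enum hd hF (cof k F)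
  -- nilpotence with rational coefficients
  obtain ⟨N, hN0, hN⟩ := nilH hd he hsm hs k hindk S hSK
  have hchs : ∀ i, ∀ p : surf F, p.1 ∈ Gen (cof k F) F →
      IsChowForm (surf F) ((Γ i).at p.1.rep) (chs (Γ i) p.1) := fun i p hp =>
    chs_spec _ _ ((hT i).1 p.1 hp)
  have hchs' : ∀ i, ∀ p : surf F, p.1 ∈ Gen (cof k F) F →
      IsChowForm (surf F) ((Γ' i).at p.1.rep) (chs (Γ' i) p.1) := fun i p hp =>
    chs_spec _ _ ((hT' i).1 p.1 hp)
  -- the statement for one family of endomorphisms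
  have key : ∀ φ : Fin n → AddMonoid.End (CH0 (surf F)),
      (∀ i, ∀ p : surf F, p.1 ∈ Gen (cof k F) F → φ i (mkC F (FreeAbelianGroup.of p)) =
        mkC F (phH (Γ i) (Γ' i) (a i) (b i) (FreeAbelianGroup.of p))) →
      ∀ word : Fin N → Fin n, ∃ M : ℕ, 0 < M ∧ ∀ p q : surf F, p.1 ∈ Gen (cof k F) F →
        q.1 ∈ Gen (cof k F) F → M • ((List.ofFn word).map φ).prod
          (mkC F (FreeAbelianGroup.of p - FreeAbelianGroup.of q)) = 0 := by
    intro φ hφ word
    refine exists_MH hd hsm (cof k F) hFK φ hFK' ?_ (List.ofFn word) ?_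
    · intro σ hσ i c
      have hσ' : σ ∈ Fix (adj (cof k F) S) := Fix_mono hK'c hσ
      refine DFunLike.congr_fun (hom_ext_gen hd hsm (cof k F) hFK
        ((φ i : CH0 (surf F) →+ CH0 (surf F)).comp (actH hsm.hom hFK' hσ))
        ((actH hsm.hom hFK' hσ).comp (φ i : CH0 (surf F) →+ CH0 (surf F))) fun p hp => ?_) c
      change φ i (actH hsm.hom hFK' hσ (mkC F (FreeAbelianGroup.of p))) =
        actH hsm.hom hFK' hσ (φ i (mkC F (FreeAbelianGroup.of p)))
      have hp' : (actS hsm.hom hFK' hσ p).1 ∈ Gen (cof k F) F :=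
        (act_mem_Gen hsm.hom hFK (Fix_mono (le_clo _) hσ)).2 hp
      rw [hφ i p hp, actH_mkC, actH_mkC, actZ_of, hφ i _ hp']
      congr 1
      apply jz_injective
      rw [jz_actZ, jz_phH_of, jz_phH_of]
      change b i • (effT (Γ i) (act σ p.1) - effT (Γ' i) (act σ p.1)) -
        a i • (Finsupp.single (act σ p.1) (1 : ℚ) : Cy) = _
      rw [(hT i).2.2 σ hσ' p.1 hp, (hT' i).2.2 σ hσ' p.1 hp, map_sub, map_zsmul, map_zsmul,
        map_sub, actC_single]
    · intro p q hp hq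
      have h1 := hN (fun j => qEnd (φ (word j))) (fun j => by
        refine ⟨fun p => b (word j) • (effT (Γ (word j)) p - effT (Γ' (word j)) p) -
          a (word j) • (Finsupp.single p (1 : ℚ) : Cy), fun p hp => ?_, fun σ hσ p hp => ?_,
          fun p hp => ?_⟩
        · refine mem_TZ.2 ⟨support_zsmul_sub ((hT (word j)).2.1 p hp) ((hT' (word j)).2.1 p hp)
            (fun q hq => ?_) _ _, fun D₁ D₂ h1 h2 f hf => ?_⟩
          · rw [Finset.mem_singleton.1 (Finsupp.support_single_subset hq)]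
            exact hp.1
          · rw [map_sub, map_zsmul, map_zsmul, htau (word j) p hp D₁ D₂ h1 h2 f hf]
            unfold tauC
            rw [Finsupp.linearCombination_single, one_smul, zsmul_eq_mul, zsmul_eq_mul,
              ← mul_assoc, hbm, sub_self]
        · change b (word j) • (effT (Γ (word j)) (act σ p) - effT (Γ' (word j)) (act σ p)) -
            a (word j) • (Finsupp.single (act σ p) (1 : ℚ) : Cy) = actC σ _
          rw [(hT (word j)).2.2 σ hσ p hp, (hT' (word j)).2.2 σ hσ p hp, map_sub, map_zsmul,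
            map_zsmul, map_sub, actC_single]
        · have h3 := qEnd_single (φ (word j)) (⟨p, hp.1⟩ : surf F)
          rw [hφ (word j) ⟨p, hp.1⟩ hp, iota_phH] at h3
          exact h3) p.1 p.2 q.1 q.2
      rw [← qEnd_prod, iota_mkC, map_sub, map_sub, jz_of, jz_of]
      have e1 : (List.ofFn fun j => qEnd (φ (word j))) =
          (List.ofFn word).map fun i => qEnd (φ i) := by
        rw [List.map_ofFn]
        rfl
      rw [e1] at h1
      exact h1
  -- all families of endomorphisms are the same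
  have hex : ∃ Mw : (Fin N → Fin n) → ℕ, (∀ word, 0 < Mw word) ∧
      ∀ φ : Fin n → AddMonoid.End (CH0 (surf F)),
        (∀ i, ∀ p : surf F, p.1 ∈ Gen (cof k F) F → φ i (mkC F (FreeAbelianGroup.of p)) =
          mkC F (phH (Γ i) (Γ' i) (a i) (b i) (FreeAbelianGroup.of p))) →
        ∀ word : Fin N → Fin n, ∀ p q : surf F, p.1 ∈ Gen (cof k F) F →
          q.1 ∈ Gen (cof k F) F → Mw word • ((List.ofFn word).map φ).prod
            (mkC F (FreeAbelianGroup.of p - FreeAbelianGroup.of q)) = 0 := by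
    by_cases hφ0 : ∃ φ : Fin n → AddMonoid.End (CH0 (surf F)),
        ∀ i, ∀ p : surf F, p.1 ∈ Gen (cof k F) F → φ i (mkC F (FreeAbelianGroup.of p)) =
          mkC F (phH (Γ i) (Γ' i) (a i) (b i) (FreeAbelianGroup.of p))
    · obtain ⟨φ0, hφ0⟩ := hφ0
      choose Mw hMw0 hMw1 using key φ0 hφ0
      refine ⟨Mw, hMw0, fun φ hφ => ?_⟩
      have h1 : φ = φ0 := funext fun i => hom_ext_gen hd hsm (cof k F) hFK
        (φ i : CH0 (surf F) →+ CH0 (surf F)) (φ0 i) fun p hp => by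
          exact (hφ i p hp).trans (hφ0 i p hp).symm
      rw [h1]
      exact hMw1
    · exact ⟨fun _ => 1, fun _ => one_pos, fun φ hφ => absurd ⟨φ, hφ⟩ hφ0⟩
  obtain ⟨Mw, hMw0, hMw1⟩ := hex
  refine ⟨cof k F, hKc, hFK, N, ∏ word, Mw word, D, hDG,
    Finset.prod_pos fun word _ => hMw0 word, hD, ?_, ?_⟩
  · intro i p hp
    have hp' := (hDG p).1 hp
    exact ⟨chs (Γ i) p.1, chs (Γ' i) p.1, hchs i p hp', hchs' i p hp'⟩
  · intro φ hφ' word p hp q hq
    have hφ : ∀ i, ActsOnCH (Γ i) (Γ' i) (veryGen F D) (a i) (b i) (φ i) := fun i => by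
      rw [ha, hb]
      exact hφ' i
    have hp' := (hDG p).1 hp
    have hq' := (hDG q).1 hq
    have e1 : (List.ofFn fun j => φ (word j)) = (List.ofFn word).map φ := by
      rw [List.map_ofFn]
      rfl
    rw [e1]
    obtain ⟨c, hc⟩ : Mw word ∣ ∏ word, Mw word := Finset.dvd_prod_of_mem _ (Finset.mem_univ word)
    rw [hc, mul_comm, mul_smul, hMw1 φ (fun i x hx => (hφ i).phH ((hDG x).2 hx) (hchs i x hx)
      (hchs' i x hx)) word p q hp' hq', smul_zero]

/-- (port of `VGS.main2`, `VGS.main2'`, `VGS.nilS`, `VGS.sysS` with `a = 0`, `b = 1`) -/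
theorem mainH (F : MvPolynomial (Fin 4) ℂ) (d e : ℕ) (hd : 4 ≤ d) (he : e ∣ d)
    (hF : F.IsHomogeneous d) (hs : IsSym e F)
    (hind : AlgebraicIndependent ℚ (fun m : MonE d e => coeff m.1 F))
    (Ω : Type) [Field Ω] [Algebra ℂ Ω] [IsAlgClosed Ω] (ξ : Fin 4 → Ω)
    (hξ : IsGenericPoint F ξ) (n : ℕ) (w w' : Fin n → ℕ) (Γ : ∀ i, EffCorr F ξ (w i))
    (Γ' : ∀ i, EffCorr F ξ (w' i)) (hm : ∀ i, ActsByScalar F (d - 4) (Γ i) (Γ' i) 0) :
    ∃ (N M : ℕ) (D : ℕ → MvPolynomial (Fin 4) ℂ), 0 < M ∧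
      (∀ j, (∃ e, (D j).IsHomogeneous e) ∧ ¬ F ∣ D j) ∧
      (∀ i, ∀ p ∈ veryGen F D, ∃ s s' : Multiset (surf F),
        IsChowForm (surf F) ((Γ i).at p.1.rep) s ∧ IsChowForm (surf F) ((Γ' i).at p.1.rep) s') ∧
      ∀ φ : Fin n → AddMonoid.End (CH0 (surf F)),
        (∀ i, Induces (Γ i) (Γ' i) (veryGen F D) (φ i)) →
        ∀ word : Fin N → Fin n, ∀ z : Z0 (surf F), Pool.Agent.Chow0.deg z = 0 →
          M • (List.ofFn fun j => φ (word j)).prod (QuotientAddGroup.mk z) = 0 := by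
  have hsm : IsSmoothForm F d := smooth_of_indE (by omega) he hF hs hind
  obtain ⟨K, hK, hKF, N, M, D, hDG, hM, hD, hch, hφ⟩ :=
    mainH' F d e hd he hF hs hind Ω ξ hξ n w w' Γ Γ' hm
  refine ⟨N, M, D, hM, hD, hch, fun φ hφ'' word z hz => ?_⟩
  have hφ' : ∀ i, ActsOnCH (Γ i) (Γ' i) (veryGen F D) 0 1 (φ i) := fun i p hp s s' hs' hs'' => by
    rw [hφ'' i p hp s s' hs' hs'', one_smul, zero_smul, sub_zero]
  obtain ⟨y, hy, hzy⟩ := move_deg (V := veryGen F D) (fun x => by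
    obtain ⟨s, t, hs, ht, h⟩ := exists_move hd hsm K hKF x
    exact ⟨s, t, fun p hp => (hDG p).2 (hs p hp), fun p hp => (hDG p).2 (ht p hp), h⟩) hz
  have e1 : (QuotientAddGroup.mk z : CH0 (surf F)) = mkC F y := by
    have h1 := mkC_eq_zero.2 hzy
    rw [map_sub] at h1
    exact sub_eq_zero.1 h1
  rw [e1]
  refine AddSubgroup.closure_induction (p := fun y _ =>
    M • (List.ofFn fun j => φ (word j)).prod (mkC F y) = 0) ?_ ?_ ?_ ?_ hy
  · rintro y ⟨p, hp, q, hq, rfl⟩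
    exact hφ φ hφ' word p hp q hq
  · rw [map_zero, map_zero, smul_zero]
  · intro x y _ _ hx hy
    rw [map_add, map_add, smul_add, hx, hy, add_zero]
  · intro x _ hx
    rw [map_neg, map_neg, smul_neg, hx, neg_zero]

end Pool.Agent.VGS.H
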