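import Pool.Agent.VGH.Defs

/-! Module Frame: existence of frames. -/

set_option autoImplicit false

open scoped LinearAlgebra.Projectivization
open MvPolynomial

namespace Pool.Agent.VGS.H

open Pool.Agent.LowDeg (surf IsSmoothForm)

variable {F : MvPolynomial (Fin 4) ℂ} {d e : ℕ}

/-! ### the homology -/

/-- a diagonal substitution multiplies the coefficients by monomials -/
private theorem coeff_frG_diag (F : MvPolynomial (Fin 4) ℂ) (v : Fin 4 → ℂ) (m : Fin 4 →₀ ℕ) :
    coeff m (frG F (Matrix.diagonal v)) = (∏ i, v i ^ m i) * coeff m F := by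
  have h0 : ∀ i : Fin 4, (∑ j, C (Matrix.diagonal v i j) * X j : MvPolynomial (Fin 4) ℂ) =
      C (v i) * X i := by
    intro i
    rw [Finset.sum_eq_single i]
    · rw [Matrix.diagonal_apply_eq]
    · intro j _ hj
      rw [Matrix.diagonal_apply_ne _ (Ne.symm hj), C_0, zero_mul]
    · intro h
      exact absurd (Finset.mem_univ i) h
  have h1 : frG F (Matrix.diagonal v) = aeval (fun i => C (v i) * X i :
      Fin 4 → MvPolynomial (Fin 4) ℂ) F := by
    unfold frG
    congr 2
    ext1 i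
    exact h0 i
  rw [h1]
  clear h1 h0
  induction F using MvPolynomial.induction_on' with
  | monomial u a =>
    have h2 : aeval (fun i => C (v i) * X i : Fin 4 → MvPolynomial (Fin 4) ℂ) (monomial u a) =
        C (∏ i, v i ^ u i) * monomial u a := by
      rw [aeval_monomial, monomial_eq, Finsupp.prod_fintype _ _ (fun i => pow_zero _),
        Finsupp.prod_fintype _ _ (fun i => pow_zero _)]
      simp only [mul_pow, Finset.prod_mul_distrib, algebraMap_eq, map_prod, map_pow]
      ring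
    rw [h2, coeff_C_mul, coeff_monomial]
    split_ifs with h
    · rw [h]
    · simp
  | add p q hp hq => simp only [map_add, coeff_add, hp, hq, mul_add]

private theorem prod_last (c : ℂ) (m : Fin 4 →₀ ℕ) :
    (∏ i, (![1, 1, 1, c] : Fin 4 → ℂ) i ^ m i) = c ^ m 3 := by
  simp [Fin.prod_univ_four]

/-- the homology preserves `F` -/
private theorem frG_diag (he0 : e ≠ 0) : IsSym e F ↔
    frG F (Matrix.diagonal ![1, 1, 1, Complex.exp (2 * Real.pi * Complex.I / e)]) = F := by
  have hω := Complex.isPrimitiveRoot_exp e he0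
  constructor
  · intro hs
    ext m
    rw [coeff_frG_diag, prod_last]
    by_cases h : coeff m F = 0
    · rw [h, mul_zero]
    · rw [(hω.pow_eq_one_iff_dvd _).2 (hs m h), one_mul]
  · intro h m hm
    have h1 := congrArg (coeff m) h
    rw [coeff_frG_diag, prod_last] at h1
    rw [← hω.pow_eq_one_iff_dvd]
    exact mul_right_cancel₀ hm (by rw [h1, one_mul])

/-! ### the matrix -/

/-- The matrix of a frame. -/
private def frH (z : Fin 4 → ℂ) (μ : Fin 2 × Fin 2 → ℂ) : Matrix (Fin 4) (Fin 4) ℂ :=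
  !![0, 0, 1, 0;
     μ (0, 0), μ (0, 1), z 1, 0;
     μ (1, 0), μ (1, 1), z 2, 0;
     0, 0, 0, z 3]

private theorem frH_line {z : Fin 4 → ℂ} (h1 : z 0 = 1) (μ : Fin 2 × Fin 2 → ℂ) (a b : ℂ) :
    (frH z μ).mulVec ![0, 0, a, b] = ![a * z 0, a * z 1, a * z 2, b * z 3] := by
  ext i
  fin_cases i
  · simp [frH, Matrix.mulVec, dotProduct, Fin.sum_univ_four, h1]
  · simp [frH, Matrix.mulVec, dotProduct, Fin.sum_univ_four]
    ring
  · simp [frH, Matrix.mulVec, dotProduct, Fin.sum_univ_four]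
    ring
  · simp [frH, Matrix.mulVec, dotProduct, Fin.sum_univ_four]
    ring

private theorem frH_det (z : Fin 4 → ℂ) (μ : Fin 2 × Fin 2 → ℂ) :
    (frH z μ).det = z 3 * (μ (0, 0) * μ (1, 1) - μ (0, 1) * μ (1, 0)) := by
  have h : (Fin.succAbove (2 : Fin 4) (2 : Fin 3)) = 3 := by decide
  simp [frH, Matrix.det_succ_row_zero, Fin.sum_univ_succ, h]
  ring

private theorem frH_comm (z : Fin 4 → ℂ) (μ : Fin 2 × Fin 2 → ℂ) (c : ℂ) :
    frH z μ * Matrix.diagonal ![1, 1, 1, c] = Matrix.diagonal ![1, 1, 1, c] * frH z μ := by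
  ext i j
  rw [Matrix.mul_diagonal, Matrix.diagonal_mul]
  fin_cases i <;> fin_cases j <;> simp [frH, mul_comm]

private theorem frH_det_ne {L : Fl} {z : Fin 4 → ℂ} (h3 : z 3 ≠ 0) {μ : Fin 2 × Fin 2 → ℂ}
    (hμ : AlgebraicIndependent L μ) : (frH z μ).det ≠ 0 := by
  rw [frH_det]
  refine mul_ne_zero h3 fun h => ?_
  rw [algebraicIndependent_iff] at hμ
  have h1 := hμ (X (0, 0) * X (1, 1) - X (0, 1) * X (1, 0)) (by
    simpa using h)
  have h2 := congrArg (MvPolynomial.eval fun ij : Fin 2 × Fin 2 => if ij.1 = ij.2 then (1 : L) else 0) h1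
  simp at h2

private theorem frH_frk (k : Fl) {z : Fin 4 → ℂ} (μ : Fin 2 × Fin 2 → ℂ) :
    frk k (frH z μ) = adj k (Set.range (Sum.elim μ fun i : Fin 3 => z i.succ)) := by
  apply le_antisymm
  · refine adj_le (le_adj _ _) ?_
    rintro _ ⟨⟨a, b⟩, rfl⟩
    have hμS : ∀ x, μ x ∈ adj k (Set.range (Sum.elim μ fun i : Fin 3 => z i.succ)) :=
      fun x => subset_adj _ _ ⟨Sum.inl x, rfl⟩
    have hzS : ∀ i : Fin 3, z i.succ ∈ adj k (Set.range (Sum.elim μ fun i : Fin 3 => z i.succ)) :=
      fun x => subset_adj _ _ ⟨Sum.inr x, rfl⟩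
    have h0 : (0 : ℂ) ∈ adj k (Set.range (Sum.elim μ fun i : Fin 3 => z i.succ)) := zero_mem _
    have h1' : (1 : ℂ) ∈ adj k (Set.range (Sum.elim μ fun i : Fin 3 => z i.succ)) := one_mem _
    fin_cases a <;> fin_cases b <;>
      first
        | exact h0
        | exact h1'
        | exact hμS (0, 0)
        | exact hμS (0, 1)
        | exact hμS (1, 0)
        | exact hμS (1, 1)
        | exact hzS 0
        | exact hzS 1
        | exact hzS 2
  · refine adj_le (le_adj _ _) ?_
    rintro _ ⟨x | i, rfl⟩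
    · obtain ⟨a, b⟩ := x
      change μ (a, b) ∈ frk k (frH z μ)
      fin_cases a <;> fin_cases b
      · exact FrA.mem_frk k (frH z μ) 1 0
      · exact FrA.mem_frk k (frH z μ) 1 1
      · exact FrA.mem_frk k (frH z μ) 2 0
      · exact FrA.mem_frk k (frH z μ) 2 1
    · change z i.succ ∈ frk k (frH z μ)
      fin_cases i
      · exact FrA.mem_frk k (frH z μ) 1 2
      · exact FrA.mem_frk k (frH z μ) 2 2
      · exact FrA.mem_frk k (frH z μ) 3 3

private theorem exists_algInd22 (L : Fl) [Countable L] :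
    ∃ μ : Fin 2 × Fin 2 → ℂ, AlgebraicIndependent L μ := by
  obtain ⟨m, hm⟩ := exists_algInd L (2 * 2)
  let f : Fin 2 × Fin 2 ≃ Fin (2 * 2) := finProdFinEquiv
  exact ⟨fun ij => m (f ij), hm.comp (fun ij => f ij) f.injective⟩

private theorem finite_monE (d e : ℕ) : Finite (MonE d e) :=
  have := FrA.finite_deg d
  Finite.of_injective (fun m : MonE d e => (⟨m.1, m.2.1⟩ : {m : Fin 4 →₀ ℕ // m.degree = d}))
    fun _ _ h => Subtype.ext (congrArg (fun x => x.1) h)

/-- the coefficient of `X₂ ^ d` is a combination of the others -/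
private theorem coeff_top {L : Fl} {G : MvPolynomial (Fin 4) ℂ} {d : ℕ}
    (h0 : aeval (![0, 0, 1, 1] : Fin 4 → ℂ) G = 0) (h : ∀ m, m ≠ Finsupp.single 2 d → coeff m G ∈ L) :
    coeff (Finsupp.single 2 d) G ∈ L := by
  rw [MvPolynomial.aeval_def, MvPolynomial.eval₂_eq'] at h0
  simp only [Algebra.algebraMap_self, RingHom.id_apply] at h0
  have hp : ∀ m : Fin 4 →₀ ℕ, (∏ i, (![0, 0, 1, 1] : Fin 4 → ℂ) i ^ m i) ∈ L := by
    intro m
    refine prod_mem fun i _ => pow_mem ?_ _
    fin_cases i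
    · exact zero_mem _
    · exact zero_mem _
    · exact one_mem _
    · exact one_mem _
  by_cases hm : Finsupp.single 2 d ∈ G.support
  · rw [← Finset.add_sum_erase _ _ hm] at h0
    have h1 : (∏ i, (![0, 0, 1, 1] : Fin 4 → ℂ) i ^ (Finsupp.single 2 d : Fin 4 →₀ ℕ) i) = 1 := by
      simp [Fin.prod_univ_four]
    rw [h1, mul_one, add_eq_zero_iff_eq_neg] at h0
    rw [h0]
    refine neg_mem (sum_mem fun m hm' => mul_mem (h m (Finset.ne_of_mem_erase hm')) (hp m))
  · rw [notMem_support_iff.mp hm]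
    exact zero_mem _

/-- Claim A -/
private theorem frameH_ind (he0 : e ≠ 0) {k : Fl} (hF : F.IsHomogeneous d) (hs : IsSym e F)
    (hind : AlgebraicIndependent k (fun m : MonE d e => coeff m.1 F))
    {z : Fin 4 → ℂ} (h1 : z 0 = 1) (h3 : z 3 ≠ 0) (hzF : aeval z F = 0) {j l : Fin 3}
    (hjl : AlgebraicIndependent (cof k F) ![z j.succ, z l.succ])
    {μ : Fin 2 × Fin 2 → ℂ} (hμ : AlgebraicIndependent (adj (cof k F) (Set.range z)) μ)
    (hs' : IsSym e (frG F (frH z μ))) :
    AlgebraicIndependent (frk k (frH z μ))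
      (fun m : {m : MonE d e // m.1 ≠ Finsupp.single 2 d} =>
        coeff m.1.1 (frG F (frH z μ))) := by
  have := finite_monE d e
  have hdet := frH_det_ne h3 hμ
  have hfrk := frH_frk k (z := z) μ
  set M := frH z μ with hMdef
  set S : Set ℂ := Set.range (Sum.elim μ fun i : Fin 3 => z i.succ) with hS
  have hG := FrA.frG_hom hF M
  have key : AlgebraicIndependent k (Sum.elim
      (fun m : {m : MonE d e // m.1 ≠ Finsupp.single 2 d} => coeff m.1.1 (frG F M))
      (Sum.elim μ fun i : Fin 3 => z i.succ)) := by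
    have hle : adj k (Set.range (fun m : MonE d e => coeff m.1 F)) ≤ cof k F := by
      refine adj_le (le_adj _ _) ?_
      rintro _ ⟨m, rfl⟩
      exact subset_adj _ _ ⟨m.1, rfl⟩
    have h2 := FrA.algInd_sum.mpr ⟨hind, FrA.algInd_mono hle hjl⟩
    have hle' : adj k (Set.range (Sum.elim ![z j.succ, z l.succ]
        (fun m : MonE d e => coeff m.1 F))) ≤ adj (cof k F) (Set.range z) := by
      refine adj_le ((le_adj _ _).trans (le_adj _ _)) ?_
      rintro _ ⟨x | x, rfl⟩
      · change ![z j.succ, z l.succ] x ∈ _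
        fin_cases x
        · exact subset_adj _ _ ⟨j.succ, rfl⟩
        · exact subset_adj _ _ ⟨l.succ, rfl⟩
      · exact le_adj _ _ (subset_adj _ _ ⟨x.1, rfl⟩)
    have h4 := FrA.algInd_sum.mpr ⟨h2, FrA.algInd_mono hle' hμ⟩
    refine FrA.algInd_count h4 ?_ ?_
    · have hSy : adj k S ≤ adj k (Set.range (Sum.elim
          (fun m : {m : MonE d e // m.1 ≠ Finsupp.single 2 d} => coeff m.1.1 (frG F M))
          (Sum.elim μ fun i : Fin 3 => z i.succ))) := by
        refine adj_le (le_adj _ _) ?_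
        rintro _ ⟨x, rfl⟩
        exact subset_adj _ _ ⟨Sum.inr x, rfl⟩
      have hoth : ∀ m, m ≠ Finsupp.single 2 d → coeff m (frG F M) ∈ adj k (Set.range (Sum.elim
          (fun m : {m : MonE d e // m.1 ≠ Finsupp.single 2 d} => coeff m.1.1 (frG F M))
          (Sum.elim μ fun i : Fin 3 => z i.succ))) := by
        intro m hm'
        by_cases hm : m.degree = d
        · by_cases he : e ∣ m 3
          · exact subset_adj _ _ ⟨Sum.inl ⟨⟨m, hm, he⟩, hm'⟩, rfl⟩
          · have h5 : coeff m (frG F M) = 0 := by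
              by_contra hcon
              exact he (hs' m hcon)
            rw [h5]
            exact zero_mem _
        · rw [hG.coeff_eq_zero hm]
          exact zero_mem _
      have htop := coeff_top (G := frG F M) (by
        rw [FrA.aeval_frG, hMdef, frH_line h1 μ 1 1]
        have h6 : (![1 * z 0, 1 * z 1, 1 * z 2, 1 * z 3] : Fin 4 → ℂ) = z := by
          ext i
          fin_cases i <;> simp
        rw [h6, hzF]) hoth
      have hEy : frE k F M ≤ adj k (Set.range (Sum.elim
          (fun m : {m : MonE d e // m.1 ≠ Finsupp.single 2 d} => coeff m.1.1 (frG F M))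
          (Sum.elim μ fun i : Fin 3 => z i.succ))) := by
        refine adj_le (hfrk ▸ hSy) ?_
        rintro _ ⟨m, rfl⟩
        change coeff m (frG F M) ∈ _
        by_cases hm' : m = Finsupp.single 2 d
        · rw [hm']
          exact htop
        · exact hoth m hm'
      intro i
      apply le_clo
      rcases i with x | x | o
      · exact subset_adj _ _ ⟨Sum.inr (Sum.inl x), rfl⟩
      · change ![z j.succ, z l.succ] x ∈ _
        fin_cases x
        · exact subset_adj _ _ ⟨Sum.inr (Sum.inr j), rfl⟩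
        · exact subset_adj _ _ ⟨Sum.inr (Sum.inr l), rfl⟩
      · exact hEy (FrA.cof_le_frE k F hdet (subset_adj _ _ ⟨o.1, rfl⟩))
    · have hc : Nat.card (MonE d e) =
          Nat.card {m : MonE d e // m.1 ≠ Finsupp.single 2 d} + 1 := by
        have he1 : e ∣ (Finsupp.single 2 d : Fin 4 →₀ ℕ) 3 := by simp
        let o : MonE d e := ⟨Finsupp.single 2 d, FrA.single_deg 2 d, he1⟩
        have h7 : ∀ m : MonE d e, m.1 ≠ Finsupp.single 2 d ↔ m ≠ o := fun m =>
          not_congr ⟨fun h => Subtype.ext h, fun h => congrArg Subtype.val h⟩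
        rw [Nat.card_congr (Equiv.subtypeEquivRight h7)]
        classical
        rw [← Finite.card_option]
        exact Nat.card_congr (Equiv.optionSubtypeNe o).symm
      rw [Nat.card_sum, Nat.card_sum, Nat.card_sum, Nat.card_sum, Nat.card_prod, hc]
      simp only [Nat.card_eq_fintype_card, Fintype.card_fin]
      omega
  have h5 := (FrA.algInd_sum.mp key).2
  rw [hfrk]
  exact h5

/-- `M = !![0, 0, 1, 0; μ₀₀, μ₀₁, z₁, 0; μ₁₀, μ₁₁, z₂, 0; 0, 0, 0, z₃]`, `μ` independent over
`cof k F (z)`; the count is `VGS.FrA.algInd_count` -/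
theorem exists_frameH (hd : 4 ≤ d) (he : e ∣ d) (hF : IsSmoothForm F d) (hs : IsSym e F) (k : Fl)
    [Countable k] (hind : AlgebraicIndependent k (fun m : MonE d e => coeff m.1 F))
    {z : Fin 4 → ℂ} (hz : z ≠ 0) (h1 : z 0 = 1)
    (hp : Projectivization.mk ℂ z hz ∈ Gen (cof k F) F) : ∃ M, FrameH k F d e z M := by
  have he0 : e ≠ 0 := by
    rintro rfl
    have := Nat.eq_zero_of_zero_dvd he
    omega
  have hcK : Countable (cof k F) := FrA.countable_cof k F
  have hFK : Coef (cof k F) F := FrA.coef_cof k F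
  have hzF : aeval z F = 0 := (mem_surf_mk hF.hom hz).mp hp.1
  have h3 : z 3 ≠ 0 := by
    obtain ⟨w, hw, hw1, hne, heq⟩ := gen_nrm hd hF hp 0
    obtain ⟨a, ha, h⟩ := (mk_eq_mk_iff_exists hz hw).1 heq
    rw [h 3]
    exact mul_ne_zero ha (hne 3)
  have hcr : Countable (Set.range z) := (Set.countable_range _).to_subtype
  have hcA : Countable (adj (cof k F) (Set.range z)) := countable_adj _ _
  obtain ⟨μ, hμ⟩ := exists_algInd22 (adj (cof k F) (Set.range z))
  obtain ⟨j, l, hj, hl, hjl, hi, -⟩ := gen_algInd hd hF (cof k F) hFK hz h1 hp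
  obtain ⟨j, rfl⟩ := Fin.exists_succ_eq.mpr hj
  obtain ⟨l, rfl⟩ := Fin.exists_succ_eq.mpr hl
  have hdet := frH_det_ne h3 hμ
  have hs' : IsSym e (frG F (frH z μ)) := by
    rw [frG_diag he0, FrA.frG_frG, frH_comm, ← FrA.frG_frG, (frG_diag he0).1 hs]
  refine ⟨frH z μ, hdet, h1, h3, hzF, fun a b => frH_line h1 μ a b, ?_, hs',
    frameH_ind he0 hF.hom hs hind h1 h3 hzF hi hμ hs', FrA.cof_le_frE k F hdet⟩
  intro i
  refine FrA.frk_le_frE k F _ ?_
  fin_cases i
  · have h4 := FrA.mem_frk k (frH z μ) 0 2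
    have h5 : frH z μ 0 2 = z 0 := by rw [h1]; rfl
    rwa [h5] at h4
  · exact FrA.mem_frk k (frH z μ) 1 2
  · exact FrA.mem_frk k (frH z μ) 2 2
  · exact FrA.mem_frk k (frH z μ) 3 3

end Pool.Agent.VGS.H
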