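import Pool.Agent.VGH.Split

/-! Module Line: the points of the line `Z₀ = Z₁ = 0`. -/

set_option autoImplicit false

open scoped LinearAlgebra.Projectivization
open MvPolynomial

namespace Pool.Agent.VGS.H

open Pool.Agent.LowDeg (surf IsSmoothForm)

variable {F : MvPolynomial (Fin 4) ℂ} {d e : ℕ} {z₀ : Fin 4 → ℂ}

/-! ### auxiliary facts -/

theorem line_transc {k : Fl} {M : Matrix (Fin 4) (Fin 4) ℂ} (hM : FrameH k F d e z₀ M)
    (hF : IsSmoothForm F d) {m₁ : Fin 4 →₀ ℕ} (h1 : m₁.degree = d) (h2 : e ∣ m₁ 3)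
    (h3 : m₁ ≠ Finsupp.single 2 d) :
    coeff m₁ (frG F M) ∉ clo (adj (frk k M)
      (Set.range fun m : {m : Fin 4 →₀ ℕ // m ≠ Finsupp.single 2 d ∧ m ≠ m₁} =>
        coeff m.1 (frG F M))) := by
  let i : {m : MonE d e // m.1 ≠ Finsupp.single 2 d} := ⟨⟨m₁, h1, h2⟩, h3⟩
  have h4 := hM.ind.transcendental_adjoin (s := {i}ᶜ) (i := i) (by simp)
  have h5 : coeff i.1.1 (frG F M) ∉ clo (adj (frk k M)
      ((fun m : {m : MonE d e // m.1 ≠ Finsupp.single 2 d} => coeff m.1.1 (frG F M)) ''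
        {i}ᶜ)) := by
    rw [mem_clo_adj]
    exact h4
  intro h6
  apply h5
  refine clo_mono ?_ h6
  refine adj_le (le_adj _ _) ?_
  rintro x ⟨⟨m, hm, hm'⟩, rfl⟩
  change coeff m (frG F M) ∈ _
  by_cases hdeg : m.degree = d
  · by_cases hm3 : e ∣ m 3
    · apply subset_adj
      refine ⟨⟨⟨m, hdeg, hm3⟩, hm⟩, ?_, rfl⟩
      intro h
      exact hm' (congrArg (fun t : {m : MonE d e // m.1 ≠ Finsupp.single 2 d} => t.1.1) h)
    · have h7 : coeff m (frG F M) = 0 := by
        by_contra h8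
        exact hm3 (hM.sym m h8)
      rw [h7]
      exact zero_mem _
  · rw [(as2_frG_hom hF M).coeff_eq_zero hdeg]
    exact zero_mem _

theorem line_vec_ne (w : ℂ) : (![0, 0, 1, w] : Fin 4 → ℂ) ≠ 0 := by
  intro h
  have := congrFun h 2
  simp at this

/-- (the coefficient of `X₃ ^ d` is not zero) -/
theorem line_coord (hd : 4 ≤ d) (he : e ∣ d) (hF : IsSmoothForm F d) {k : Fl}
    {M : Matrix (Fin 4) (Fin 4) ℂ} (hM : FrameH k F d e z₀ M) {z : Fin 4 → ℂ} (hz : z ≠ 0)
    (h0 : z 0 = 0) (h1 : z 1 = 0) (hq : mkP (M.mulVec z) ∈ surf F) :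
    ∃ w : ℂ, aeval ![0, 0, 1, w] (frG F M) = 0 ∧
      mkP (M.mulVec z) = mkP (M.mulVec ![0, 0, 1, w]) := by
  rw [as2_mem_surf hF hM.det hz] at hq
  have h2 : z 2 ≠ 0 := by
    intro h2
    have h3 : z 3 ≠ 0 := by
      intro h3
      apply hz
      funext i
      fin_cases i
      · exact h0
      · exact h1
      · exact h2
      · exact h3
    have h4 : z = z 3 • (Pi.single 3 1 : Fin 4 → ℂ) := by
      funext i
      fin_cases i <;> simp [h0, h1, h2]
    have h6 := aeval_scale (as2_frG_hom hF M) (z := z) (w := Pi.single 3 1)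
      (a := z 3) (fun i => congrFun h4 i)
    rw [hq, as2_aeval_single (as2_frG_hom hF M)] at h6
    rcases mul_eq_zero.1 h6.symm with h7 | h7
    · exact pow_ne_zero _ h3 h7
    · refine line_transc hM hF (m₁ := Finsupp.single 3 d) (by rw [Finsupp.degree_single])
        (by simpa using he) ?_ ?_
      · intro h
        have := DFunLike.congr_fun h 3
        simp at this
        omega
      · rw [h7]
        exact zero_mem _
  have h4 : z = z 2 • (![0, 0, 1, z 3 / z 2] : Fin 4 → ℂ) := by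
    funext i
    fin_cases i
    · simp [h0]
    · simp [h1]
    · simp
    · simp [mul_div_cancel₀ _ h2]
  refine ⟨z 3 / z 2, ?_, ?_⟩
  · have h6 := aeval_scale (as2_frG_hom hF M) (z := z) (w := ![0, 0, 1, z 3 / z 2])
      (a := z 2) (fun i => congrFun h4 i)
    rw [hq] at h6
    rcases mul_eq_zero.1 h6.symm with h7 | h7
    · exact absurd h7 (pow_ne_zero _ h2)
    · exact h7
  · rw [← as2_mkP_smul hM.det (line_vec_ne _) h2, ← h4]

/-- The points of the line outside the fibre of `z₀` are conjugate. `c₀`, `c₁` = coefficients of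
`X₂ ^ d` and `X₂ ^ (d - e) X₃ ^ e`, `k₂` = field of the others, `S` = the rest of `G (0,0,1,w)`;
`c₁ (w ^ e - 1) = S 1 - S w`, so `w` is transcendental over `k₂`; if `σ ∈ Fix k₂` maps `w` to `w'`
then `σ c₁ = c₁` -/
theorem line_conjH (hd : 4 ≤ d) (he : e ∣ d) (hF : IsSmoothForm F d) {k : Fl} [Countable k]
    {M : Matrix (Fin 4) (Fin 4) ℂ} (hM : FrameH k F d e z₀ M) {w w' : ℂ}
    (hw : aeval ![0, 0, 1, w] (frG F M) = 0) (hw' : aeval ![0, 0, 1, w'] (frG F M) = 0)
    (h1 : w ^ e ≠ 1) (h1' : w' ^ e ≠ 1) : ∃ σ ∈ Fix (frE k F M), σ w = w' := by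
  have he0 : e ≠ 0 := by
    rintro rfl
    exact h1 (pow_zero w)
  have hed : e ≤ d := Nat.le_of_dvd (by omega) he
  set m₁ : Fin 4 →₀ ℕ := Finsupp.single 2 (d - e) + Finsupp.single 3 e with hm₁
  have hm3 : m₁ 3 = e := by simp [hm₁]
  have hmdeg : m₁.degree = d := by
    rw [hm₁, map_add, Finsupp.degree_single, Finsupp.degree_single]
    omega
  have hmne : m₁ ≠ Finsupp.single 2 d := by
    intro h
    rw [h] at hm3
    simp at hm3
    exact he0 hm3.symm
  set G := frG F M with hG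
  set c₀ : ℂ := coeff (Finsupp.single 2 d) G with hc₀
  set c₁ : ℂ := coeff m₁ G with hc₁
  set k₂ : Fl := adj (frk k M)
      (Set.range fun m : {m : Fin 4 →₀ ℕ // m ≠ Finsupp.single 2 d ∧ m ≠ m₁} =>
        coeff m.1 (frG F M)) with hk₂
  have htr : c₁ ∉ clo k₂ := line_transc hM hF hmdeg (by rw [hm3]) hmne
  have hk1 : Countable (Set.range fun ij : Fin 4 × Fin 4 => M ij.1 ij.2) :=
    (Set.countable_range _).to_subtype
  have hk2 : Countable (Set.range fun m : {m : Fin 4 →₀ ℕ // m ≠ Finsupp.single 2 d ∧ m ≠ m₁} =>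
      coeff m.1 (frG F M)) := (Set.countable_range _).to_subtype
  have hk3 : Countable k₂ := by
    rw [hk₂]
    unfold frk
    infer_instance
  -- the rest
  set G' : MvPolynomial (Fin 4) ℂ := G - monomial (Finsupp.single 2 d) c₀ - monomial m₁ c₁
    with hG'
  have hcoef : Coef k₂ G' := by
    intro m
    rw [hG', coeff_sub, coeff_sub, coeff_monomial, coeff_monomial]
    by_cases hm : m = Finsupp.single 2 d
    · rw [if_pos hm.symm, hm, if_neg hmne, sub_self, sub_zero]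
      exact zero_mem _
    · by_cases hm' : m = m₁
      · rw [if_neg (Ne.symm hm), if_pos hm'.symm, hm', sub_zero, sub_self]
        exact zero_mem _
      · rw [if_neg (Ne.symm hm), if_neg (Ne.symm hm'), sub_zero, sub_zero]
        exact subset_adj _ _ ⟨⟨m, hm, hm'⟩, rfl⟩
  have hev : ∀ v : ℂ, aeval ![0, 0, 1, v] G = c₀ + c₁ * v ^ e + aeval ![0, 0, 1, v] G' := by
    intro v
    rw [hG', map_sub, map_sub, aeval_monomial, aeval_monomial, hm₁,
      Finsupp.prod_add_index' (by simp) (by intros; rw [pow_add]),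
      Finsupp.prod_single_index (by simp), Finsupp.prod_single_index (by simp),
      Finsupp.prod_single_index (by simp)]
    simp
  have hone : aeval (![0, 0, 1, 1] : Fin 4 → ℂ) G = 0 := by
    rw [hG, as2_aeval_frG, hM.line]
    have h2 : (![1 * z₀ 0, 1 * z₀ 1, 1 * z₀ 2, 1 * z₀ 3] : Fin 4 → ℂ) = z₀ := by
      funext i
      fin_cases i <;> simp
    rw [h2, hM.zero]
  have hS1 := hev 1
  rw [hone, one_pow, mul_one] at hS1
  have hrel : ∀ v : ℂ, aeval ![0, 0, 1, v] G = 0 →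
      c₁ * (v ^ e - 1) = aeval (![0, 0, 1, 1] : Fin 4 → ℂ) G' - aeval ![0, 0, 1, v] G' := by
    intro v hv
    have h2 := hev v
    rw [hv] at h2
    linear_combination hS1 - h2
  have hnot : ∀ v : ℂ, aeval ![0, 0, 1, v] G = 0 → v ^ e ≠ 1 → v ∉ clo k₂ := by
    intro v hv hv1 hmem
    apply htr
    have h2 := hrel v hv
    have h3 : ∀ u ∈ clo k₂, aeval ![0, 0, 1, u] G' ∈ clo k₂ := by
      intro u hu
      refine aeval_mem (hcoef.mono (le_clo _)) fun i => ?_
      fin_cases i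
      · exact zero_mem _
      · exact zero_mem _
      · exact one_mem _
      · exact hu
    have h4 : v ^ e - 1 ≠ 0 := sub_ne_zero.2 hv1
    have h5 : c₁ = (aeval (![0, 0, 1, 1] : Fin 4 → ℂ) G' - aeval ![0, 0, 1, v] G') / (v ^ e - 1) := by
      rw [eq_div_iff h4, h2]
    rw [h5]
    exact div_mem (sub_mem (h3 1 (one_mem _)) (h3 v hmem)) (sub_mem (pow_mem hmem _) (one_mem _))
  obtain ⟨σ, hσ, hσw⟩ := exists_fix_tr k₂ (hnot w hw h1) (hnot w' hw' h1')
  have hS : ∀ v : ℂ, σ (aeval ![0, 0, 1, v] G') = aeval ![0, 0, 1, σ v] G' := by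
    intro v
    rw [← aeval_fix hcoef hσ]
    congr 2
    funext i
    fin_cases i <;> simp
  have hσ1 : σ c₁ = c₁ := by
    have h2 := congrArg σ (hrel w hw)
    rw [map_mul, map_sub, map_pow, map_one, map_sub, hS, hS, map_one, hσw, ← hrel w' hw'] at h2
    exact mul_right_cancel₀ (sub_ne_zero.2 h1') h2
  have hσ0 : σ c₀ = c₀ := by
    have h2 : c₀ = -c₁ - aeval (![0, 0, 1, 1] : Fin 4 → ℂ) G' := by linear_combination -hS1
    rw [h2, map_sub, map_neg, hσ1, hS, map_one]
  refine ⟨σ, ?_, hσw⟩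
  unfold frE
  rw [mem_Fix_adj]
  refine ⟨Fix_mono (le_adj _ _) hσ, ?_⟩
  rintro x ⟨m, rfl⟩
  change σ (coeff m G) = coeff m G
  by_cases hm : m = Finsupp.single 2 d
  · rw [hm]
    exact hσ0
  · by_cases hm' : m = m₁
    · rw [hm']
      exact hσ1
    · exact hσ _ (subset_adj _ _ ⟨⟨m, hm, hm'⟩, rfl⟩)

end Pool.Agent.VGS.H
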