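import Mathlib

/-! Module Root: rational functions on the group of the roots of unity. -/

set_option autoImplicit false

namespace Pool.Agent.VGS.H

open Polynomial in
private theorem coeff_sumC {e : ℕ} (m : ℕ → ℚ) (i : ℕ) (hi : i < e) :
    (∑ i ∈ Finset.range e, C (m i) * X ^ i : ℚ[X]).coeff i = m i := by
  rw [finsetSum_coeff, Finset.sum_eq_single i]
  · simp
  · intro j _ hj
    rw [coeff_C_mul, coeff_X_pow, if_neg (Ne.symm hj), mul_zero]
  · intro h
    exact absurd (Finset.mem_range.mpr hi) h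

open Polynomial in
private theorem natDegree_sumC {e : ℕ} (he : 1 ≤ e) (m : ℕ → ℚ) :
    (∑ i ∈ Finset.range e, C (m i) * X ^ i : ℚ[X]).natDegree ≤ e - 1 := by
  refine natDegree_sum_le_of_forall_le _ _ fun i hi => ?_
  refine (natDegree_C_mul_X_pow_le _ _).trans ?_
  have := Finset.mem_range.mp hi
  omega

open Polynomial in
private theorem aeval_sumC {e : ℕ} (m : ℕ → ℚ) (z : ℂ) :
    aeval z (∑ i ∈ Finset.range e, C (m i) * X ^ i : ℚ[X]) =
      ∑ i ∈ Finset.range e, (m i : ℂ) * z ^ i := by
  simp [map_sum]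

/-- The case `d ≥ 5`. -/
private theorem root_const5 {d e : ℕ} (hd : 5 ≤ d) (he : e ∣ d) {ω : ℂ} (hω : IsPrimitiveRoot ω e)
    (m : ℕ → ℚ)
    (h : ∀ l ≤ d - 4, ∑ i ∈ Finset.range e, (m i : ℂ) * (ω ^ i) ^ (l + 1) = 0) :
    (e = d ∧ ∀ i < e, m i = m 0) ∨ ∀ i < e, m i = 0 := by
  have he1 : 1 ≤ e := Nat.one_le_iff_ne_zero.mpr fun h0 => by
    rw [h0, zero_dvd_iff] at he
    omega
  -- a divisor smaller than `d` is at most `d - 3`
  have hsmall : ∀ g n : ℕ, d = g * n → n ≠ 1 → g ≤ d - 3 := by
    intro g n hgn hn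
    rcases Nat.lt_or_ge n 2 with hn2 | hn2
    · have : n = 0 := by omega
      rw [this, mul_zero] at hgn
      omega
    · have h1 : g * 2 ≤ d := by
        rw [hgn]
        exact Nat.mul_le_mul_left g hn2
      rcases Nat.lt_or_ge d 6 with h6 | h6
      · have hd5 : d = 5 := by omega
        have h2 : g ∣ 5 := ⟨n, by omega⟩
        have h3 := (Nat.dvd_prime (by norm_num : Nat.Prime 5)).mp h2
        omega
      · omega
  set P : Polynomial ℚ := ∑ i ∈ Finset.range e, Polynomial.C (m i) * Polynomial.X ^ i with hP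
  have hroot : ∀ j, 1 ≤ j → j ≤ d - 3 → Polynomial.aeval (ω ^ j) P = 0 := by
    intro j h1 h2
    have h3 := h (j - 1) (by omega)
    rw [hP, aeval_sumC, ← h3]
    refine Finset.sum_congr rfl fun i _ => ?_
    rw [Nat.sub_add_cancel h1, ← pow_mul, ← pow_mul, mul_comm i j]
  rcases eq_or_ne e d with hed | hed
  · left
    refine ⟨hed, ?_⟩
    have hdvd : (∏ n ∈ d.divisors.erase 1, Polynomial.cyclotomic n ℚ) ∣ P := by
      refine Finset.prod_dvd_of_coprime ?_ ?_
      · intro a _ b _ hab
        exact Polynomial.cyclotomic.isCoprime_rat hab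
      · intro n hn
        obtain ⟨hn1, hn2⟩ := Finset.mem_erase.mp hn
        obtain ⟨g, hg⟩ := Nat.dvd_of_mem_divisors hn2
        have hg' : d = g * n := by rw [hg, mul_comm]
        have hn0 : 0 < n := Nat.pos_of_ne_zero fun h0 => by
          rw [h0, zero_mul] at hg
          omega
        have hg0 : 1 ≤ g := Nat.one_le_iff_ne_zero.mpr fun h0 => by
          rw [h0, mul_zero] at hg
          omega
        have hprim : IsPrimitiveRoot (ω ^ g) n := by
          refine IsPrimitiveRoot.pow (n := d) (by omega) ?_ hg'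
          rwa [← hed]
        rw [Polynomial.cyclotomic_eq_minpoly_rat hprim hn0]
        exact minpoly.dvd ℚ _ (hroot g hg0 (hsmall g n hg' hn1))
    rw [Polynomial.prod_cyclotomic_eq_geom_sum (by omega) ℚ] at hdvd
    obtain ⟨R, hR⟩ := hdvd
    rcases eq_or_ne P 0 with hP0 | hP0
    · intro i hi
      have h1 : ∀ j < e, m j = 0 := fun j hj => by
        rw [← coeff_sumC m j hj, ← hP, hP0, Polynomial.coeff_zero]
      rw [h1 i hi, h1 0 (by omega)]
    · have hS0 : (∑ i ∈ Finset.range d, (Polynomial.X : Polynomial ℚ) ^ i) ≠ 0 := by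
        intro h0
        rw [h0, zero_mul] at hR
        exact hP0 hR
      have hR0 : R ≠ 0 := by
        rintro rfl
        rw [mul_zero] at hR
        exact hP0 hR
      have hScoeff : ∀ i < d, (∑ i ∈ Finset.range d, (Polynomial.X : Polynomial ℚ) ^ i).coeff i =
          1 := by
        intro i hi
        rw [Polynomial.finsetSum_coeff, Finset.sum_eq_single i]
        · simp
        · intro j _ hj
          rw [Polynomial.coeff_X_pow, if_neg (Ne.symm hj)]
        · intro h0
          exact absurd (Finset.mem_range.mpr hi) h0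
      have hSdeg : d - 1 ≤ (∑ i ∈ Finset.range d, (Polynomial.X : Polynomial ℚ) ^ i).natDegree :=
        Polynomial.le_natDegree_of_ne_zero (by
          rw [hScoeff (d - 1) (by omega)]
          exact one_ne_zero)
      have hPdeg : P.natDegree ≤ e - 1 := natDegree_sumC he1 m
      have hRdeg : R.natDegree = 0 := by
        rw [hR, Polynomial.natDegree_mul hS0 hR0] at hPdeg
        omega
      have hRc := Polynomial.eq_C_of_natDegree_eq_zero hRdeg
      have hco : ∀ i < e, m i = R.coeff 0 := by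
        intro i hi
        rw [← coeff_sumC m i hi, ← hP, hR, hRc, Polynomial.coeff_mul_C, hScoeff i (by omega),
          one_mul, Polynomial.coeff_C_zero]
      intro i hi
      rw [hco i hi, hco 0 (by omega)]
  · right
    obtain ⟨n, hn⟩ := he
    have hn1 : n ≠ 1 := by
      rintro rfl
      exact hed (by omega)
    have hle := hsmall e n hn hn1
    have hP0 : P.map (algebraMap ℚ ℂ) = 0 := by
      refine Polynomial.eq_zero_of_natDegree_lt_card_of_eval_eq_zero _
        (f := fun j : Fin e => ω ^ ((j : ℕ) + 1)) ?_ ?_ ?_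
      · intro a b hab
        have hab' : ω ^ (a : ℕ) * ω = ω ^ (b : ℕ) * ω := by
          rw [← pow_succ, ← pow_succ]
          exact hab
        have := mul_right_cancel₀ (hω.ne_zero (by omega)) hab'
        exact Fin.ext (hω.pow_inj a.2 b.2 this)
      · intro j
        rw [Polynomial.eval_map_algebraMap]
        exact hroot _ (by omega) (by have := j.2; omega)
      · rw [Fintype.card_fin]
        have := natDegree_sumC he1 m
        have h2 := Polynomial.natDegree_map_le (p := P) (f := algebraMap ℚ ℂ)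
        rw [← hP] at this
        omega
    have hP1 : P = 0 := (Polynomial.map_eq_zero_iff (algebraMap ℚ ℂ).injective).mp hP0
    intro i hi
    rw [← coeff_sumC m i hi, ← hP, hP1, Polynomial.coeff_zero]

/-- `P = ∑ m_i X ^ i`. If `e < d`, `d ≥ 5`, then `e ≤ d - 3` and all `ω ^ j` are zeros of `P`. If
`e = d ≥ 5` then the `ω ^ g`, `g ∣ d`, `g < d`, are zeros of `P` (`g ≤ d / 2 ≤ d - 3`), so all
cyclotomic polynomials of order `≠ 1` divide `P`. If `d = 4` then `P ω = 0`. -/
theorem root_const {d e : ℕ} (hd : 4 ≤ d) (he : e ∣ d) {ω : ℂ} (hω : IsPrimitiveRoot ω e)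
    (m : ℕ → ℚ)
    (h : ∀ l ≤ d - 4, ∑ i ∈ Finset.range e, (m i : ℂ) * (ω ^ i) ^ (l + 1) = 0) :
    (∀ i < e, m i = 0) ∨ (5 ≤ d ∧ e = d ∧ ∀ i < e, m i = m 0) ∨
      (d = 4 ∧ e = 2 ∧ m 1 = m 0) ∨ (d = 4 ∧ e = 4 ∧ m 2 = m 0 ∧ m 3 = m 1) := by
  rcases Nat.lt_or_ge d 5 with h5 | h5
  · have hd4 : d = 4 := by omega
    subst hd4
    have h0 := h 0 (by omega)
    simp only [zero_add, pow_one] at h0
    have hle : e ≤ 4 := Nat.le_of_dvd (by norm_num) he
    have hcases : e = 1 ∨ e = 2 ∨ e = 4 := by
      interval_cases e <;> simp_all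
    rcases hcases with rfl | rfl | rfl
    · left
      intro i hi
      have hi0 : i = 0 := by omega
      subst hi0
      simpa using h0
    · right; right; left
      refine ⟨rfl, rfl, ?_⟩
      have hm1 : ω = -1 := by
        have h2 := hω.pow_eq_one
        have h3 : ω ≠ 1 := hω.ne_one (by norm_num)
        have h4 : (ω - 1) * (ω + 1) = 0 := by linear_combination h2
        rcases mul_eq_zero.mp h4 with h5 | h5
        · exact absurd (sub_eq_zero.mp h5) h3
        · exact eq_neg_of_add_eq_zero_left h5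
      rw [Finset.sum_range_succ, Finset.sum_range_one, hm1, pow_zero, pow_one, mul_one,
        mul_neg_one, ← sub_eq_add_neg, sub_eq_zero] at h0
      exact_mod_cast h0.symm
    · right; right; right
      have h2 : ω ^ 2 = -1 := by
        have h3 := hω.pow_eq_one
        have h4 : ω ^ 2 ≠ 1 := hω.pow_ne_one_of_pos_of_lt (by norm_num) (by norm_num)
        have h5 : (ω ^ 2 - 1) * (ω ^ 2 + 1) = 0 := by linear_combination h3
        rcases mul_eq_zero.mp h5 with h6 | h6
        · exact absurd (sub_eq_zero.mp h6) h4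
        · exact eq_neg_of_add_eq_zero_left h6
      rw [Finset.sum_range_succ, Finset.sum_range_succ, Finset.sum_range_succ,
        Finset.sum_range_one] at h0
      have h3 : ((m 1 : ℂ) - m 3) * ω = (m 2 : ℂ) - m 0 := by
        linear_combination h0 - ((m 2 : ℂ) + (m 3 : ℂ) * ω) * h2
      have h4 : -(((m 1 : ℂ) - m 3) ^ 2) = ((m 2 : ℂ) - m 0) ^ 2 := by
        rw [← h3, mul_pow, h2]
        ring
      have h5 : -((m 1 - m 3) ^ 2) = (m 2 - m 0) ^ 2 := by
        exact_mod_cast h4
      have h6 : (m 1 - m 3) ^ 2 = 0 := by nlinarith [sq_nonneg (m 1 - m 3), sq_nonneg (m 2 - m 0)]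
      have h7 : (m 2 - m 0) ^ 2 = 0 := by nlinarith [sq_nonneg (m 1 - m 3), sq_nonneg (m 2 - m 0)]
      have h8 := pow_eq_zero_iff (two_ne_zero) |>.mp h6
      have h9 := pow_eq_zero_iff (two_ne_zero) |>.mp h7
      exact ⟨rfl, rfl, by linarith, by linarith⟩
  · rcases root_const5 h5 he hω m h with ⟨h1, h2⟩ | h1
    · exact Or.inr (Or.inl ⟨h5, h1, h2⟩)
    · exact Or.inl h1

end Pool.Agent.VGS.H
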