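import Pool.Agent.VGH.Defs
import Pool.Agent.VGS.Smooth

/-! Module Smooth: symmetric forms with independent coefficients are smooth; the ground field. -/

set_option autoImplicit false

open scoped LinearAlgebra.Projectivization
open MvPolynomial

namespace Pool.Agent.VGS.H

open Pool.Agent.LowDeg (surf IsSmoothForm)

variable {F : MvPolynomial (Fin 4) ℂ} {d e : ℕ}

/-- (port of `VGS.smooth_of_algInd`: specialise to the Fermat form) -/
theorem smooth_of_indE (hd : 1 ≤ d) (he : e ∣ d) (hF : F.IsHomogeneous d) (hs : IsSym e F)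
    (hind : AlgebraicIndependent ℚ (fun m : MonE d e => coeff m.1 F)) : IsSmoothForm F d := by
  classical
  refine ⟨hF, fun x hx _ => ?_⟩
  by_contra hcon
  push Not at hcon
  let c : MonE d e → ℚ :=
    fun m => if ∃ i, m.1 = Finsupp.single i d then 1 else 0
  obtain ⟨V, hVq, -, hVc⟩ := exists_val_rat hind c
  -- the coordinate of largest valuation
  obtain ⟨i₀, -, hi₀⟩ := Finset.exists_max_image Finset.univ (fun i => V.valuation (x i))
    ⟨0, Finset.mem_univ _⟩
  have hxi : x i₀ ≠ 0 := by
    intro h
    apply hx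
    funext i
    have h1 := hi₀ i (Finset.mem_univ i)
    rw [h, map_zero] at h1
    have h2 : V.valuation (x i) = 0 := le_antisymm h1 zero_le
    rw [map_eq_zero] at h2
    exact h2
  set y : Fin 4 → ℂ := fun i => (x i₀)⁻¹ * x i with hy
  have hyV : ∀ i, V.valuation (y i) ≤ 1 := by
    intro i
    have h1 := hi₀ i (Finset.mem_univ i)
    have h2 : V.valuation (x i₀) ≠ 0 := by rwa [Valuation.ne_zero_iff]
    rw [hy]
    beta_reduce
    rw [map_mul, map_inv₀]
    calc (V.valuation (x i₀))⁻¹ * V.valuation (x i) ≤
        (V.valuation (x i₀))⁻¹ * V.valuation (x i₀) := by gcongr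
      _ = 1 := inv_mul_cancel₀ h2
  have hy1 : y i₀ = 1 := inv_mul_cancel₀ hxi
  -- the partial derivative vanishes at `y`
  have hdy : aeval y (pderiv i₀ F) = 0 := by
    have h1 : (pderiv i₀ F).IsHomogeneous (d - 1) := hF.pderiv
    have h2 : aeval y (pderiv i₀ F) = (x i₀)⁻¹ ^ (d - 1) * aeval x (pderiv i₀ F) :=
      aeval_scale h1 (fun i => rfl)
    rw [h2, hcon i₀, mul_zero]
  -- the Fermat form
  set G : MvPolynomial (Fin 4) ℂ := ∑ i, X i ^ d with hG
  have hdG : aeval y (pderiv i₀ G) = (d : ℂ) := by
    rw [hG, map_sum, map_sum, Finset.sum_eq_single i₀]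
    · rw [Derivation.leibniz_pow, pderiv_X_self]
      simp [hy1]
    · intro i _ hi
      rw [Derivation.leibniz_pow, pderiv_X_of_ne hi]
      simp
    · intro h
      exact absurd (Finset.mem_univ _) h
  have hcoef : ∀ m, V.valuation (coeff m (F - G)) < 1 := by
    intro m
    by_cases hm : m.degree = d ∧ e ∣ m 3
    · have h1 : coeff m G = (c ⟨m, hm⟩ : ℂ) := by
        rw [hG, coeff_sum]
        simp only [coeff_X_pow]
        by_cases h2 : ∃ i, m = Finsupp.single i d
        · obtain ⟨j, rfl⟩ := h2
          have h3 : c ⟨Finsupp.single j d, hm⟩ = 1 := if_pos ⟨j, rfl⟩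
          rw [h3, Finset.sum_eq_single j]
          · simp
          · intro i _ hij
            rw [if_neg]
            intro h4
            exact hij ((Finsupp.single_left_inj (by omega)).mp h4)
          · intro h
            exact absurd (Finset.mem_univ _) h
        · have h3 : c ⟨m, hm⟩ = 0 := if_neg h2
          rw [h3, Finset.sum_eq_zero]
          · simp
          · intro i _
            rw [if_neg]
            intro h4
            exact h2 ⟨i, h4.symm⟩
      rw [coeff_sub, h1]
      exact hVc ⟨m, hm⟩
    · have h1 : coeff m F = 0 := by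
        by_contra h2
        apply hm
        refine ⟨?_, hs m h2⟩
        have := hF h2
        rw [← this]
        simp [Finsupp.degree, Finsupp.weight_apply, Finsupp.sum]
      have h2 : coeff m G = 0 := by
        rw [hG, coeff_sum]
        refine Finset.sum_eq_zero (fun i _ => ?_)
        rw [coeff_X_pow, if_neg]
        rintro rfl
        refine hm ⟨Finsupp.degree_single _ _, ?_⟩
        rw [Finsupp.single_apply]
        split_ifs
        · exact he
        · exact dvd_zero e
      rw [coeff_sub, h1, h2, sub_zero, map_zero]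
      exact zero_lt_one
  have hnat := val_nat_le V
  have hlt : V.valuation (aeval y (pderiv i₀ (F - G))) < 1 := val_pderiv_lt V hcoef hyV i₀
  have hd1 : V.valuation (d : ℂ) = 1 := by
    refine le_antisymm (hnat d) ?_
    have h2 := hVq ((d : ℚ)⁻¹)
    rw [← V.valuation_le_one_iff] at h2
    have h3 : (((d : ℚ)⁻¹ : ℚ) : ℂ) = (d : ℂ)⁻¹ := by push_cast; rfl
    rw [h3, map_inv₀] at h2
    have h4 : V.valuation (d : ℂ) ≠ 0 := by
      rw [Valuation.ne_zero_iff]
      exact_mod_cast (by omega : d ≠ 0)
    exact (inv_le_one₀ (zero_lt_iff.mpr h4)).mp h2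
  have hfin : aeval y (pderiv i₀ (F - G)) = - (d : ℂ) := by
    rw [map_sub, map_sub, hdy, hdG, zero_sub]
  rw [hfin, Valuation.map_neg, hd1] at hlt
  exact lt_irrefl _ hlt

/-- (port of `VGS.exists_ground`) -/
theorem exists_groundE (hind : AlgebraicIndependent ℚ (fun m : MonE d e => coeff m.1 F))
    (S : Finset ℂ) :
    ∃ k : Fl, Countable k ∧ clo k = k ∧
      AlgebraicIndependent k (fun m : MonE d e => coeff m.1 F) ∧
      ∀ x ∈ S, x ∈ clo (adj k (Set.range fun m => coeff m F)) := by
  classical
  induction S using Finset.induction_on with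
  | empty =>
    have : Countable (⊥ : Fl) := by
      have h1 : Function.Surjective (algebraMap ℚ (⊥ : Fl)) := by
        rintro ⟨x, hx⟩
        rw [IntermediateField.mem_bot] at hx
        obtain ⟨q, rfl⟩ := hx
        exact ⟨q, rfl⟩
      exact h1.countable
    refine ⟨clo ⊥, inferInstance, clo_clo _, ?_, fun x hx => absurd hx (Finset.notMem_empty x)⟩
    rw [ai_clo, ai_bot]
    exact hind
  | insert x S _ ih =>
    obtain ⟨k, hk, hkc, hki, hkS⟩ := ih
    set a : MonE d e → ℂ := fun m => coeff m.1 F with ha
    have hsub : Set.range a ⊆ Set.range fun m => coeff m F := by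
      rintro _ ⟨m, rfl⟩
      exact ⟨m.1, rfl⟩
    by_cases hx : x ∈ clo (adj k (Set.range a))
    · refine ⟨k, hk, hkc, hki, fun z hz => ?_⟩
      rw [Finset.mem_insert] at hz
      rcases hz with rfl | hz
      · exact clo_mono (adj_le (le_adj _ _) (hsub.trans (subset_adj _ _))) hx
      · exact hkS z hz
    · refine ⟨clo (adj k {x}), inferInstance, clo_clo _, ?_, fun z hz => ?_⟩
      · rw [ai_clo]
        have h1 : AlgebraicIndependent (adj k (Set.range a)) (fun _ : Unit => x) := by
          rw [algebraicIndependent_unique_type_iff]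
          rw [mem_clo] at hx
          exact hx
        have h2 : AlgebraicIndependent k (Sum.elim a (fun _ : Unit => x)) := ai_sum.mpr ⟨hki, h1⟩
        have h3 : AlgebraicIndependent k (Sum.elim (fun _ : Unit => x) a) := by
          have h4 := (algebraicIndependent_equiv' (Equiv.sumComm Unit (MonE d e))
            (f := Sum.elim a (fun _ : Unit => x)) (g := Sum.elim (fun _ : Unit => x) a) (by
              ext i
              cases i <;> rfl)).mpr h2
          exact h4
        have h5 := (ai_sum.mp h3).2
        rwa [Set.range_const] at h5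
      · rw [Finset.mem_insert] at hz
        rcases hz with rfl | hz
        · exact le_clo _ (le_adj _ _ (le_clo _ (subset_adj _ _ rfl)))
        · refine clo_mono (adj_le ?_ (subset_adj _ _)) (hkS z hz)
          exact ((le_adj k {x}).trans (le_clo _)).trans (le_adj _ _)

/-- (port of `VGS.cof_eq_adj`) -/
private theorem cof_eq_adjE (hF : F.IsHomogeneous d) (hs : IsSym e F) (k : Fl) :
    cof k F = adj k (Set.range fun m : MonE d e => coeff m.1 F) := by
  apply le_antisymm
  · refine adj_le (le_adj _ _) ?_
    rintro _ ⟨m, rfl⟩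
    change coeff m F ∈ _
    by_cases h0 : coeff m F = 0
    · rw [h0]
      exact zero_mem _
    · by_cases h : m.degree = d
      · exact subset_adj _ _ ⟨⟨m, h, hs m h0⟩, rfl⟩
      · exact absurd (hF.coeff_eq_zero h) h0
  · refine adj_le (le_adj _ _) ?_
    rintro _ ⟨m, rfl⟩
    exact subset_adj _ _ ⟨m.1, rfl⟩

/-- (port of `VGS.ind_adj`, with `VGS.cof_eq_adj`) -/
theorem ind_adjE (hF : F.IsHomogeneous d) (hs : IsSym e F) (k : Fl)
    (hind : AlgebraicIndependent k (fun m : MonE d e => coeff m.1 F))
    {n : ℕ} {t : Fin n → ℂ} (ht : AlgebraicIndependent (cof k F) t) :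
    AlgebraicIndependent (adj k (Set.range t)) (fun m : MonE d e => coeff m.1 F) := by
  rw [cof_eq_adjE hF hs] at ht
  have h1 := ai_sum.2 ⟨hind, ht⟩
  have h2 : AlgebraicIndependent k (Sum.elim t (fun m : MonE d e => coeff m.1 F)) := by
    refine (algebraicIndependent_equiv' (Equiv.sumComm (Fin n) _) (f := Sum.elim
      (fun m : MonE d e => coeff m.1 F) t) ?_).2 h1
    ext (i | i) <;> rfl
  exact (ai_sum.1 h2).2

end Pool.Agent.VGS.H
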