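import Pool.Agent.VGH.Defs

/-! Module TauH: two-forms and the homology. -/

set_option autoImplicit false

open scoped LinearAlgebra.Projectivization
open MvPolynomial

namespace Pool.Agent.VGS.H

open Pool.Agent.LowDeg (surf IsSmoothForm)

variable {F : MvPolynomial (Fin 4) ℂ} {d e : ℕ}

private theorem aeval_aux {G : MvPolynomial (Fin 4) ℂ} {a : ℕ} (hG : ∀ m, coeff m G ≠ 0 → e ∣ m 3 + a)
    {ω : ℂ} (hω : ω ^ e = 1) (z : Fin 4 → ℂ) : ω ^ a * aeval (scv ω z) G = aeval z G := by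
  rw [aeval_def, aeval_def, eval₂_eq', eval₂_eq', Finset.mul_sum]
  refine Finset.sum_congr rfl fun m hm => ?_
  obtain ⟨k, hk⟩ := hG m (mem_support_iff.1 hm)
  have h1 : ω ^ (m 3) * ω ^ a = 1 := by rw [← pow_add, hk, pow_mul, hω, one_pow]
  rw [Fin.prod_univ_four, Fin.prod_univ_four]
  have e0 : scv ω z 0 = z 0 := rfl
  have e1 : scv ω z 1 = z 1 := rfl
  have e2 : scv ω z 2 = z 2 := rfl
  have e3 : scv ω z 3 = ω * z 3 := rfl
  rw [e0, e1, e2, e3, mul_pow]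
  linear_combination (algebraMap ℂ ℂ (coeff m G) * (z 0 ^ m 0 * z 1 ^ m 1 * z 2 ^ m 2 * z 3 ^ m 3)) * h1

theorem aeval_scv (hs : IsSym e F) {ω : ℂ} (hω : ω ^ e = 1) (z : Fin 4 → ℂ) :
    aeval (scv ω z) F = aeval z F := by
  have h := aeval_aux (G := F) (a := 0) (fun m hm => by simpa using hs m hm) hω z
  rwa [pow_zero, one_mul] at h

private theorem pderiv_sym (hs : IsSym e F) {i : Fin 4} (hi : i ≠ 3) : IsSym e (pderiv i F) := by
  intro m hm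
  rw [coeff_pderiv] at hm
  have h := hs _ (left_ne_zero_of_mul hm)
  rwa [Finsupp.add_apply, Finsupp.single_eq_of_ne hi.symm, add_zero] at h

private theorem pderiv_sym3 (hs : IsSym e F) (m : Fin 4 →₀ ℕ) (hm : coeff m (pderiv 3 F) ≠ 0) :
    e ∣ m 3 + 1 := by
  rw [coeff_pderiv] at hm
  have h := hs _ (left_ne_zero_of_mul hm)
  rwa [Finsupp.add_apply, Finsupp.single_eq_same] at h

private theorem dFc_scv (hs : IsSym e F) {ω : ℂ} (hω : ω ^ e = 1) (z v : Fin 4 → ℂ) :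
    dFc F (scv ω z) (scv ω v) = dFc F z v := by
  have h3 := aeval_aux (G := pderiv 3 F) (a := 1) (pderiv_sym3 hs) hω z
  rw [pow_one] at h3
  unfold dFc
  rw [Fin.sum_univ_four, Fin.sum_univ_four, aeval_scv (pderiv_sym hs (i := 0) (by decide)) hω,
    aeval_scv (pderiv_sym hs (i := 1) (by decide)) hω,
    aeval_scv (pderiv_sym hs (i := 2) (by decide)) hω]
  have e0 : scv ω v 0 = v 0 := rfl
  have e1 : scv ω v 1 = v 1 := rfl
  have e2 : scv ω v 2 = v 2 := rfl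
  have e3 : scv ω v 3 = ω * v 3 := rfl
  rw [e0, e1, e2, e3]
  linear_combination v 3 * h3

private theorem det4_scv (ω : ℂ) (a b c d : Fin 4 → ℂ) :
    LowDeg.det4 (scv ω a) (scv ω b) (scv ω c) (scv ω d) = ω * LowDeg.det4 a b c d := by
  rw [LowDeg.SmoothExtAux.det4_expand, LowDeg.SmoothExtAux.det4_expand]
  have e0 : ∀ v : Fin 4 → ℂ, scv ω v 0 = v 0 := fun _ => rfl
  have e1 : ∀ v : Fin 4 → ℂ, scv ω v 1 = v 1 := fun _ => rfl
  have e2 : ∀ v : Fin 4 → ℂ, scv ω v 2 = v 2 := fun _ => rfl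
  have e3 : ∀ v : Fin 4 → ℂ, scv ω v 3 = ω * v 3 := fun _ => rfl
  simp only [e0, e1, e2, e3]
  ring

private theorem der_scv {L : Fl} {D : Derivation ℤ ℂ ℂ} (h : Kills L D) {ω : ℂ} (hω : ω ∈ L)
    (z : Fin 4 → ℂ) : (fun i => D (scv ω z i)) = scv ω (fun i => D (z i)) := by
  funext i
  have h1 : D (ω * z 3) = ω * D (z 3) := by
    rw [Derivation.leibniz, h ω hω, smul_zero, add_zero, smul_eq_mul]
  fin_cases i
  · rfl
  · rfl
  · rfl
  · exact h1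

private theorem scv_ne {ω : ℂ} (hω : ω ≠ 0) {z : Fin 4 → ℂ} (hz : z ≠ 0) : scv ω z ≠ 0 := by
  intro h
  apply hz
  have h0 : z 0 = 0 := congrFun h 0
  have h1 : z 1 = 0 := congrFun h 1
  have h2 : z 2 = 0 := congrFun h 2
  have h3 : ω * z 3 = 0 := congrFun h 3
  have h3' : z 3 = 0 := (mul_eq_zero.1 h3).resolve_left hω
  funext i
  fin_cases i
  · exact h0
  · exact h1
  · exact h2
  · exact h3'

private theorem hom_mon {l : ℕ} (hl : l ≤ d - 4) :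
    (X 0 ^ (d - 4 - l) * X 3 ^ l : MvPolynomial (Fin 4) ℂ).IsHomogeneous (d - 4) := by
  have h1 := (isHomogeneous_X ℂ (0 : Fin 4)).pow (d - 4 - l)
  have h2 := (isHomogeneous_X ℂ (3 : Fin 4)).pow l
  have h := h1.mul h2
  rwa [one_mul, one_mul, Nat.sub_add_cancel hl] at h

/-- `Res (Ω / F)` at `scv ω z` is `ω` times its value at `z` -/
theorem tau_scv (hd : 4 ≤ d) (hF : IsSmoothForm F d) (hs : IsSym e F) {L : Fl} (hFL : Coef L F)
    {D₁ D₂ : Derivation ℤ ℂ ℂ} (h₁ : Kills L D₁) (h₂ : Kills L D₂) {ω : ℂ} (hω : ω ^ e = 1)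
    (hωL : ω ∈ L) (hω0 : ω ≠ 0) {z : Fin 4 → ℂ} (hz : z ≠ 0) (hzF : aeval z F = 0) {l : ℕ}
    (hl : l ≤ d - 4) :
    tau F D₁ D₂ (X 0 ^ (d - 4 - l) * X 3 ^ l) (mkP (scv ω z)) =
      ω ^ (l + 1) * tau F D₁ D₂ (X 0 ^ (d - 4 - l) * X 3 ^ l) (mkP z) := by
  obtain ⟨J, hJ⟩ := exists_isResC hd hF hFL h₁ h₂ hz hzF
  have hz' := scv_ne hω0 hz
  have hzF' : aeval (scv ω z) F = 0 := by rw [aeval_scv hs hω, hzF]
  have hJ' : IsResC F D₁ D₂ (scv ω z) (ω * J) := by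
    intro v
    have hv : v = scv ω (scv ω⁻¹ v) := by
      funext i
      fin_cases i
      · rfl
      · rfl
      · rfl
      · change v 3 = ω * (ω⁻¹ * v 3)
        rw [mul_inv_cancel_left₀ hω0]
    rw [der_scv h₁ hωL, der_scv h₂ hωL, hv, det4_scv, dFc_scv hs hω, hJ, mul_assoc]
  rw [mkP_eq hz', mkP_eq hz, tau_eq hd hF hFL h₁ h₂ hz' hzF' (hom_mon hl) hJ',
    tau_eq hd hF hFL h₁ h₂ hz hzF (hom_mon hl) hJ]
  simp only [map_mul, map_pow, aeval_X]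
  have e0 : scv ω z 0 = z 0 := rfl
  have e3 : scv ω z 3 = ω * z 3 := rfl
  rw [e0, e3, mul_pow, pow_succ]
  ring

theorem tau_ne (hd : 4 ≤ d) (hF : IsSmoothForm F d) {L : Fl} (hFL : Coef L F)
    {D₁ D₂ : Derivation ℤ ℂ ℂ} (h₁ : Kills L D₁) (h₂ : Kills L D₂) {z : Fin 4 → ℂ}
    (h1 : z 0 = 1) (h3 : z 3 ≠ 0) (hzF : aeval z F = 0)
    (h : tau F D₁ D₂ (X 0 ^ (d - 4)) (mkP z) ≠ 0) {l : ℕ} (hl : l ≤ d - 4) :
    tau F D₁ D₂ (X 0 ^ (d - 4 - l) * X 3 ^ l) (mkP z) ≠ 0 := by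
  have hz : z ≠ 0 := by
    intro h0
    rw [h0] at h3
    exact h3 rfl
  obtain ⟨J, hJ⟩ := exists_isResC hd hF hFL h₁ h₂ hz hzF
  have hh : (X 0 ^ (d - 4) : MvPolynomial (Fin 4) ℂ).IsHomogeneous (d - 4) := by
    have := (isHomogeneous_X ℂ (0 : Fin 4)).pow (d - 4)
    rwa [one_mul] at this
  rw [mkP_eq hz, tau_eq hd hF hFL h₁ h₂ hz hzF hh hJ] at h
  rw [mkP_eq hz, tau_eq hd hF hFL h₁ h₂ hz hzF (hom_mon hl) hJ]
  have hJ0 := right_ne_zero_of_mul h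
  refine mul_ne_zero ?_ hJ0
  simp only [map_mul, map_pow, aeval_X]
  rw [h1, one_pow, one_mul]
  exact pow_ne_zero _ h3

end Pool.Agent.VGS.H
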