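import Pool.Agent.VGH.AsmH
import Pool.Agent.VGH.Frame
import Pool.Agent.VGH.Smooth
import Pool.Agent.VGH.TauH
import Pool.Agent.VGH.Root
import Pool.Agent.VGH.Dp

/-! Module S1H: invariant correspondences which are zero on two-forms. -/

set_option autoImplicit false

open scoped LinearAlgebra.Projectivization
open MvPolynomial

namespace Pool.Agent.VGS.H

open Pool.Agent.LowDeg (surf IsSmoothForm)

variable {F : MvPolynomial (Fin 4) ℂ} {d e : ℕ}

/-- the cycle `∑ m_i [ω ^ i z]` -/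
private noncomputable def fib (e : ℕ) (ω : ℂ) (m : ℕ → ℚ) (z : Fin 4 → ℂ) : Cy :=
  ∑ i ∈ Finset.range e, m i • Finsupp.single (mkP (scv (ω ^ i) z)) (1 : ℚ)

private theorem ne_of_one {z : Fin 4 → ℂ} (h1 : z 0 = 1) : z ≠ 0 := by
  rintro rfl
  exact zero_ne_one h1

private theorem scv_ne {c : ℂ} {z : Fin 4 → ℂ} (h1 : z 0 = 1) : scv c z ≠ 0 := by
  intro h
  have := congrFun h 0
  simp only [scv, Matrix.cons_val_zero, Pi.zero_apply, h1] at this
  exact one_ne_zero this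

private theorem top_ne (he : e ∣ d) {k : Fl}
    (hind : AlgebraicIndependent k (fun m : MonE d e => coeff m.1 F)) :
    coeff (Finsupp.single 3 d) F ≠ 0 :=
  hind.ne_zero ⟨Finsupp.single 3 d, Finsupp.degree_single _ _, by rwa [Finsupp.single_eq_same]⟩

/-- the formula at one point -/
private theorem local_formula (hd : 4 ≤ d) (he : e ∣ d) (hF : IsSmoothForm F d) (hs : IsSym e F)
    (k : Fl) [Countable k] (hind : AlgebraicIndependent k (fun m : MonE d e => coeff m.1 F))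
    {ω : ℂ} (hω : IsPrimitiveRoot ω e)
    {α : PP → Cy} (hα : ∀ p ∈ Gen (cof k F) F, α p ∈ TZ (cof k F) F d)
    (ha : ∀ σ ∈ Fix (cof k F), ∀ p ∈ Gen (cof k F) F, α (act σ p) = actC σ (α p))
    {z : Fin 4 → ℂ} (hz : z ≠ 0) (h1 : z 0 = 1)
    (hp : Projectivization.mk ℂ z hz ∈ Gen (cof k F) F) :
    ∃ (m : ℕ → ℚ) (a : ℚ),
      α (Projectivization.mk ℂ z hz) - fib e ω m z - a • cycQ (Ls F z) ∈ ratQ F := by
  obtain ⟨M, hM⟩ := exists_frameH hd he hF hs k hind hz h1 hp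
  have hcE : Countable (frE k F M) := asm_countable_frE k F M
  have hE : adjP (cof k F) (Projectivization.mk ℂ z hz) ≤ frE k F M := by
    rw [adjP_mk hz h1]
    refine adj_le hM.le ?_
    rintro _ ⟨i, rfl⟩
    exact hM.mem i
  have hαp : ∀ τ ∈ Fix (adjP (cof k F) (Projectivization.mk ℂ z hz)),
      actC τ (α (Projectivization.mk ℂ z hz)) = α (Projectivization.mk ℂ z hz) := by
    intro τ hτ
    rw [← ha τ (mem_Fix_adjP.1 hτ).1 _ hp, (mem_Fix_adjP.1 hτ).2]
  have hover : ∀ q ∈ (α (Projectivization.mk ℂ z hz)).support, Over (clo (frE k F M)) q := by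
    intro q hq
    have hk : Countable (cof k F) := inferInstance
    have h2 : Over (clo (adjP (cof k F) (Projectivization.mk ℂ z hz))) q := by
      apply over_clo_of_finite
      refine ((α (Projectivization.mk ℂ z hz)).support.finite_toSet).subset ?_
      rintro q' ⟨τ, hτ, rfl⟩
      rw [Finset.mem_coe, Finsupp.mem_support_iff, ← hαp τ hτ, actC_apply, act_inv_act]
      exact Finsupp.mem_support_iff.1 hq
    exact h2.mono (clo_mono hE)
  exact asmH hd he hF (top_ne he hind) k hM hω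
    (fun q hq => ⟨(hα _ hp).1 q hq, hover q hq⟩) (fun τ hτ => hαp τ (Fix_mono hE hτ))

private theorem actC_fib {σ : ℂ ≃+* ℂ} {ω : ℂ} (hω : σ ω = ω) (m : ℕ → ℚ) {z : Fin 4 → ℂ}
    (h1 : z 0 = 1) : actC σ (fib e ω m z) = fib e ω m fun i => σ (z i) := by
  unfold fib
  rw [map_sum]
  refine Finset.sum_congr rfl fun i _ => ?_
  have h2 : scv (ω ^ i) z ≠ 0 := scv_ne h1
  have h3 : (fun j => σ (scv (ω ^ i) z j)) = scv (ω ^ i) fun j => σ (z j) := by
    funext j
    fin_cases j <;> simp [scv, hω]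
  rw [map_smul, actC_single, mkP_eq h2, act_mk σ _ _ (map_ne_zero' σ h2)]
  congr 2
  rw [mkP_eq (h3 ▸ map_ne_zero' σ h2)]
  congr 1

private theorem root_mem_clo (L : Fl) {ω : ℂ} (he : e ≠ 0) (hω : ω ^ e = 1) : ω ∈ clo L := by
  rw [mem_clo]
  refine ⟨Polynomial.X ^ e - 1, ?_, ?_⟩
  · exact Polynomial.X_pow_sub_C_ne_zero (Nat.pos_of_ne_zero he) 1
  · simp [hω]

/-- the same coefficients at all points -/
private theorem global_formula (hd : 4 ≤ d) (he : e ∣ d) (hF : IsSmoothForm F d) (hs : IsSym e F)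
    (k : Fl) [Countable k] (hind : AlgebraicIndependent k (fun m : MonE d e => coeff m.1 F))
    {ω : ℂ} (hω : IsPrimitiveRoot ω e)
    {α : PP → Cy} (hα : ∀ p ∈ Gen (cof k F) F, α p ∈ TZ (cof k F) F d)
    (ha : ∀ σ ∈ Fix (cof k F), ∀ p ∈ Gen (cof k F) F, α (act σ p) = actC σ (α p)) :
    ∃ (m : ℕ → ℚ) (a : ℚ), ∀ (z : Fin 4 → ℂ) (hz : z ≠ 0), z 0 = 1 →
      Projectivization.mk ℂ z hz ∈ Gen (cof k F) F →
      α (Projectivization.mk ℂ z hz) - fib e ω m z - a • cycQ (Ls F z) ∈ ratQ F := by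
  have hd4 : 4 ≤ d := hd
  have he0 : e ≠ 0 := by
    rintro rfl
    rw [zero_dvd_iff] at he
    omega
  have hFK := coef_cof k F
  have hk : Countable (cof k F) := inferInstance
  obtain ⟨p₀, hp₀⟩ := exists_gen hd4 hF (cof k F) hFK
  obtain ⟨z₀, hz₀, h1₀, -, rfl⟩ := gen_nrm hd4 hF hp₀ 0
  obtain ⟨m, a, h⟩ := local_formula hd he hF hs k hind hω hα ha hz₀ h1₀ hp₀
  refine ⟨m, a, fun z hz h1 hp => ?_⟩
  have hc := gen_clo hd4 hF (cof k F) hFK
  obtain ⟨σ, hσ, hσz⟩ := gen_conj hd4 hF (clo (cof k F)) (hFK.mono (le_clo _))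
    (by rw [hc]; exact hp₀) (show Projectivization.mk ℂ z hz ∈ Gen (clo (cof k F)) F by
      rw [hc]; exact hp)
  have hσK : σ ∈ Fix (cof k F) := Fix_mono (le_clo _) hσ
  have hzσ : (fun i => σ (z₀ i)) = z := by
    rw [act_mk σ _ _ (map_ne_zero' σ hz₀), mk_eq_mk_iff_exists] at hσz
    obtain ⟨c, -, hc⟩ := hσz
    have h2 := hc 0
    rw [h1₀, h1, map_one, mul_one] at h2
    funext i
    have h3 := hc i
    rwa [← h2, one_mul] at h3
  have h2 := actC_ratQ hF.hom hFK hσK h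
  rw [map_sub, map_sub, map_smul, ← ha σ hσK _ hp₀, hσz, actC_fib (hσ ω
    (root_mem_clo _ he0 hω.pow_eq_one)) m h1₀, actC_cycQ, act_Ls hFK hσK h1₀, hzσ] at h2
  exact h2

/-- the characters -/
private theorem char_zero (hd : 4 ≤ d) (he : e ∣ d) (hF : IsSmoothForm F d) (hs : IsSym e F)
    (k : Fl) [Countable k] (h3 : coeff (Finsupp.single 3 d) F ≠ 0)
    {ω : ℂ} (hω : IsPrimitiveRoot ω e)
    {α : PP → Cy} (hα : ∀ p ∈ Gen (cof k F) F, α p ∈ TZ (cof k F) F d) {m : ℕ → ℚ} {a : ℚ}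
    (hf : ∀ (z : Fin 4 → ℂ) (hz : z ≠ 0), z 0 = 1 →
      Projectivization.mk ℂ z hz ∈ Gen (cof k F) F →
      α (Projectivization.mk ℂ z hz) - fib e ω m z - a • cycQ (Ls F z) ∈ ratQ F) :
    ∀ l ≤ d - 4, ∑ i ∈ Finset.range e, (m i : ℂ) * (ω ^ i) ^ (l + 1) = 0 := by
  intro l hl
  have he0 : e ≠ 0 := by
    rintro rfl
    rw [zero_dvd_iff] at he
    omega
  have hFK := coef_cof k F
  have hk : Countable (cof k F) := inferInstance
  obtain ⟨p, hp⟩ := exists_gen hd hF (cof k F) hFK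
  obtain ⟨r, hr⟩ := exists_gen hd hF (clo (adjP (cof k F) p))
    (hFK.mono ((le_adjP _ _).trans (le_clo _)))
  have hrK : r ∈ Gen (cof k F) F := Gen_anti ((le_adjP _ _).trans (le_clo _)) F hr
  obtain ⟨L, hL⟩ : ∃ L : Fl, L = clo (adjP (cof k F) r) := ⟨_, rfl⟩
  have hLc : Countable L := by rw [hL]; infer_instance
  have hKL : cof k F ≤ L := by rw [hL]; exact (le_adjP _ _).trans (le_clo _)
  have hFL : Coef L F := hFK.mono hKL
  have hpL : p ∈ Gen L F := by rw [hL]; exact gen_symm hd hF _ hFK hp hr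
  have hrL : Over L r := by rw [hL]; exact (over_adjP _ _).mono (le_clo _)
  have hωL : ∀ i : ℕ, ω ^ i ∈ L := fun i => by
    rw [hL]
    exact pow_mem (root_mem_clo _ he0 hω.pow_eq_one) i
  obtain ⟨D₁, D₂, h₁, h₂, -, -, hne⟩ := exists_tau_ne hd hF L hFL hpL
  have hk₁ : Kills (cof k F) D₁ := fun x hx => h₁ x (hKL hx)
  have hk₂ : Kills (cof k F) D₂ := fun x hx => h₂ x (hKL hx)
  obtain ⟨z, hz, h1, hnz, rfl⟩ := gen_nrm hd hF hp 0
  obtain ⟨y, hy, h1y, -, rfl⟩ := gen_nrm hd hF hrK 0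
  have hzF : aeval z F = 0 := (mem_surf_mk hF.hom hz).1 hp.1
  have hyF : aeval y F = 0 := (mem_surf_mk hF.hom hy).1 hrK.1
  have hyL : ∀ i, y i ∈ L := (over_mk hy h1y).1 hrL
  set f : MvPolynomial (Fin 4) ℂ := X 0 ^ (d - 4 - l) * X 3 ^ l with hfdef
  have hfh : f.IsHomogeneous (d - 4) := by
    have h4 := ((isHomogeneous_X ℂ (0 : Fin 4)).pow (d - 4 - l)).mul
      ((isHomogeneous_X ℂ (3 : Fin 4)).pow l)
    rw [one_mul, one_mul, Nat.sub_add_cancel hl] at h4
    exact h4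
  have h4 := (ratQ F).sub_mem ((ratQ F).sub_mem (hf z hz h1 hp) (hf y hy h1y hrK))
    ((ratQ F).smul_mem (-a) (Ls_sub_mem hF.hom h3 h1 h1y))
  have h5 := mumford hd hF L hFL h₁ h₂ hfh h4
  have hfib : ∀ x : Fin 4 → ℂ, tauC F D₁ D₂ f (fib e ω m x) =
      ∑ i ∈ Finset.range e, (m i : ℂ) * tau F D₁ D₂ f (mkP (scv (ω ^ i) x)) := by
    intro x
    unfold fib
    rw [map_sum]
    refine Finset.sum_congr rfl fun i _ => ?_
    rw [map_smul, tauC_single, one_smul, Rat.smul_def]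
  have hz' : tauC F D₁ D₂ f (fib e ω m z) =
      (∑ i ∈ Finset.range e, (m i : ℂ) * (ω ^ i) ^ (l + 1)) * tau F D₁ D₂ f (mkP z) := by
    rw [hfib, Finset.sum_mul]
    refine Finset.sum_congr rfl fun i _ => ?_
    rw [tau_scv hd hF hs hFL h₁ h₂ (by rw [← pow_mul, mul_comm, pow_mul, hω.pow_eq_one, one_pow])
      (hωL i) (pow_ne_zero _ (hω.ne_zero he0)) hz hzF hl, mul_assoc]
  have hy' : tauC F D₁ D₂ f (fib e ω m y) = 0 := by
    rw [hfib]
    refine Finset.sum_eq_zero fun i _ => ?_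
    have h6 : mkP (scv (ω ^ i) y) = Projectivization.mk ℂ (scv (ω ^ i) y) (scv_ne h1y) :=
      mkP_eq (scv_ne h1y)
    rw [h6, tau_over hd hF hFL h₁ h₂ _ _ hfh, mul_zero]
    · rw [mem_surf_mk hF.hom, aeval_scv hs (by
        rw [← pow_mul, mul_comm, pow_mul, hω.pow_eq_one, one_pow]), hyF]
    · refine ⟨_, scv_ne h1y, fun j => ?_, rfl⟩
      fin_cases j
      · exact hyL 0
      · exact hyL 1
      · exact hyL 2
      · exact mul_mem (hωL i) (hyL 3)
  have h6 : tauC F D₁ D₂ f (α (Projectivization.mk ℂ z hz)) = 0 :=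
    (hα _ hp).2 D₁ D₂ hk₁ hk₂ f hfh
  have h7 : tauC F D₁ D₂ f (α (Projectivization.mk ℂ y hy)) = 0 :=
    (hα _ hrK).2 D₁ D₂ hk₁ hk₂ f hfh
  simp only [map_sub, map_smul, h6, h7, hz', hy'] at h5
  have h8 : (∑ i ∈ Finset.range e, (m i : ℂ) * (ω ^ i) ^ (l + 1)) * tau F D₁ D₂ f (mkP z) = 0 := by
    simp only [Rat.smul_def, Rat.cast_neg] at h5
    linear_combination -h5
  refine (mul_eq_zero.1 h8).resolve_right ?_
  exact tau_ne hd hF hFL h₁ h₂ h1 (hnz 3) hzF (by rw [mkP_eq hz]; exact hne) hl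

private theorem gen_ai (hd : 4 ≤ d) (hF : IsSmoothForm F d) {K : Fl} [Countable K]
    (hFK : Coef K F) {z : Fin 4 → ℂ} (hz : z ≠ 0) (h1 : z 0 = 1)
    (hp : Projectivization.mk ℂ z hz ∈ Gen K F) : AlgebraicIndependent K ![z 1, z 2] :=
  (gen_iff hd hF K hFK hz ((mem_surf_mk hF.hom hz).1 hp.1) h1 (j := 1) (k := 2) (by decide)
    (by decide) (by decide)).1 hp

/-- a fibre cycle is a multiple of the line section -/
private theorem fib_mem (hd : 4 ≤ d) (he : e ∣ d) (hF : IsSmoothForm F d) (hs : IsSym e F)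
    (k : Fl) [Countable k] (h3 : coeff (Finsupp.single 3 d) F ≠ 0)
    {ω : ℂ} (hω : IsPrimitiveRoot ω e) {m : ℕ → ℚ}
    (h : (∀ i < e, m i = 0) ∨ (5 ≤ d ∧ e = d ∧ ∀ i < e, m i = m 0) ∨
      (d = 4 ∧ e = 2 ∧ m 1 = m 0) ∨ (d = 4 ∧ e = 4 ∧ m 2 = m 0 ∧ m 3 = m 1)) :
    ∃ b : ℚ, ∀ (z : Fin 4 → ℂ) (hz : z ≠ 0), z 0 = 1 →
      Projectivization.mk ℂ z hz ∈ Gen (cof k F) F →
      fib e ω m z - b • cycQ (Ls F z) ∈ ratQ F := by
  have hFK := coef_cof k F
  have hk : Countable (cof k F) := inferInstance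
  rcases h with h | ⟨-, rfl, h⟩ | ⟨rfl, rfl, h⟩ | ⟨rfl, rfl, h, h'⟩
  · refine ⟨0, fun z hz h1 hp => ?_⟩
    have h2 : fib e ω m z = 0 := by
      unfold fib
      refine Finset.sum_eq_zero fun i hi => ?_
      rw [h i (Finset.mem_range.1 hi), zero_smul]
    rw [h2, zero_smul, sub_zero]
    exact zero_mem _
  · refine ⟨m 0, fun z hz h1 hp => ?_⟩
    have hzF : aeval z F = 0 := (mem_surf_mk hF.hom hz).1 hp.1
    have hz3 : z 3 ≠ 0 := by
      obtain ⟨z', hz', h1', hne, h2⟩ := gen_nrm hd hF hp 0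
      rw [mk_eq_mk_iff_exists] at h2
      obtain ⟨c, hc, h2⟩ := h2
      rw [h2 3]
      exact mul_ne_zero hc (hne 3)
    have h2 : fib e ω m z = m 0 • cycQ (Ls F z) := by
      have h4 : cycQ (Ls F z) =
          ∑ i ∈ Finset.range e, Finsupp.single (mkP (scv (ω ^ i) z)) (1 : ℚ) := by
        rw [Ls_eq (by omega) hF.hom hs h3 hzF hz3 hω, cycQ, Multiset.map_map]
        rfl
      rw [h4, Finset.smul_sum]
      unfold fib
      exact Finset.sum_congr rfl fun i hi => by rw [h i (Finset.mem_range.1 hi)]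
    rw [h2, sub_self]
    exact zero_mem _
  · refine ⟨m 0 / 2, fun z hz h1 hp => ?_⟩
    have hω2 : ω = -1 := hω.eq_neg_one_of_two_right
    have hzF : aeval z F = 0 := (mem_surf_mk hF.hom hz).1 hp.1
    have h2 := (ratQ F).smul_mem (m 0 / 2) (dp_pair hF hs h3 hFK h1 hzF (gen_ai hd hF hFK hz h1 hp))
    convert h2 using 1
    unfold fib
    rw [Finset.sum_range_succ, Finset.sum_range_succ, Finset.sum_range_zero, zero_add, h, hω2,
      pow_zero, pow_one, smul_sub, smul_smul, smul_add]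
    congr 2
    · ring_nf
    · ring_nf
  · refine ⟨m 0 / 2 + m 1 / 2, fun z hz h1 hp => ?_⟩
    have hω2 : ω ^ 2 = -1 := by
      have h4 : IsPrimitiveRoot (ω ^ 2) 2 := hω.pow (by norm_num) (by norm_num)
      exact h4.eq_neg_one_of_two_right
    have hω3 : ω ^ 3 = -1 * ω := by
      rw [pow_succ, hω2]
    have hzF : aeval z F = 0 := (mem_surf_mk hF.hom hz).1 hp.1
    have hs2 : IsSym 2 F := fun m hm => dvd_trans (by norm_num) (hs m hm)
    have hai := gen_ai hd hF hFK hz h1 hp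
    have h2 := (ratQ F).smul_mem (m 0 / 2) (dp_pair hF hs2 h3 hFK h1 hzF hai)
    have h5 := (ratQ F).smul_mem (m 1 / 2) (dp_pair hF hs2 h3 hFK (z := scv ω z) (by simpa [scv])
      (by rw [aeval_scv hs hω.pow_eq_one, hzF]) (by simpa [scv] using hai))
    have h6 := (ratQ F).add_mem h2 h5
    have hLs : Ls F (scv ω z) = Ls F z := rfl
    have hsc : ∀ a b : ℂ, scv a (scv b z) = scv (a * b) z := by
      intro a b
      funext j
      fin_cases j <;> simp [scv, mul_assoc]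
    convert h6 using 1
    rw [hLs, hsc, hsc]
    unfold fib
    rw [Finset.sum_range_succ, Finset.sum_range_succ, Finset.sum_range_succ, Finset.sum_range_succ,
      Finset.sum_range_zero, zero_add, h, h', hω2, hω3, pow_zero, pow_one, one_mul, smul_sub,
      smul_sub, smul_smul, smul_smul, smul_add, smul_add, add_smul,
      show m 0 / 2 * 2 = m 0 by ring, show m 1 / 2 * 2 = m 1 by ring]
    abel

theorem s1H (hd : 4 ≤ d) (he : e ∣ d) (hF : IsSmoothForm F d) (hs : IsSym e F) (k : Fl)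
    [Countable k] (hind : AlgebraicIndependent k (fun m : MonE d e => coeff m.1 F))
    {α : PP → Cy} (hα : ∀ p ∈ Gen (cof k F) F, α p ∈ TZ (cof k F) F d)
    (ha : ∀ σ ∈ Fix (cof k F), ∀ p ∈ Gen (cof k F) F, α (act σ p) = actC σ (α p)) :
    ∀ p ∈ Gen (cof k F) F, ∀ q ∈ Gen (cof k F) F, α p - α q ∈ ratQ F := by
  have he0 : e ≠ 0 := by
    rintro rfl
    rw [zero_dvd_iff] at he
    omega
  have h3 := top_ne he hind
  have hω := Complex.isPrimitiveRoot_exp e he0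
  obtain ⟨m, a, hf⟩ := global_formula hd he hF hs k hind hω hα ha
  have hc := char_zero hd he hF hs k h3 hω hα hf
  obtain ⟨b, hb⟩ := fib_mem hd he hF hs k h3 hω (root_const hd he hω m hc)
  intro p hp q hq
  obtain ⟨z, hz, h1, -, rfl⟩ := gen_nrm hd hF hp 0
  obtain ⟨y, hy, h1y, -, rfl⟩ := gen_nrm hd hF hq 0
  have h4 := (ratQ F).add_mem (hf z hz h1 hp) (hb z hz h1 hp)
  have h5 := (ratQ F).add_mem (hf y hy h1y hq) (hb y hy h1y hq)
  have h6 := (ratQ F).add_mem ((ratQ F).sub_mem h4 h5)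
    ((ratQ F).smul_mem (a + b) (Ls_sub_mem hF.hom h3 h1 h1y))
  convert h6 using 1
  rw [smul_sub, add_smul, add_smul]
  abel

/-- the field `s1t` of the system -/
theorem s1tH (hd : 4 ≤ d) (he : e ∣ d) (hF : IsSmoothForm F d) (hs : IsSym e F) (k : Fl)
    [Countable k] (hind : AlgebraicIndependent k (fun m : MonE d e => coeff m.1 F))
    {n : ℕ} (t : Fin n → ℂ) (ht : AlgebraicIndependent (cof k F) t) (α : PP → Cy)
    (hα : ∀ p ∈ Gen (adj (cof k F) (Set.range t)) F, α p ∈ TZ (adj (cof k F) (Set.range t)) F d)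
    (ha : ∀ σ ∈ Fix (adj (cof k F) (Set.range t)), ∀ p ∈ Gen (adj (cof k F) (Set.range t)) F,
      α (act σ p) = actC σ (α p)) :
    ∀ p ∈ Gen (adj (cof k F) (Set.range t)) F, ∀ q ∈ Gen (adj (cof k F) (Set.range t)) F,
      α p - α q ∈ ratQ F := by
  have hc : Countable (Set.range t) := (Set.countable_range t).to_subtype
  have hind' := ind_adjE hF.hom hs k hind ht
  rw [← cof_adj] at hα ha ⊢
  exact s1H hd he hF hs (adj k (Set.range t)) hind' hα ha

end Pool.Agent.VGS.H
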