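import Pool.Agent.VGH.Defs

/-! Module Split: `E = k₁(a)`; one step of the dilation. -/

set_option autoImplicit false

open scoped LinearAlgebra.Projectivization
open MvPolynomial

namespace Pool.Agent.VGS.H

open Pool.Agent.LowDeg (surf IsSmoothForm)

variable {F : MvPolynomial (Fin 4) ℂ} {d e : ℕ} {z₀ : Fin 4 → ℂ}

/-- the value of a form at `(0,0,1,1)` -/
private theorem aeval_0011 {G : MvPolynomial (Fin 4) ℂ} (hG : G.IsHomogeneous d) :
    aeval ![(0 : ℂ), 0, 1, 1] G = ∑ i ∈ Finset.range (d + 1),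
      coeff (Finsupp.single 2 (d - i) + Finsupp.single 3 i) G := by
  classical
  set φ : ℕ → (Fin 4 →₀ ℕ) := fun i => Finsupp.single 2 (d - i) + Finsupp.single 3 i with hφ
  have hφ3 : ∀ i, φ i 3 = i := fun i => by simp [hφ]
  have hφ2 : ∀ i, φ i 2 = d - i := fun i => by simp [hφ]
  have hφ0 : ∀ i, φ i 0 = 0 := fun i => by simp [hφ]
  have hφ1 : ∀ i, φ i 1 = 0 := fun i => by simp [hφ]
  have hinj : Function.Injective φ := fun a b h => by
    have := DFunLike.congr_fun h 3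
    rwa [hφ3, hφ3] at this
  set T := (Finset.range (d + 1)).image φ with hT
  have h1 : ∑ i ∈ Finset.range (d + 1), coeff (φ i) G = ∑ m ∈ T, coeff m G := by
    rw [hT, Finset.sum_image fun a _ b _ h => hinj h]
  change _ = ∑ i ∈ Finset.range (d + 1), coeff (φ i) G
  rw [h1, aeval_def, eval₂_eq']
  have h2 : ∀ m ∈ T, (algebraMap ℂ ℂ (coeff m G) * ∏ i, (![(0 : ℂ), 0, 1, 1] i) ^ m i) =
      coeff m G := by
    intro m hm
    obtain ⟨i, -, rfl⟩ := Finset.mem_image.1 hm
    rw [Fin.prod_univ_four]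
    simp [hφ0, hφ1]
  rw [← Finset.sum_congr rfl h2]
  trans ∑ m ∈ G.support ∪ T, algebraMap ℂ ℂ (coeff m G) * ∏ i, (![(0 : ℂ), 0, 1, 1] i) ^ m i
  · refine Finset.sum_subset Finset.subset_union_left fun m _ hm => ?_
    rw [notMem_support_iff.1 hm, map_zero, zero_mul]
  · symm
    refine Finset.sum_subset Finset.subset_union_right fun m hm hmT => ?_
    have hm' : m ∈ G.support := by
      rcases Finset.mem_union.1 hm with h | h
      · exact h
      · exact absurd h hmT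
    have hdeg : m.degree = d := by
      by_contra h
      exact mem_support_iff.1 hm' (hG.coeff_eq_zero h)
    have h3 : m 0 ≠ 0 ∨ m 1 ≠ 0 := by
      by_contra h
      push Not at h
      apply hmT
      rw [hT, Finset.mem_image]
      have h4 : m 0 + m 1 + m 2 + m 3 = d := by
        rw [← hdeg, Finsupp.degree_eq_sum, Fin.sum_univ_four]
      refine ⟨m 3, Finset.mem_range.2 (by omega), ?_⟩
      ext i
      fin_cases i
      · change φ (m 3) 0 = m 0
        rw [hφ0, h.1]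
      · change φ (m 3) 1 = m 1
        rw [hφ1, h.2]
      · change φ (m 3) 2 = m 2
        rw [hφ2]
        omega
      · change φ (m 3) 3 = m 3
        rw [hφ3]
    rw [Fin.prod_univ_four]
    rcases h3 with h3 | h3
    · simp [h3]
    · simp [h3]

/-- the coefficient of `X₂ ^ d` is minus the sum of the coefficients of the `X₂ ^ i X₃ ^ j`, `j > 0`
(`G (0,0,1,1) = 0`), so it is in the field of the other coefficients -/
theorem FrameH.top {k : Fl} {M : Matrix (Fin 4) (Fin 4) ℂ} (hF : IsSmoothForm F d)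
    (hM : FrameH k F d e z₀ M) :
    coeff (Finsupp.single 2 d) (frG F M) =
      -∑ j ∈ Finset.range d, coeff (Finsupp.single 2 (d - (j + 1)) + Finsupp.single 3 (j + 1))
        (frG F M) := by
  have hG := asm_frG_hom hF.hom M
  have h1 := aeval_0011 hG
  have h2 : M.mulVec ![0, 0, 1, 1] = z₀ := by
    rw [hM.line 1 1]
    funext i
    fin_cases i <;> simp
  rw [asm_aeval_frG, h2, hM.zero, Finset.sum_range_succ'] at h1
  simp only [Nat.sub_zero, Finsupp.single_zero, add_zero] at h1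
  exact eq_neg_of_add_eq_zero_right h1.symm

/-- (port of `VGS.asm_frE_split`) -/
theorem FrameH.split (hd : 4 ≤ d) (he : e ∣ d) (hF : IsSmoothForm F d) {k : Fl} [Countable k]
    {M : Matrix (Fin 4) (Fin 4) ℂ} (hM : FrameH k F d e z₀ M) {j : Fin 4} (hj : (j : ℕ) ≤ 1) :
    ∃ k₁ : Fl, Countable k₁ ∧
      Transcendental k₁ (coeff (Finsupp.single j d) (frG F M)) ∧
      Coef k₁ (frG F M - C (coeff (Finsupp.single j d) (frG F M)) * X j ^ d) ∧
      frE k F M = adj k₁ {coeff (Finsupp.single j d) (frG F M)} := by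
  classical
  have hG := asm_frG_hom hF.hom M
  have hjd : (Finsupp.single j d).degree = d := by
    rw [Finsupp.degree_single]
  have hj3 : j ≠ 3 := by
    rintro rfl
    exact absurd hj (by decide)
  have hj2' : j ≠ 2 := by
    rintro rfl
    exact absurd hj (by decide)
  have hje : e ∣ (Finsupp.single j d) 3 := by
    rw [Finsupp.single_eq_of_ne hj3.symm]
    exact dvd_zero _
  have hj2 : (Finsupp.single j d : Fin 4 →₀ ℕ) ≠ Finsupp.single 2 d := by
    intro h
    have h1 := DFunLike.congr_fun h j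
    rw [Finsupp.single_eq_same, Finsupp.single_eq_of_ne hj2'] at h1
    omega
  let x : {m : MonE d e // m.1 ≠ Finsupp.single 2 d} → ℂ := fun m => coeff m.1.1 (frG F M)
  let mj : {m : MonE d e // m.1 ≠ Finsupp.single 2 d} := ⟨⟨Finsupp.single j d, hjd, hje⟩, hj2⟩
  let S : Set ℂ := x '' {m | m ≠ mj}
  have hmem0 : ∀ m, m ≠ Finsupp.single j d → m ≠ Finsupp.single 2 d →
      coeff m (frG F M) ∈ adj (frk k M) S := by
    intro m hm hm2
    by_cases h0 : coeff m (frG F M) = 0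
    · rw [h0]
      exact zero_mem _
    · have h1 : m.degree = d := by
        by_contra h1
        exact h0 (hG.coeff_eq_zero h1)
      refine subset_adj _ _ ⟨⟨⟨m, h1, hM.sym m h0⟩, hm2⟩, ?_, rfl⟩
      intro h3
      exact hm (congrArg (fun t => t.1.1) h3)
  have hmem : ∀ m, m ≠ Finsupp.single j d → coeff m (frG F M) ∈ adj (frk k M) S := by
    intro m hm
    by_cases h2 : m = Finsupp.single 2 d
    · rw [h2, hM.top hF]
      refine neg_mem (sum_mem fun i hi => hmem0 _ ?_ ?_)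
      · intro h
        have h1 := DFunLike.congr_fun h 3
        rw [Finsupp.single_eq_of_ne hj3.symm] at h1
        simp at h1
      · intro h
        have h1 := DFunLike.congr_fun h 3
        simp at h1
    · exact hmem0 m hm h2
  have hMc : Countable {m : MonE d e // m.1 ≠ Finsupp.single 2 d} := inferInstance
  have hSc : Countable S := ((Set.to_countable _).image x).to_subtype
  refine ⟨adj (frk k M) S, inferInstance, ?_, ?_, ?_⟩
  · have h1 := hM.ind.transcendental_adjoin (s := {m | m ≠ mj}) (i := mj) (by simp)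
    intro h2
    apply h1
    rw [← asm_mem_clo_adj, mem_clo]
    exact h2
  · intro m
    rw [coeff_sub, coeff_C_mul, coeff_X_pow]
    by_cases h : Finsupp.single j d = m
    · rw [if_pos h, mul_one, h, sub_self]
      exact zero_mem _
    · rw [if_neg h, mul_zero, sub_zero]
      exact hmem m (Ne.symm h)
  · rw [adj_adj]
    unfold frE
    apply le_antisymm
    · refine adj_le (le_adj _ _) ?_
      rintro _ ⟨m, rfl⟩
      by_cases h : m = Finsupp.single j d
      · exact subset_adj _ _ (Or.inr (by rw [h]; rfl))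
      · have h1 : adj (frk k M) S ≤
            adj (frk k M) (S ∪ {coeff (Finsupp.single j d) (frG F M)}) :=
          adj_le (le_adj _ _) (fun y hy => subset_adj _ _ (Or.inl hy))
        exact h1 (hmem m h)
    · refine adj_le (le_adj _ _) ?_
      rintro y (⟨m, -, rfl⟩ | hy)
      · exact subset_adj _ _ ⟨m.1.1, rfl⟩
      · rw [Set.mem_singleton_iff.1 hy]
        exact subset_adj _ _ ⟨_, rfl⟩

/-- (port of `VGS.asm_step1`, which uses only `hM.det`, `hM.le` and `asm_frE_split`) -/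
theorem stepH (hd : 4 ≤ d) (he : e ∣ d) (hF : IsSmoothForm F d) (k : Fl) [Countable k]
    {M : Matrix (Fin 4) (Fin 4) ℂ} (hM : FrameH k F d e z₀ M)
    (j : Fin 4) (hj : (j : ℕ) ≤ 1) {z : Fin 4 → ℂ} (hz0 : ∀ i < j, z i = 0) (hzj : z j = 1)
    (hzF : mkP (M.mulVec z) ∈ surf F) (hzE : Over (clo (frE k F M)) (mkP (M.mulVec z))) :
    ∃ (n : ℕ) (y : Cy), 0 < n ∧ (∀ σ ∈ Fix (frE k F M), actC σ y = y) ∧
      (∀ q ∈ y.support, q ∈ surf F ∧ Over (clo (frE k F M)) q ∧
        ∃ w : Fin 4 → ℂ, w ≠ 0 ∧ (∀ i ≤ j, w i = 0) ∧ q = mkP (M.mulVec w)) ∧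
      (n : ℚ) • Orb (frE k F M) (mkP (M.mulVec z)) + y ∈ ratQ F := by
  classical
  have hdet := hM.det
  have hME : ∀ i j, M i j ∈ frE k F M := asm_mem_frE k F M
  have hMC : ∀ i j, M i j ∈ clo (frE k F M) := fun i j => le_clo _ (hME i j)
  have hz : z ≠ 0 := by
    rintro rfl
    exact zero_ne_one hzj
  have hKE : cof k F ≤ frE k F M := hM.le
  have hFK : Coef (cof k F) F := fun m => subset_adj _ _ ⟨m, rfl⟩
  have hFE : Coef (frE k F M) F := hFK.mono hKE
  obtain ⟨k₁, hk₁, ha, hG₀, hEk⟩ := hM.split hd he hF hj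
  have hzG : aeval z (frG F M) = 0 := (asm_mkP_mem_surf hF.hom hdet hz).1 hzF
  have hzC : ∀ i, z i ∈ clo (frE k F M) := (asm_over_mulVec hdet hMC hzj).1 hzE
  have hdil := dil k₁ j hj (by omega) (frG F M) (asm_frG_hom hF.hom M) _ ha hG₀ z hz0 hzj hzG
    (by rw [← hEk]; exact hzC)
  rw [← hEk] at hdil
  obtain ⟨u, hu, s, hs0, hsj, hsG, hsC, hsn, ⟨V₀, hV₀, hu₀, hs₀⟩, hconj, hinf⟩ := hdil
  clear hG₀ ha hEk hk₁
  have hEc : Countable (frE k F M) := asm_countable_frE k F M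
  generalize hEdef : frE k F M = E at *
  have hs : s ≠ 0 := by
    rintro rfl
    exact zero_ne_one hsj
  -- the family
  have hsOver : Over (clo (adj E {u})) (mkP (M.mulVec s)) :=
    (asm_over_mulVec hdet (fun i j => le_clo _ (le_adj _ _ (hME i j))) hsj).2 hsC
  have hfin := finite_orbit_pt (adj E {u}) hsOver
  obtain ⟨S, hSnd, hSmem⟩ : ∃ S : Multiset PP, S.Nodup ∧
      ∀ q, q ∈ S ↔ ∃ σ ∈ Fix (adj E {u}), act σ (mkP (M.mulVec s)) = q := by
    refine ⟨hfin.toFinset.val, hfin.toFinset.nodup, fun q => ?_⟩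
    rw [Finset.mem_val, Set.Finite.mem_toFinset]
    rfl
  have hS : IsFam E u S := by
    refine ⟨fun q hq => ?_, fun σ hσ => ?_⟩
    · obtain ⟨σ, hσ, rfl⟩ := (hSmem q).1 hq
      exact (over_clo_act hσ).2 hsOver
    · refine (Multiset.Nodup.ext (hSnd.map (act_injective σ)) hSnd).2 fun q => ?_
      rw [Multiset.mem_map]
      constructor
      · rintro ⟨q', hq', rfl⟩
        obtain ⟨τ, hτ, rfl⟩ := (hSmem q').1 hq'
        exact (hSmem _).2 ⟨σ * τ, (Fix _).mul_mem hσ hτ, by rw [act_mul]⟩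
      · intro hq
        obtain ⟨τ, hτ, rfl⟩ := (hSmem q).1 hq
        refine ⟨act (σ⁻¹ * τ) (mkP (M.mulVec s)), (hSmem _).2
          ⟨_, (Fix _).mul_mem ((Fix _).inv_mem hσ) hτ, rfl⟩, ?_⟩
        rw [← act_mul, mul_inv_cancel_left]
  have hsS : mkP (M.mulVec s) ∈ S := (hSmem _).2 ⟨1, (Fix _).one_mem, act_one _⟩
  -- its members are generic
  have hsF : mkP (M.mulVec s) ∈ surf F := (asm_mkP_mem_surf hF.hom hdet hs).2 hsG
  have hspP : SpP V₀ (clo E) (mkP (M.mulVec s)) (mkP (M.mulVec z)) :=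
    (asm_spP_mulVec hV₀ hdet hMC hs hz).2 ((spP_mk hV₀ hs hz hsj hzj).2 hs₀)
  have hFixK : ∀ σ ∈ Fix (adj E {u}), σ ∈ Fix (cof k F) := fun σ hσ =>
    Fix_mono (hKE.trans (le_adj _ _)) hσ
  have hSF : ∀ q ∈ S, q ∈ surf F := by
    intro q hq
    obtain ⟨σ, hσ, rfl⟩ := (hSmem q).1 hq
    exact (act_mem_surf hF.hom hFK (hFixK σ hσ)).2 hsF
  -- limits
  have hEu : adj E {u} ≤ adj (clo E) {u} :=
    adj_le ((le_clo E).trans (le_adj _ _)) (subset_adj _ _)
  have hSOver : ∀ q ∈ S, Over (clo (adj (clo E) {u})) q := fun q hq =>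
    (hS.isOver q hq).mono (clo_mono hEu)
  obtain ⟨V₁, hV₁, hu₁⟩ := exists_place (clo_clo E) hu (one_mem (clo E))
  have hex₀ : ∀ q ∈ S, ∃ q', SpP V₀ (clo E) q q' := fun q hq =>
    exists_spP (clo_clo E) hV₀ hu hu₀ (hSOver q hq)
  have hex₁ : ∀ q ∈ S, ∃ q', SpP V₁ (clo E) q q' := fun q hq =>
    exists_spP (clo_clo E) hV₁ hu hu₁ (hSOver q hq)
  choose! f hf using hex₀
  choose! g hg using hex₁
  have hlim₀ : ∀ q ∈ S, (∃ w : Fin 4 → ℂ, w ≠ 0 ∧ (∀ i ≤ j, w i = 0) ∧
      f q = mkP (M.mulVec w)) ∨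
      f q ∈ {q' | ∃ σ ∈ Fix E, act σ (mkP (M.mulVec z)) = q'} := by
    intro q hq
    have h1 := hf q hq
    obtain ⟨σ, hσ, rfl⟩ := (hSmem q).1 hq
    rcases asm_lim (zero_mem E) hdet hME hs0 hsj hV₀ hu₀ hσ h1 with h2 | ⟨V', hV', hu', w, hw, h2⟩
    · exact Or.inl h2
    · obtain ⟨τ, hτ, h3⟩ := hconj V' hV' hu' w hw
      refine Or.inr ⟨σ * τ, (Fix E).mul_mem (Fix_mono (le_adj _ _) hσ) hτ, ?_⟩
      rw [asm_act_mkP hdet hME ((Fix E).mul_mem (Fix_mono (le_adj _ _) hσ) hτ) hz, h2]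
      congr 2
      funext i
      rw [← h3 i]
      rfl
  have hlim₁ : ∀ q ∈ S, ∃ w : Fin 4 → ℂ, w ≠ 0 ∧ (∀ i ≤ j, w i = 0) ∧
      g q = mkP (M.mulVec w) := by
    intro q hq
    have h1 := hg q hq
    obtain ⟨σ, hσ, rfl⟩ := (hSmem q).1 hq
    rcases asm_lim (one_mem E) hdet hME hs0 hsj hV₁ hu₁ hσ h1 with h2 | ⟨V', hV', hu', w, hw, h2⟩
    · exact h2
    · obtain ⟨i, hi⟩ := hinf V' hV' hu'
      exact absurd ((hw i).mem hV') hi
  -- the cycles
  have hst₀ : ∀ σ ∈ Fix E, actC σ (cycQ (S.map f)) = cycQ (S.map f) := fun σ hσ => by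
    rw [actC_cycQ, stable_ms hu hS (zero_mem E) hV₀ hu₀ hf hσ]
  have hst₁ : ∀ σ ∈ Fix E, actC σ (cycQ (S.map g)) = cycQ (S.map g) := fun σ hσ => by
    rw [actC_cycQ, stable_ms hu hS (one_mem E) hV₁ hu₁ hg hσ]
  refine ⟨(S.map f).count (mkP (M.mulVec z)), cycQ (S.map f) - cycQ (S.map g) -
    ((S.map f).count (mkP (M.mulVec z)) : ℚ) • Orb E (mkP (M.mulVec z)), ?_, ?_, ?_, ?_⟩
  · rw [Multiset.count_pos, Multiset.mem_map]
    exact ⟨_, hsS, SpP.unique hV₀ (hf _ hsS) hspP⟩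
  · intro σ hσ
    rw [map_sub, map_sub, map_smul, hst₀ σ hσ, hst₁ σ hσ, actC_Orb hzE hσ]
  · intro q hq
    have hq' := Finsupp.mem_support_iff.1 hq
    rw [Finsupp.sub_apply, Finsupp.sub_apply, Finsupp.smul_apply, smul_eq_mul] at hq'
    have key : q ∈ S.map g ∨ (q ∈ S.map f ∧
        q ∉ {q' | ∃ σ ∈ Fix E, act σ (mkP (M.mulVec z)) = q'}) := by
      by_cases hO : q ∈ {q' | ∃ σ ∈ Fix E, act σ (mkP (M.mulVec z)) = q'}
      · left
        by_contra hcon
        apply hq'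
        have h1 : Orb E (mkP (M.mulVec z)) q = 1 := by
          unfold Orb
          rw [asm_sumSet_apply (finite_orbit_pt E hzE), if_pos hO]
        have h2 : cycQ (S.map f) q = ((S.map f).count (mkP (M.mulVec z)) : ℚ) := by
          obtain ⟨σ, hσ, rfl⟩ := hO
          rw [← hst₀ σ hσ, actC_apply, act_inv_act, cycQ_apply]
        rw [h1, h2, cycQ_apply, Multiset.count_eq_zero_of_notMem hcon]
        simp
      · by_cases hg' : q ∈ S.map g
        · exact Or.inl hg'
        · refine Or.inr ⟨?_, hO⟩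
          by_contra hcon
          apply hq'
          have h1 : Orb E (mkP (M.mulVec z)) q = 0 := by
            unfold Orb
            rw [asm_sumSet_apply (finite_orbit_pt E hzE), if_neg hO]
          rw [h1, cycQ_apply, cycQ_apply, Multiset.count_eq_zero_of_notMem hcon,
            Multiset.count_eq_zero_of_notMem hg']
          simp
    have hFC : Coef (clo E) F := hFE.mono (le_clo E)
    rcases key with h1 | ⟨h1, h2⟩
    · obtain ⟨p', hp', rfl⟩ := Multiset.mem_map.1 h1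
      exact ⟨SpP.mem_surf hV₁ hF.hom hFC (hg p' hp') (hSF p' hp'), (hg p' hp').over,
        hlim₁ p' hp'⟩
    · obtain ⟨p', hp', rfl⟩ := Multiset.mem_map.1 h1
      refine ⟨SpP.mem_surf hV₀ hF.hom hFC (hf p' hp') (hSF p' hp'), (hf p' hp').over, ?_⟩
      rcases hlim₀ p' hp' with h3 | h3
      · exact h3
      · exact absurd h3 h2
  · have h5 : (((S.map f).count (mkP (M.mulVec z)) : ℕ) : ℚ) • Orb E (mkP (M.mulVec z)) +
        (cycQ (S.map f) - cycQ (S.map g) -
          (((S.map f).count (mkP (M.mulVec z)) : ℕ) : ℚ) • Orb E (mkP (M.mulVec z))) =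
        cycQ (S.map f) - cycQ (S.map g) := by abel
    rw [h5]
    exact link_ms hu hS hF.hom hFE hSF hV₀ hV₁ hu₀ hu₁ hf hg

end Pool.Agent.VGS.H
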